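import Pool.Agent.Work.MP_f7ef37_lc.WR.Stmts3

/-!
# Assembly of the block [f7ef37 WR], part 1: the three events
-/

set_option autoImplicit false

open Classical

namespace Pool.Agent.Work.MP_f7ef37_lc.WR

open Pool.Agent.Work.MP_f7ef37_lc.OP

theorem asm_mem_gr {I J : Type} [Fintype I] [Fintype J] {g : ℕ} (ρ : Finset (I × J))
    (γ : I × J → Fin g) (e : I × J) : e ∈ gr ρ γ ↔ (γ e).val = 0 ∧ NA ρ e := by
  unfold gr
  rw [Finset.mem_filter]
  exact ⟨fun h => h.2, fun h => ⟨Finset.mem_univ _, h⟩⟩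

theorem asm_mem_xi {I J : Type} [Fintype I] [Fintype J] {R q g : ℕ}
    (ω : Fin R → Fin q → I × J) (γ : I × J → Fin g) (e : I × J) :
    e ∈ xi ω γ ↔ (∃ r l, ω r l = e) ∨ (γ e).val = 0 := by
  unfold xi
  rw [Finset.mem_filter]
  exact ⟨fun h => h.2, fun h => ⟨Finset.mem_univ _, h⟩⟩

/-- Union bound in two steps. -/
theorem asm_union {Ω : Type} [Fintype Ω] {ι : Type} (K : ℕ) (F : Fin K → Finset ι)
    (P : Fin K → ι → Ω → Prop) (x y : ℝ) (hy : 0 ≤ y) (hx : ∀ s, ((F s).card : ℝ) ≤ x)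
    (h : ∀ s, ∀ i ∈ F s, pr (P s i) ≤ y) :
    pr (fun ω => ∃ s : Fin K, ∃ i ∈ F s, P s i ω) ≤ K * (x * y) := by
  have h1 : ∀ s ∈ (Finset.univ : Finset (Fin K)), pr (fun ω => ∃ i ∈ F s, P s i ω) ≤ x * y := by
    intro s _
    refine le_trans (pr_exists_le (F s) (P s)) ?_
    refine le_trans (Finset.sum_le_sum (h s)) ?_
    rw [Finset.sum_const, nsmul_eq_mul]
    exact mul_le_mul_of_nonneg_right (hx s) hy
  refine le_trans (pr_mono (Q := fun ω => ∃ s ∈ (Finset.univ : Finset (Fin K)),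
    ∃ i ∈ F s, P s i ω) (fun ω hω => ?_)) ?_
  · obtain ⟨s, hs⟩ := hω
    exact ⟨s, Finset.mem_univ s, hs⟩
  · refine le_trans (pr_exists_le Finset.univ (fun s ω => ∃ i ∈ F s, P s i ω)) ?_
    refine le_trans (Finset.sum_le_sum h1) ?_
    rw [Finset.sum_const, nsmul_eq_mul, Finset.card_univ, Fintype.card_fin]

/-- The hypothesis on the random set. -/
theorem asm_theta (hua : StUA) (hfb : StFB) (I J : Type) [Fintype I] [Fintype J]
    [Nonempty (I × J)] (t K R q g w : ℕ) (Lam : ℝ) (ht : 1 ≤ t) (hn : 2 ≤ Fintype.card J)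
    (hnm : Fintype.card J ≤ Fintype.card I)
    (hp : Par2 t (Fintype.card J) (Fintype.card I) K R q g w Lam) (U : Finset (I × J)) :
    pr (fun p : (Fin R → Fin q → I × J) × (I × J → Fin g) => U ⊆ xi p.1 p.2) ≤
      (2 / (g : ℝ)) ^ U.card := by
  have hg1 : 1 ≤ g := by have := hp.g1; omega
  refine le_trans (hua hfb I J R q g U hg1) ?_
  refine pow_le_pow_left₀ (by positivity) ?_ _
  have hgpos : (0 : ℝ) < g := by exact_mod_cast (show 0 < g by omega)
  have hnpos : (0 : ℝ) < (Fintype.card J : ℝ) := by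
    exact_mod_cast (show 0 < Fintype.card J by omega)
  have hmpos : (0 : ℝ) < (Fintype.card I : ℝ) := by
    exact_mod_cast (show 0 < Fintype.card I by omega)
  have h1 : (R : ℝ) * q / (Fintype.card (I × J) : ℝ) ≤ 1 / (g : ℝ) := by
    rw [Fintype.card_prod]
    push_cast
    rw [div_le_div_iff₀ (by positivity) hgpos]
    have h2 : ((R * q : ℕ) : ℝ) ≤ (Fintype.card J : ℝ) := by
      have h3 := hp.q2
      have h4 : R * q ≤ 64 * t * (R * q) := Nat.le_mul_of_pos_left _ (by omega)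
      exact_mod_cast h4.trans h3
    have h5 : (g : ℝ) ≤ (Fintype.card I : ℝ) := by exact_mod_cast (hp.g2.trans hnm)
    push_cast at h2
    calc (R : ℝ) * q * g ≤ (Fintype.card J : ℝ) * (Fintype.card I : ℝ) :=
          mul_le_mul h2 h5 hgpos.le hnpos.le
      _ = 1 * ((Fintype.card I : ℝ) * (Fintype.card J : ℝ)) := by ring
  have h6 : 2 / (g : ℝ) = 1 / (g : ℝ) + 1 / (g : ℝ) := by ring
  rw [h6]
  linarith

end Pool.Agent.Work.MP_f7ef37_lc.WR
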