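import Pool.Agent.Work.MP_f7ef37_lc.WR.Asm1

/-!
# Assembly of the block [f7ef37 WR], part 2: the three events
-/

set_option autoImplicit false

open Classical

namespace Pool.Agent.Work.MP_f7ef37_lc.WR

open Pool.Agent.Work.MP_f7ef37_lc.OP

/-- The conclusion of HI. -/
def HIc (I J : Type) [Fintype I] [Fintype J] (R q t : ℕ) (Lam lam : ℝ) : Prop :=
  ∀ (b : ℕ) (B : Fm I J), 1 ≤ b → b ≤ t → Spread lam b B →
    pr (fun ω : Fin R → Fin q → I × J => ∀ S ∈ B, ¬ S ⊆ rho ω) ≤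
    (1 / 2) ^ R + Real.exp (-(7 * Lam / 32))

theorem asm_ev1 (I J : Type) [Fintype I] [Fintype J] (t K R q : ℕ) (Lam lam x : ℝ)
    (hi : HIc I J R q t Lam lam) (KK : Fin K → Finset (Fm I J))
    (h1 : ∀ s, ((KK s).card : ℝ) ≤ x)
    (h2 : ∀ s, ∀ B ∈ KK s, ∃ b, 1 ≤ b ∧ b ≤ t ∧ Spread lam b B) :
    pr (fun ω : Fin R → Fin q → I × J => ∃ s : Fin K, ∃ B ∈ KK s, ∀ S ∈ B, ¬ S ⊆ rho ω) ≤
      K * (x * ((1 / 2) ^ R + Real.exp (-(7 * Lam / 32)))) := by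
  refine asm_union K KK (fun _ B ω => ∀ S ∈ B, ¬ S ⊆ rho ω) x _ (by positivity) h1 ?_
  intro s B hB
  obtain ⟨b, hb1, hb2, hb3⟩ := h2 s B hB
  exact hi b B hb1 hb2 hb3

/-- The conclusion of UM for one family. -/
def UMc (I J : Type) [Fintype I] [Fintype J] (R q g : ℕ) (lam θ : ℝ) (s : ℕ) (M : Fm I J) :
    Prop :=
  pr (fun p : (Fin R → Fin q → I × J) × (I × J → Fin g) =>
    2 * ((s : ℝ) * R + θ * lam) ^ s < ((M.filter (fun S => S ⊆ xi p.1 p.2)).card : ℝ)) ≤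
    (1 / 2) ^ R

theorem asm_umc (hum : StUM) (hun : StUN) (I J : Type) [Fintype I] [Fintype J] (R q g : ℕ)
    (lam θ : ℝ) (s : ℕ) (M : Fm I J) (h1 : 0 ≤ lam) (h2 : 0 ≤ θ)
    (hU : ∀ U : Finset (I × J), pr (fun p : (Fin R → Fin q → I × J) × (I × J → Fin g) =>
      U ⊆ xi p.1 p.2) ≤ θ ^ U.card)
    (h3 : ∀ S ∈ M, S.card = s)
    (h4 : ∀ C : Finset (I × J), C.card ≤ s → (dg M C : ℝ) ≤ lam ^ (s - C.card)) :
    UMc I J R q g lam θ s M :=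
  hum hun I J ((Fin R → Fin q → I × J) × (I × J → Fin g)) (fun p => xi p.1 p.2) M s R lam θ
    h1 h2 hU h3 h4

theorem asm_ev2 (I J : Type) [Fintype I] [Fintype J] (t K R q g : ℕ) (lam θ : ℝ)
    (M : Fin K → Fm I J) (h : ∀ s : Fin K, ∀ σ ≤ t, UMc I J R q g lam θ σ (lay (M s) σ)) :
    pr (fun p : (Fin R → Fin q → I × J) × (I × J → Fin g) => ∃ s : Fin K,
      ∃ σ ∈ Finset.range (t + 1), 2 * ((σ : ℝ) * R + θ * lam) ^ σ <
        (((lay (M s) σ).filter (fun S => S ⊆ xi p.1 p.2)).card : ℝ)) ≤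
      K * (((t : ℝ) + 1) * (1 / 2) ^ R) := by
  refine asm_union K (fun _ => Finset.range (t + 1))
    (fun s σ (p : (Fin R → Fin q → I × J) × (I × J → Fin g)) =>
      2 * ((σ : ℝ) * R + θ * lam) ^ σ <
        (((lay (M s) σ).filter (fun S => S ⊆ xi p.1 p.2)).card : ℝ)) ((t : ℝ) + 1) _
    (by positivity) ?_ ?_
  · intro s
    rw [Finset.card_range]
    push_cast
    exact le_rfl
  · intro s σ hσ
    exact h s σ (Nat.lt_succ_iff.1 (Finset.mem_range.1 hσ))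

/-- The third event for one `ω`. -/
def XBc (I J : Type) [Fintype I] [Fintype J] (g : ℕ) (ρ : Finset (I × J)) : Prop :=
  pr (fun γ : I × J → Fin g => ¬ Exp2 (Lk (gr ρ γ)) Sum.isLeft
    (Finset.univ.filter (fun v => ¬ Cov ρ v)) (Fintype.card J / 8)) ≤ 1 / 4

theorem asm_ev3 (I J : Type) [Fintype I] [Fintype J] (R q g : ℕ)
    (h : ∀ ω : Fin R → Fin q → I × J, XBc I J g (rho ω)) :
    pr (fun p : (Fin R → Fin q → I × J) × (I × J → Fin g) =>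
      ¬ Exp2 (Lk (gr (rho p.1) p.2)) Sum.isLeft
        (Finset.univ.filter (fun v => ¬ Cov (rho p.1) v)) (Fintype.card J / 8)) ≤ 1 / 4 := by
  refine pr_prod_le _ _ (by norm_num) ?_
  intro ω
  exact h ω

/-- A point outside three events. -/
theorem asm_point {Ω Ω' : Type} [Fintype Ω] [Fintype Ω'] [Nonempty Ω] [Nonempty Ω']
    (E1 : Ω → Prop) (E2 E3 : Ω × Ω' → Prop) (h1 : pr E1 ≤ 1 / 4) (h2 : pr E2 ≤ 1 / 4)
    (h3 : pr E3 ≤ 1 / 4) : ∃ ω γ, ¬ E1 ω ∧ ¬ E2 (ω, γ) ∧ ¬ E3 (ω, γ) := by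
  have a1 := pr_or_le (fun p : Ω × Ω' => E1 p.1) E2
  have a2 := pr_or_le (fun p : Ω × Ω' => E1 p.1 ∨ E2 p) E3
  have a3 : pr (fun p : Ω × Ω' => E1 p.1) = pr E1 := pr_fst E1
  have a4 : pr (fun p : Ω × Ω' => (E1 p.1 ∨ E2 p) ∨ E3 p) < 1 := by
    rw [a3] at a1
    linarith
  obtain ⟨⟨ω, γ⟩, hp⟩ := exists_not_of_pr_lt_one a4
  refine ⟨ω, γ, fun h => hp (Or.inl (Or.inl h)), fun h => hp (Or.inl (Or.inr h)),
    fun h => hp (Or.inr h)⟩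

end Pool.Agent.Work.MP_f7ef37_lc.WR
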