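import Pool.Agent.Work.MP_f7ef37_lc.WR.Asm2

/-!
# Assembly of the block [f7ef37 WR], part 3: from a good outcome to the theorem
-/

set_option autoImplicit false

open Classical

namespace Pool.Agent.Work.MP_f7ef37_lc.WR

open Pool.Agent.Work.MP_f7ef37_lc.OP

/-- All items. -/
structure Items : Prop where
  cn : StCN
  cl : StCL
  fb : StFB
  hi : StHI2
  rb : StRB
  ua : StUA
  un : StUN
  um : StUM
  va : StVA
  xp : StXP
  xb : StXB
  gl : StGL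
  gx : StGX
  gh : StGH
  hx : StHX
  st : StST
  ga : StGA
  bd : StBD
  na : StNA2
  nb : StNB2

/-- The game after a good outcome. -/
theorem asm_game (h : Items) (I J : Type) [Fintype I] [Fintype J] (t K R q g w : ℕ)
    (lam : ℝ) (Ds : Fin K → Ln I J) (ω : Fin R → Fin q → I × J) (γ : I × J → Fin g)
    (M : Fin K → Fm I J) (ht : 1 ≤ t) (hR : 1 ≤ R) (hlam : 0 ≤ lam) (hw1 : 1 ≤ w)
    (hw2 : 48 * w + 56 ≤ Fintype.card J)
    (hw3 : 4 * (t : ℝ) ^ 2 * ((t : ℝ) * R + 2 / (g : ℝ) * lam) ^ t ≤ w)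
    (hterm : ∀ s, ∀ T ∈ Ds s, T.1.card + T.2.card ≤ t) (hok : ∀ s, OkLine Ds s)
    (hM1 : ∀ s, ∀ S ∈ M s, S.card ≤ t)
    (hM3 : ∀ s, ∀ S ∈ Fam t (Ds s), ∃ S' ∈ M s, S' ⊆ S)
    (hM4 : ∀ s, ∀ S ∈ M s, ∃ T ∈ Fam t (Ds s), ∀ e ∈ T, e ∈ S ∨ e ∈ rho ω)
    (hcount : ∀ s, ∀ σ ≤ t, (((lay (M s) σ).filter (fun S => S ⊆ xi ω γ)).card : ℝ) ≤
      2 * ((σ : ℝ) * R + 2 / (g : ℝ) * lam) ^ σ)
    (hexp : Exp2 (Lk (gr (rho ω) γ)) Sum.isLeft
      (Finset.univ.filter (fun v => ¬ Cov (rho ω) v)) (Fintype.card J / 8)) :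
    ∀ s, Ds s ≠ ∅ := by
  have hrb := h.rb I J R q g ω γ
  have hgrNA : ∀ e ∈ gr (rho ω) γ, NA (rho ω) e := fun e he => ((asm_mem_gr _ _ _).1 he).2
  obtain ⟨hx1, hx2⟩ := h.hx h.gl h.gx I J (gr (rho ω) γ) (rho ω) (Fintype.card J / 8) hgrNA hexp
  have hmatu : ∀ b, Hm (gr (rho ω) γ) (rho ω) (Fintype.card J / 8) b → Mat (rho ω ∪ b) := by
    intro b hb e he f hf hadj
    rcases Finset.mem_union.1 he with he | he <;> rcases Finset.mem_union.1 hf with hf | hf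
    · exact hrb.1 e he f hf hadj
    · exact absurd hadj (hgrNA f (hb.1 hf) e he)
    · refine absurd ?_ (hgrNA e (hb.1 he) f hf)
      rcases hadj with h1 | h1
      · exact Or.inl h1.symm
      · exact Or.inr h1.symm
    · exact hb.2.1 e he f hf hadj
  refine h.ga I J K w Ds (fun s => Av (M s) (xi ω γ)) (rho ω)
    (Hm (gr (rho ω) γ) (rho ω) (Fintype.card J / 8)) hw1 hok ?_ hx1 ?_ hmatu ?_ ?_
  · intro s
    have h1 := h.va I J t R (2 / (g : ℝ) * lam) (M s) (xi ω γ) ht hR (by positivity) (hM1 s)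
      (hcount s)
    have h3 : ((Av (M s) (xi ω γ)).card : ℝ) ≤ (w : ℝ) := h1.trans hw3
    exact_mod_cast h3
  · intro b b' hb hbb
    exact h.gh I J (gr (rho ω) γ) (rho ω) (Fintype.card J / 8) b b' hb hbb
  · intro b v hb hbc hv1 hv2
    have h1 : 2 * b.card + 1 ≤ Fintype.card J / 8 := by
      rw [Nat.le_div_iff_mul_le (by norm_num)]
      omega
    obtain ⟨f, hf1, hf2, hf3, hf4⟩ := hx2 b v hb h1 hv1 hv2
    refine ⟨f, hf2, ?_, hf4⟩
    intro e he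
    rcases Finset.mem_union.1 he with he | he
    · exact hgrNA f hf1 e he
    · exact hf3 e he
  · intro s b hb hsat
    refine h.st I J t (Ds s) (M s) (rho ω) (xi ω γ) b (hterm s) (hM3 s) (hM4 s)
      (hmatu b hb) ?_ hsat
    intro e he
    rcases Finset.mem_union.1 he with he | he
    · exact hrb.2.1 he
    · rw [asm_mem_xi]
      exact Or.inr ((asm_mem_gr _ _ _).1 (hb.1 he)).1

/-- The closures of the lines. -/
theorem asm_closure (h : Items) (I J : Type) [Fintype I] [Fintype J] (t K : ℕ) (lam : ℝ)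
    (hlam : 0 < lam) (Ds : Fin K → Ln I J) :
    ∃ (M : Fin K → Fm I J) (KK : Fin K → Finset (Fm I J)), (∀ s, ∀ S ∈ M s, S.card ≤ t) ∧
      (∀ s, Small lam t (M s)) ∧
      (∀ s, ((KK s).card : ℝ) ≤ ((Fintype.card (I × J) : ℝ) + 1) ^ t) ∧
      (∀ s, ∀ B ∈ KK s, ∃ b, 1 ≤ b ∧ b ≤ t ∧ Spread lam b B) ∧
      (∀ s, ∀ S ∈ Fam t (Ds s), ∃ S' ∈ M s, S' ⊆ S) ∧
      ∀ s, ∀ ρ : Finset (I × J), (∀ B ∈ KK s, ∃ S ∈ B, S ⊆ ρ) →
        ∀ S ∈ M s, ∃ T ∈ Fam t (Ds s), ∀ e ∈ T, e ∈ S ∨ e ∈ ρ := by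
  have hcl : ∀ s : Fin K, ∃ (M : Fm I J) (KK : Finset (Fm I J)), (∀ S ∈ M, S.card ≤ t) ∧
      Small lam t M ∧ (KK.card : ℝ) ≤ ((Fintype.card (I × J) : ℝ) + 1) ^ t ∧
      (∀ B ∈ KK, ∃ b, 1 ≤ b ∧ b ≤ t ∧ Spread lam b B) ∧
      (∀ S ∈ Fam t (Ds s), ∃ S' ∈ M, S' ⊆ S) ∧
      ∀ ρ : Finset (I × J), (∀ B ∈ KK, ∃ S ∈ B, S ⊆ ρ) →
        ∀ S ∈ M, ∃ T ∈ Fam t (Ds s), ∀ e ∈ T, e ∈ S ∨ e ∈ ρ := by
    intro s
    refine h.cl h.cn I J lam t (Fam t (Ds s)) hlam ?_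
    intro S hS
    unfold Fam at hS
    rw [Finset.mem_filter] at hS
    exact ⟨hS.2.1, hS.2.2.1⟩
  choose M KK hM1 hM2 hKK1 hKK2 hM3 hM4 using hcl
  exact ⟨M, KK, hM1, hM2, hKK1, hKK2, hM3, hM4⟩

/-- No refutation for good parameters. -/
theorem asm_no_ref (h : Items) (I J : Type) [Fintype I] [Fintype J] (t K R q g w : ℕ)
    (Lam : ℝ) (Ds : Fin K → Ln I J) (ht : 1 ≤ t) (hn : 2 ≤ Fintype.card J)
    (hnm : Fintype.card J ≤ Fintype.card I)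
    (hp : Par2 t (Fintype.card J) (Fintype.card I) K R q g w Lam)
    (hterm : ∀ s, ∀ T ∈ Ds s, T.1.card + T.2.card ≤ t) (hok : ∀ s, OkLine Ds s) :
    ∀ s, Ds s ≠ ∅ := by
  have hg1 : 2 ≤ g := hp.g1
  have hJ : Nonempty J := Fintype.card_pos_iff.1 (by omega)
  have hI : Nonempty I := Fintype.card_pos_iff.1 (by omega)
  have hE : Nonempty (I × J) := inferInstance
  have hΩ2 : Nonempty (I × J → Fin g) := ⟨fun _ => ⟨0, by omega⟩⟩
  have hΩ1 : Nonempty (Fin R → Fin q → I × J) := inferInstance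
  have hmpos : (0 : ℝ) < (Fintype.card I : ℝ) := by
    exact_mod_cast (show 0 < Fintype.card I by omega)
  have hLam := hp.Lam1
  have hlam : 0 < Lam * (Fintype.card I : ℝ) := mul_pos hLam hmpos
  have hgpos : (0 : ℝ) < g := by exact_mod_cast (show 0 < g by omega)
  have hθ0 : 0 ≤ 2 / (g : ℝ) := by positivity
  obtain ⟨M, KK, hM1, hM2, hKK1, hKK2, hM3, hM4⟩ :=
    asm_closure h I J t K (Lam * (Fintype.card I : ℝ)) hlam Ds
  -- first event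
  have hhi : HIc I J R q t Lam (Lam * (Fintype.card I : ℝ)) := by
    intro b B hb1 hb2 hb3
    exact h.hi I J R q t b Lam
      (Lam * (Fintype.card I : ℝ)) B hp.R1 (by omega) hnm hb1 hb2 hp.q1 hp.q2 hLam rfl
      hp.Lam2 hb3
  have he1 := asm_ev1 I J t K R q Lam (Lam * (Fintype.card I : ℝ)) _ hhi KK hKK1 hKK2
  have hE1 : pr (fun ω : Fin R → Fin q → I × J =>
      ∃ s : Fin K, ∃ B ∈ KK s, ∀ S ∈ B, ¬ S ⊆ rho ω) ≤ 1 / 4 := by
    refine he1.trans ?_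
    have h3 := hp.un1
    rw [mul_assoc] at h3
    rw [Fintype.card_prod]
    push_cast
    exact h3
  -- second event
  have hU := asm_theta h.ua h.fb I J t K R q g w Lam ht hn hnm hp
  have humc : ∀ s : Fin K, ∀ σ ≤ t,
      UMc I J R q g (Lam * (Fintype.card I : ℝ)) (2 / (g : ℝ)) σ (lay (M s) σ) := by
    intro s σ hσ
    refine asm_umc h.um h.un I J R q g _ _ σ (lay (M s) σ) hlam.le hθ0 hU ?_ ?_
    · intro S hS
      unfold lay at hS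
      exact (Finset.mem_filter.1 hS).2
    · intro C hC
      exact hM2 s σ hσ C hC
  have he2 := asm_ev2 I J t K R q g _ _ M humc
  have hle : (K : ℝ) * (((t : ℝ) + 1) * (1 / 2) ^ R) ≤ 1 / 4 := by
    have h3 := hp.un2
    rw [mul_assoc] at h3
    exact h3
  have hE2 := he2.trans hle
  -- third event
  have hrho : ∀ ω : Fin R → Fin q → I × J, Mat (rho ω) ∧
      64 * (rho ω).card ≤ Fintype.card J := by
    intro ω
    obtain ⟨h1, -, h3⟩ := h.rb I J R q g ω (fun _ => ⟨0, by omega⟩)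
    refine ⟨h1, ?_⟩
    have h4 := hp.q2
    calc 64 * (rho ω).card ≤ 64 * (R * q) := Nat.mul_le_mul_left _ h3
      _ ≤ 64 * t * (R * q) := Nat.mul_le_mul_right _ (Nat.le_mul_of_pos_right _ (by omega))
      _ ≤ Fintype.card J := h4
  have hxb : ∀ ω : Fin R → Fin q → I × J, XBc I J g (rho ω) := by
    intro ω
    exact h.xb h.xp I J g (rho ω) (by omega) hn hnm (hrho ω).1 (hrho ω).2 hp.ex1
  have hE3 := asm_ev3 I J R q g hxb
  obtain ⟨ω, γ, g1, g2, g3⟩ := asm_point _ _ _ hE1 hE2 hE3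
  have hhit : ∀ s, ∀ B ∈ KK s, ∃ S ∈ B, S ⊆ rho ω := by
    intro s B hB
    by_contra hcon
    push Not at hcon
    exact g1 ⟨s, B, hB, hcon⟩
  have hcount : ∀ s, ∀ σ ≤ t, (((lay (M s) σ).filter (fun S => S ⊆ xi ω γ)).card : ℝ) ≤
      2 * ((σ : ℝ) * R + 2 / (g : ℝ) * (Lam * (Fintype.card I : ℝ))) ^ σ := by
    intro s σ hσ
    by_contra hcon
    push Not at hcon
    exact g2 ⟨s, σ, Finset.mem_range.2 (Nat.lt_succ_iff.2 hσ), hcon⟩
  have hexp : Exp2 (Lk (gr (rho ω) γ)) Sum.isLeft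
      (Finset.univ.filter (fun v => ¬ Cov (rho ω) v)) (Fintype.card J / 8) := by
    by_contra hcon
    exact g3 hcon
  exact asm_game h I J t K R q g w (Lam * (Fintype.card I : ℝ)) Ds ω γ M ht hp.R1 hlam.le
    hp.w1 hp.w2 hp.w3 hterm hok hM1 hM3 (fun s => hM4 s (rho ω) (hhit s)) hcount hexp

end Pool.Agent.Work.MP_f7ef37_lc.WR
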