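import Pool.Agent.Work.MP_f7ef37_lc.WR.Asm3

/-!
# Assembly of the block [f7ef37 WR], part 4: the core theorem and its final forms
-/

set_option autoImplicit false

open Classical

namespace Pool.Agent.Work.MP_f7ef37_lc.WR

open Pool.Agent.Work.MP_f7ef37_lc.OP

/-- The core theorem. -/
def StCore : Prop := ∃ C : ℝ, 0 < C ∧ ∀ t : ℕ, 1 ≤ t →
  ∀ (n m k : ℕ) (L : ℝ) (P : Fin (k + 1) → Finset (Finset (Fin m × Fin n × Bool))),
    2 ≤ n → n < m → Real.log n ≤ L →
    (C * (t : ℝ) ^ 3 * L * Real.log n * ((m : ℝ) / n)) ^ t ≤ n →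
    IsRef t m n k P → Real.exp L < size P

/-- The core theorem from the items. -/
theorem core_of (h : Items) : StCore := by
  obtain ⟨CA, hCA, hA⟩ := h.na
  obtain ⟨CB, hCB, hB⟩ := h.nb
  refine ⟨max CA CB, lt_max_of_lt_left hCA, ?_⟩
  intro t ht n m k L P hn hnm hL hhyp hP
  by_contra hcon
  push Not at hcon
  obtain ⟨I, hI, K, Ds, h1, h2, h3, h4, h5, s, h6⟩ := h.bd t m n k P (by omega) hnm hP
  have hlog0 : 0 ≤ Real.log n := Real.log_natCast_nonneg n
  have hlog2 : Real.log 2 ≤ Real.log n := Real.log_le_log (by norm_num) (by exact_mod_cast hn)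
  have hLlog2 : Real.log 2 ≤ L := hlog2.trans hL
  have hL0 : 0 ≤ L := hlog0.trans hL
  have hn0 : (0 : ℝ) < n := by exact_mod_cast (show 0 < n by omega)
  have hC0 : 0 ≤ max CA CB := (lt_max_of_lt_left hCA).le
  have hhyp' : (max CA CB * (t : ℝ) ^ 3 * L * Real.log n *
      ((Fintype.card I : ℝ) / n)) ^ t ≤ n := by
    refine le_trans (pow_le_pow_left₀ (by positivity) ?_ t) hhyp
    refine mul_le_mul_of_nonneg_left ?_ (by positivity)
    refine div_le_div_of_nonneg_right ?_ hn0.le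
    exact_mod_cast h2
  have hK : (K : ℝ) ≤ Real.exp (2 * L) := by
    have e1 : Real.exp (2 * L) = Real.exp L * Real.exp L := by
      rw [← Real.exp_add]
      congr 1
      ring
    have e2 : 2 ≤ Real.exp L := by
      have := Real.exp_le_exp.2 hLlog2
      rwa [Real.exp_log (by norm_num)] at this
    rw [e1]
    nlinarith
  obtain ⟨R, q, g, Lam, a1, a2, a3, a4, a5, a6, a7, a8, a9, a10, a11, a12⟩ :=
    hA t ht n (Fintype.card I) K L (max CA CB) (le_max_left _ _) hn h1 hL hhyp' hK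
  obtain ⟨w, b1, b2, b3⟩ := hB t ht n (Fintype.card I) R g L (max CA CB) Lam
    (le_max_right _ _) hn h1 hL hhyp' a2 a5 a9 (by omega)
  have hJ : Fintype.card (Fin n) = n := Fintype.card_fin n
  have hLam : 0 < Lam := by
    have h7 : (0 : ℝ) < R := by exact_mod_cast (show 0 < R by omega)
    have ht' : (0 : ℝ) < t := by exact_mod_cast (show 0 < t by omega)
    rw [a5]
    positivity
  have hpar : Par2 t (Fintype.card (Fin n)) (Fintype.card I) K R q g w Lam := by
    rw [hJ]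
    exact ⟨a1, a3, a4, hLam, a6, a7, a8, a10, a11, a12, b1, b2, b3⟩
  exact asm_no_ref h I (Fin n) t K R q g w Lam Ds ht (by rw [hJ]; exact hn)
    (by rw [hJ]; exact h1) hpar h4 h5 s h6

/-- The form with the exponent `1 + 1 / t`. -/
def StForm1 : Prop := ∃ C : ℝ, 0 < C ∧ ∀ t : ℕ, 1 ≤ t →
  ∀ (n m k : ℕ) (L : ℝ) (P : Fin (k + 1) → Finset (Finset (Fin m × Fin n × Bool))),
    2 ≤ n → n < m → Real.log n ≤ L →
    C * (t : ℝ) ^ 3 * L * Real.log n * m ≤ (n : ℝ) ^ (1 + 1 / (t : ℝ)) →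
    IsRef t m n k P → Real.exp L < size P

theorem form1_of (h : StCore) : StForm1 := by
  obtain ⟨C, hC, hc⟩ := h
  refine ⟨C, hC, ?_⟩
  intro t ht n m k L P hn hnm hL hhyp hP
  refine hc t ht n m k L P hn hnm hL ?_ hP
  have hn0 : (0 : ℝ) < n := by exact_mod_cast (show 0 < n by omega)
  have ht0 : (t : ℝ) ≠ 0 := by exact_mod_cast (show t ≠ 0 by omega)
  have hlog0 : 0 ≤ Real.log n := Real.log_natCast_nonneg n
  have hL0 : 0 ≤ L := hlog0.trans hL
  have h1 : (n : ℝ) ^ (1 + 1 / (t : ℝ)) = n * (n : ℝ) ^ (1 / (t : ℝ)) := by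
    rw [Real.rpow_add hn0, Real.rpow_one]
  have h2 : C * (t : ℝ) ^ 3 * L * Real.log n * ((m : ℝ) / n) ≤ (n : ℝ) ^ (1 / (t : ℝ)) := by
    rw [h1] at hhyp
    have h3 : C * (t : ℝ) ^ 3 * L * Real.log n * ((m : ℝ) / n) =
        C * (t : ℝ) ^ 3 * L * Real.log n * m / n := by ring
    rw [h3, div_le_iff₀ hn0]
    linarith
  refine le_trans (pow_le_pow_left₀ (by positivity) h2 t) (le_of_eq ?_)
  rw [← Real.rpow_natCast, ← Real.rpow_mul hn0.le, one_div, inv_mul_cancel₀ ht0, Real.rpow_one]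

/-- The form of the question: no refutations of quasi-polynomial size in a range of `m`. -/
def StForm2 : Prop := ∀ t : ℕ, 1 ≤ t → ∀ c : ℕ, 1 ≤ c → ∀ᶠ n : ℕ in Filter.atTop, ∀ m k : ℕ,
  n < m → (m : ℝ) * (Real.log n) ^ (c + 2) ≤ (n : ℝ) ^ (1 + 1 / (t : ℝ)) →
  ∀ P : Fin (k + 1) → Finset (Finset (Fin m × Fin n × Bool)), IsRef t m n k P →
    Real.exp ((Real.log n) ^ c) < size P

theorem form2_of (h : StForm1) : StForm2 := by
  obtain ⟨C, hC, hc⟩ := h
  intro t ht c hc1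
  have hlogt : Filter.Tendsto (fun n : ℕ => Real.log (n : ℝ)) Filter.atTop Filter.atTop :=
    Real.tendsto_log_atTop.comp tendsto_natCast_atTop_atTop
  filter_upwards [hlogt.eventually_ge_atTop (C * (t : ℝ) ^ 3 + 1),
    Filter.eventually_ge_atTop 2] with n hn hn2
  intro m k hnm hhyp P hP
  have hCt : 0 < C * (t : ℝ) ^ 3 := by
    have : (0 : ℝ) < t := by exact_mod_cast (show 0 < t by omega)
    positivity
  have hlog1 : 1 ≤ Real.log n := by linarith
  have hlog0 : 0 ≤ Real.log n := by linarith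
  have hm0 : (0 : ℝ) ≤ m := Nat.cast_nonneg m
  refine hc t ht n m k ((Real.log n) ^ c) P hn2 hnm (le_self_pow₀ hlog1 (by omega)) ?_ hP
  refine le_trans ?_ hhyp
  have h2 : C * (t : ℝ) ^ 3 * (Real.log n) ^ c * Real.log n * m ≤
      Real.log n * (Real.log n) ^ c * Real.log n * m := by
    refine mul_le_mul_of_nonneg_right ?_ hm0
    refine mul_le_mul_of_nonneg_right ?_ hlog0
    refine mul_le_mul_of_nonneg_right (by linarith) (by positivity)
  refine h2.trans (le_of_eq ?_)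
  ring

end Pool.Agent.Work.MP_f7ef37_lc.WR
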