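import Pool.Agent.Work.MP_f7ef37_lc.WR.Defs

/-!
# Basic lemmas on `ex` and `pr` for the block [f7ef37 WR]
-/

set_option autoImplicit false

open Classical

namespace Pool.Agent.Work.MP_f7ef37_lc.WR

open Pool.Agent.Work.MP_f7ef37_lc.OP

section

variable {Ω : Type} [Fintype Ω]

theorem ex_mono {f g : Ω → ℝ} (h : ∀ ω, f ω ≤ g ω) : ex f ≤ ex g :=
  div_le_div_of_nonneg_right (Finset.sum_le_sum (fun ω _ => h ω)) (Nat.cast_nonneg _)

theorem ex_nonneg {f : Ω → ℝ} (h : ∀ ω, 0 ≤ f ω) : 0 ≤ ex f :=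
  div_nonneg (Finset.sum_nonneg (fun ω _ => h ω)) (Nat.cast_nonneg _)

theorem ex_add (f g : Ω → ℝ) : ex (fun ω => f ω + g ω) = ex f + ex g := by
  unfold ex
  rw [Finset.sum_add_distrib, add_div]

theorem ex_mul_left (c : ℝ) (f : Ω → ℝ) : ex (fun ω => c * f ω) = c * ex f := by
  unfold ex
  rw [← Finset.mul_sum, mul_div_assoc]

theorem ex_sum {ι : Type} (s : Finset ι) (f : ι → Ω → ℝ) :
    ex (fun ω => ∑ i ∈ s, f i ω) = ∑ i ∈ s, ex (f i) := by
  unfold ex
  rw [Finset.sum_comm, Finset.sum_div]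

theorem ex_const [Nonempty Ω] (c : ℝ) : ex (fun _ : Ω => c) = c := by
  unfold ex
  rw [Finset.sum_const, Finset.card_univ, nsmul_eq_mul]
  have : (Fintype.card Ω : ℝ) ≠ 0 := by exact_mod_cast Fintype.card_ne_zero
  field_simp

theorem pr_eq_card (P : Ω → Prop) :
    pr P = ((Finset.univ.filter P).card : ℝ) / (Fintype.card Ω : ℝ) := by
  unfold pr ex
  rw [Finset.sum_ite, Finset.sum_const_zero, add_zero, Finset.sum_const, nsmul_eq_mul, mul_one]

theorem pr_nonneg (P : Ω → Prop) : 0 ≤ pr P :=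
  ex_nonneg (fun ω => by split_ifs <;> norm_num)

theorem pr_mono {P Q : Ω → Prop} (h : ∀ ω, P ω → Q ω) : pr P ≤ pr Q := by
  refine ex_mono (fun ω => ?_)
  by_cases hp : P ω
  · rw [if_pos hp, if_pos (h ω hp)]
  · rw [if_neg hp]
    split_ifs <;> norm_num

theorem pr_le_one (P : Ω → Prop) : pr P ≤ 1 := by
  rw [pr_eq_card]
  refine div_le_one_of_le₀ ?_ (Nat.cast_nonneg _)
  exact_mod_cast Finset.card_le_univ _

theorem pr_or_le (P Q : Ω → Prop) : pr (fun ω => P ω ∨ Q ω) ≤ pr P + pr Q := by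
  unfold pr
  rw [← ex_add]
  refine ex_mono (fun ω => ?_)
  by_cases hp : P ω <;> by_cases hq : Q ω <;> simp [hp, hq]

theorem pr_exists_le {ι : Type} (s : Finset ι) (P : ι → Ω → Prop) :
    pr (fun ω => ∃ i ∈ s, P i ω) ≤ ∑ i ∈ s, pr (P i) := by
  unfold pr
  rw [← ex_sum]
  refine ex_mono (fun ω => ?_)
  by_cases h : ∃ i ∈ s, P i ω
  · rw [if_pos h]
    obtain ⟨i, hi, hP⟩ := h
    refine le_trans ?_ (Finset.single_le_sum (f := fun i => if P i ω then (1 : ℝ) else 0)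
      (fun j _ => by split_ifs <;> norm_num) hi)
    simp [hP]
  · rw [if_neg h]
    exact Finset.sum_nonneg (fun j _ => by split_ifs <;> norm_num)

theorem exists_not_of_pr_lt_one [Nonempty Ω] {P : Ω → Prop} (h : pr P < 1) : ∃ ω, ¬ P ω := by
  by_contra hcon
  push Not at hcon
  have h1 : ex (fun _ : Ω => (1 : ℝ)) ≤ pr P := ex_mono (fun ω => by rw [if_pos (hcon ω)])
  rw [ex_const] at h1
  linarith

theorem markov (f : Ω → ℝ) (a : ℝ) (ha : 0 < a) (hf : ∀ ω, 0 ≤ f ω) :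
    pr (fun ω => a ≤ f ω) ≤ ex f / a := by
  rw [le_div_iff₀ ha, mul_comm]
  unfold pr
  rw [← ex_mul_left]
  refine ex_mono (fun ω => ?_)
  by_cases h : a ≤ f ω
  · rw [if_pos h]; linarith
  · rw [if_neg h]; linarith [hf ω]

theorem ex_equiv {Ω' : Type} [Fintype Ω'] (e : Ω ≃ Ω') (f : Ω' → ℝ) :
    ex (fun ω => f (e ω)) = ex f := by
  unfold ex
  rw [Fintype.card_congr e, Equiv.sum_comp e f]

theorem pr_equiv {Ω' : Type} [Fintype Ω'] (e : Ω ≃ Ω') (P : Ω' → Prop) :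
    pr (fun ω => P (e ω)) = pr P := ex_equiv e (fun ω => if P ω then (1 : ℝ) else 0)

theorem ex_prod {Ω' : Type} [Fintype Ω'] (f : Ω × Ω' → ℝ) :
    ex f = ex (fun a => ex (fun b => f (a, b))) := by
  unfold ex
  rw [Fintype.sum_prod_type, Fintype.card_prod, Finset.sum_div]
  rw [Finset.sum_div]
  refine Finset.sum_congr rfl (fun a _ => ?_)
  rw [div_div]
  congr 1
  push_cast
  ring

theorem pr_prod_le {Ω' : Type} [Fintype Ω'] (P : Ω × Ω' → Prop) (c : ℝ) (hc : 0 ≤ c)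
    (h : ∀ a, pr (fun b => P (a, b)) ≤ c) : pr P ≤ c := by
  unfold pr
  rw [ex_prod]
  rcases isEmpty_or_nonempty Ω with hE | hE
  · unfold ex
    simp [hc]
  · refine le_trans (ex_mono (g := fun _ => c) (fun a => h a)) ?_
    rw [ex_const]

theorem pr_fst {Ω' : Type} [Fintype Ω'] [Nonempty Ω'] (P : Ω → Prop) :
    pr (fun p : Ω × Ω' => P p.1) = pr P := by
  unfold pr
  rw [ex_prod]
  congr 1
  funext a
  exact ex_const (Ω := Ω') (if P a then (1 : ℝ) else 0)

theorem ex_fst_mul_snd {Ω' : Type} [Fintype Ω'] (f : Ω → ℝ) (g : Ω' → ℝ) :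
    ex (fun p : Ω × Ω' => f p.1 * g p.2) = ex f * ex g := by
  rw [ex_prod]
  have : (fun a => ex (fun b => f a * g b)) = fun a => ex g * f a := by
    funext a
    rw [ex_mul_left, mul_comm]
  rw [this, ex_mul_left, mul_comm]

theorem pr_and_prod {Ω' : Type} [Fintype Ω'] (P : Ω → Prop) (Q : Ω' → Prop) :
    pr (fun p : Ω × Ω' => P p.1 ∧ Q p.2) = pr P * pr Q := by
  unfold pr
  rw [← ex_fst_mul_snd]
  congr 1
  funext p
  by_cases hp : P p.1 <;> by_cases hq : Q p.2 <;> simp [hp, hq]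

/-- Mean value of a product over independent coordinates. -/
theorem ex_pi_prod {κ : Type} [Fintype κ] (f : κ → Ω → ℝ) :
    ex (fun ω : κ → Ω => ∏ k, f k (ω k)) = ∏ k, ex (f k) := by
  unfold ex
  rw [← Fintype.prod_sum, Finset.prod_div_distrib, Finset.prod_const, Finset.card_univ,
    Fintype.card_fun]
  push_cast
  rfl

/-- Product rule for independent coordinates. -/
theorem pr_pi {κ : Type} [Fintype κ] (P : κ → Ω → Prop) :
    pr (fun ω : κ → Ω => ∀ k, P k (ω k)) = ∏ k, pr (P k) := by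
  unfold pr
  rw [← ex_pi_prod]
  congr 1
  funext ω
  by_cases h : ∀ k, P k (ω k)
  · rw [if_pos h, Finset.prod_eq_one]
    intro k _
    rw [if_pos (h k)]
  · rw [if_neg h]
    push Not at h
    obtain ⟨k, hk⟩ := h
    symm
    apply Finset.prod_eq_zero (Finset.mem_univ k)
    rw [if_neg hk]

end

end Pool.Agent.Work.MP_f7ef37_lc.WR
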