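import Pool.Agent.Work.MP_f7ef37_lc.OP.Stmts3

/-!
# Definitions for the block [f7ef37 WR]

THEOREM W: for every `t` there is `C` such that for `n ≥ 2`, `m > n`, `L ≥ log n` and
`C * L * log n * m ≤ n ^ (1 + 1 / t)` every Res(t) refutation of the onto functional pigeonhole
principle with `m` pigeons and `n` holes has size more than `exp L`.

Board: pigeons `I`, holes `J`, edges `I × J`, vertices `I ⊕ J`. From `OP/Defs.lean`:
`Ln I J` (lines), `Inc v e` (`v` is an end of `e`), `Adj e f` (a common end, possibly `e = f`),
`Mat c` (matching), `NA c f` (`f` meets no edge of `c`), `Cov c v` (`v` is covered by `c`),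
`Sat D b`. From `OP/Stmts.lean`: `AxLine`, `OkLine`. From `OP/Stmts3.lean`: `IsRef`, `size`.
Everything is classical.
-/

set_option autoImplicit false

open Classical

namespace Pool.Agent.Work.MP_f7ef37_lc.WR

open Pool.Agent.Work.MP_f7ef37_lc.OP

/-! ## Probability on finite uniform spaces -/

/-- Mean value over a finite type. -/
noncomputable def ex {Ω : Type} [Fintype Ω] (f : Ω → ℝ) : ℝ :=
  (∑ ω, f ω) / (Fintype.card Ω : ℝ)

/-- Probability of `P` for the uniform distribution on a finite type. -/
noncomputable def pr {Ω : Type} [Fintype Ω] (P : Ω → Prop) : ℝ :=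
  ex (fun ω => if P ω then (1 : ℝ) else 0)

/-! ## Families of sets of edges -/

/-- A family of sets of edges. -/
abbrev Fm (I J : Type) := Finset (Finset (I × J))

/-- The number of members of `B` which contain `C`. -/
noncomputable def dg {I J : Type} (B : Fm I J) (C : Finset (I × J)) : ℕ :=
  (B.filter (fun S => C ⊆ S)).card

/-- The members with `s` elements. -/
noncomputable def lay {I J : Type} (B : Fm I J) (s : ℕ) : Fm I J :=
  B.filter (fun S => S.card = s)

/-- The family `M` is small: no set `C` is in too many members with `s` elements. -/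
def Small {I J : Type} (lam : ℝ) (t : ℕ) (M : Fm I J) : Prop :=
  ∀ s ≤ t, ∀ C : Finset (I × J), C.card ≤ s → (dg (lay M s) C : ℝ) ≤ lam ^ (s - C.card)

/-- The family `B` of matchings with `b` edges is spread. -/
def Spread {I J : Type} (lam : ℝ) (b : ℕ) (B : Fm I J) : Prop :=
  (∀ S ∈ B, S.card = b ∧ Mat S) ∧ lam ^ b ≤ (B.card : ℝ) ∧
    ∀ C : Finset (I × J), C.Nonempty → C.card ≤ b → (dg B C : ℝ) ≤ lam ^ (b - C.card)

/-- The number of members of `B` which cover the vertex `v`. -/
noncomputable def vd {I J : Type} (B : Fm I J) (v : I ⊕ J) : ℕ :=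
  (B.filter (fun S => Cov S v)).card

section board

variable {I J : Type} [Fintype I] [Fintype J]

/-- The matchings with at most `t` edges which satisfy the line `D`. -/
noncomputable def Fam (t : ℕ) (D : Ln I J) : Fm I J :=
  Finset.univ.filter (fun S => S.card ≤ t ∧ Mat S ∧ Sat D S)

/-! ## The random matching -/

/-- The valid edges of a round `η` of `q` slots: the edge of a slot which has no end in `Z` and
meets no other slot of the round. -/
noncomputable def val {q : ℕ} (Z : Set (I ⊕ J)) (η : Fin q → I × J) : Finset (I × J) :=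
  Finset.univ.filter (fun e => ∃ k, η k = e ∧ (∀ v ∈ Z, ¬ Inc v e) ∧ ∀ l, l ≠ k → ¬ Adj e (η l))

/-- The vertices of the slots of the rounds before `r`. -/
def used {R q : ℕ} (ω : Fin R → Fin q → I × J) (r : ℕ) : Set (I ⊕ J) :=
  {v | ∃ k : Fin R, k.val < r ∧ ∃ l, Inc v (ω k l)}

/-- The matching of all valid edges. -/
noncomputable def rho {R q : ℕ} (ω : Fin R → Fin q → I × J) : Finset (I × J) :=
  Finset.univ.filter (fun e => ∃ r : Fin R, e ∈ val (used ω r.val) (ω r))

/-- The edges of the slots and the edges of colour `0`. -/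
noncomputable def xi {R q g : ℕ} (ω : Fin R → Fin q → I × J) (γ : I × J → Fin g) :
    Finset (I × J) :=
  Finset.univ.filter (fun e => (∃ r l, ω r l = e) ∨ (γ e).val = 0)

/-- The edges of colour `0` which do not meet `ρ`. -/
noncomputable def gr {g : ℕ} (ρ : Finset (I × J)) (γ : I × J → Fin g) : Finset (I × J) :=
  Finset.univ.filter (fun e => (γ e).val = 0 ∧ NA ρ e)

/-- The vertices covered by members of `M` contained in `X`. -/
noncomputable def Av (M : Fm I J) (X : Finset (I × J)) : Finset (I ⊕ J) :=
  Finset.univ.filter (fun v => ∃ S ∈ M, S ⊆ X ∧ Cov S v)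

/-- The edges of `b` with an end in `A`. -/
noncomputable def meet (A : Finset (I ⊕ J)) (b : Finset (I × J)) : Finset (I × J) :=
  b.filter (fun e => ∃ v ∈ A, Inc v e)

/-- The covered vertices. -/
noncomputable def cv (b : Finset (I × J)) : Finset (I ⊕ J) := Finset.univ.filter (Cov b)

/-- Adjacency of vertices in the bipartite graph `G`. -/
def Lk (G : Finset (I × J)) : I ⊕ J → I ⊕ J → Prop
  | Sum.inl i, Sum.inr j => (i, j) ∈ G
  | Sum.inr j, Sum.inl i => (i, j) ∈ G
  | _, _ => False

end board

/-! ## Bipartite graphs on a vertex type with sides -/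

/-- The neighbours of `A`. -/
noncomputable def nb {V : Type} [Fintype V] (adj : V → V → Prop) (A : Finset V) : Finset V :=
  Finset.univ.filter (fun y => ∃ x ∈ A, adj x y)

/-- `A` is contained in one side. -/
def Os {V : Type} (side : V → Bool) (A : Finset V) : Prop := ∃ c, ∀ x ∈ A, side x = c

/-- Expansion by the factor `2` for one-sided subsets of the board `Bd` with at most `r`
elements. -/
def Exp2 {V : Type} [Fintype V] (adj : V → V → Prop) (side : V → Bool) (Bd : Finset V)
    (r : ℕ) : Prop :=
  ∀ A : Finset V, (∀ x ∈ A, x ∈ Bd) → Os side A → A.card ≤ r → 2 * A.card ≤ (nb adj A).card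

/-- Hall's condition outside `W` for one-sided subsets of the board `Bd` outside `W` with at
most `r` elements. -/
def Hal {V : Type} [Fintype V] (adj : V → V → Prop) (side : V → Bool) (Bd : Finset V)
    (r : ℕ) (W : Finset V) : Prop :=
  ∀ A : Finset V, (∀ x ∈ A, x ∈ Bd ∧ x ∉ W) → Os side A → A.card ≤ r →
    A.card ≤ ((nb adj A).filter (fun y => y ∉ W)).card

/-- The positions of the adversary: matchings in `G` for which Hall's condition holds outside
the covered vertices. The board: the vertices not covered by `ρ`. -/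
def Hm {I J : Type} [Fintype I] [Fintype J] (G ρ : Finset (I × J)) (r : ℕ)
    (b : Finset (I × J)) : Prop :=
  b ⊆ G ∧ Mat b ∧ Hal (Lk G) Sum.isLeft (Finset.univ.filter (fun v => ¬ Cov ρ v)) r (cv b)

end Pool.Agent.Work.MP_f7ef37_lc.WR
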