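import Pool.Agent.Work.MP_f7ef37_lc.WR.Stmts2
import Pool.Agent.Work.MP_f7ef37_lc.OP.I_BOARD

/-!
# Item BD: the board (copy of the item BOARD of the block OP, with the bounds for the number of
pigeons and for both parts of the terms)
-/

set_option autoImplicit false

open Classical

namespace Pool.Agent.Work.MP_f7ef37_lc.WR

open Pool.Agent.Work.MP_f7ef37_lc.OP Pool.Agent.Work.MP_f7ef37_lc.OP.NBOARD

/-- Both parts of a term. -/
private theorem BD_card {m n : ℕ} (M : Finset (Fin m)) (T : Finset (Fin m × Fin n × Bool)) :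
    (tr M T).1.card + (tr M T).2.card ≤ T.card := by
  show (pos M T).card + (neg M T).card ≤ T.card
  have h1 : (pos M T).card ≤ (T.filter (fun l => l.2.2 = true)).card := by
    refine Finset.card_le_card_of_injOn (fun e => (e.1.val, e.2, true)) ?_ ?_
    · intro e he
      have he' : e ∈ pos M T := he
      unfold pos at he'
      exact Finset.mem_coe.2 (Finset.mem_filter.2 ⟨(Finset.mem_filter.1 he').2, rfl⟩)
    · intro e _ f _ hef
      simp only [Prod.mk.injEq, and_true] at hef
      exact Prod.ext (Subtype.ext hef.1) hef.2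
  have h2 : (neg M T).card ≤ (T.filter (fun l => ¬ l.2.2 = true)).card := by
    refine Finset.card_le_card_of_injOn (fun e => (e.1.val, e.2, false)) ?_ ?_
    · intro e he
      have he' : e ∈ neg M T := he
      unfold neg at he'
      exact Finset.mem_coe.2 (Finset.mem_filter.2 ⟨(Finset.mem_filter.1 he').2, by simp⟩)
    · intro e _ f _ hef
      simp only [Prod.mk.injEq, and_true] at hef
      exact Prod.ext (Subtype.ext hef.1) hef.2
  have h3 := Finset.card_filter_add_card_filter_not (s := T) (fun l => l.2.2 = true)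
  omega

theorem prBD : StBD := by
  intro t m n k P hn hnm hP
  obtain ⟨hT, hlast, hrules⟩ := hP
  -- the first empty line
  have hex : ∃ s : ℕ, ∃ h : s < k + 1, P ⟨s, h⟩ = ∅ := ⟨k, Nat.lt_succ_self k, hlast⟩
  obtain ⟨hs0, hemp⟩ := Nat.find_spec hex
  set s0 : ℕ := Nat.find hex with hs0def
  have hmin : ∀ s : Fin (k + 1), s.val < s0 → P s ≠ ∅ := by
    intro s hs h0
    exact Nat.find_min hex hs ⟨s.isLt, h0⟩
  -- mentioned pigeons
  let B : Finset (Fin (k + 1)) := Finset.univ.filter (fun s => s.val < s0)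
  have hB : ∀ s, s ∈ B ↔ s.val < s0 := fun s => by
    show s ∈ Finset.univ.filter (fun s : Fin (k + 1) => s.val < s0) ↔ _
    rw [Finset.mem_filter]
    exact ⟨fun h => h.2, fun h => ⟨Finset.mem_univ _, h⟩⟩
  let M0 : Finset (Fin m) := B.biUnion (fun s => (P s).biUnion (fun T => T.image (fun l => l.1)))
  have hM0 : ∀ s : Fin (k + 1), s.val < s0 → ∀ T ∈ P s, ∀ l ∈ T, l.1 ∈ M0 := by
    intro s hs T hTs l hl
    refine Finset.mem_biUnion.2 ⟨s, (hB s).2 hs, Finset.mem_biUnion.2 ⟨T, hTs, ?_⟩⟩
    exact Finset.mem_image_of_mem _ hl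
  have hsize1 : (∑ s ∈ B, ∑ T ∈ P s, (T.card : ℝ)) ≤ size P := by
    unfold size
    exact Finset.sum_le_sum_of_subset_of_nonneg (Finset.subset_univ _)
      (fun s _ _ => Finset.sum_nonneg (fun T _ => Nat.cast_nonneg _))
  have hs0size : (s0 : ℝ) ≤ size P := by
    refine le_trans ?_ hsize1
    have hBc : s0 ≤ B.card := by
      have h1 : (Finset.univ : Finset (Fin s0)).card ≤ B.card := by
        refine Finset.card_le_card_of_injOn
          (fun i : Fin s0 => (⟨i.val, lt_trans i.isLt hs0⟩ : Fin (k + 1))) ?_ ?_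
        · intro i _
          exact (hB _).2 i.isLt
        · intro i _ j _ hij
          simp only [Fin.mk.injEq] at hij
          exact Fin.ext hij
      simpa using h1
    have h2 : (B.card : ℝ) ≤ ∑ s ∈ B, ∑ T ∈ P s, (T.card : ℝ) := by
      have h3 : (B.card : ℝ) = ∑ s ∈ B, (1 : ℝ) := by simp
      rw [h3]
      refine Finset.sum_le_sum (fun s hs => ?_)
      have hne : (P s).Nonempty := Finset.nonempty_iff_ne_empty.2 (hmin s ((hB s).1 hs))
      obtain ⟨T, hTs⟩ := hne
      have h4 : (1 : ℝ) ≤ (T.card : ℝ) := by exact_mod_cast (hT s T hTs).1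
      exact le_trans h4 (Finset.single_le_sum (f := fun T : Finset (Fin m × Fin n × Bool) =>
        (T.card : ℝ)) (fun T _ => Nat.cast_nonneg _) hTs)
    exact le_trans (by exact_mod_cast hBc) h2
  -- the board
  have hM0m : M0.card ≤ m := by
    have := Finset.card_le_univ M0
    simpa using this
  obtain ⟨M, hM0M, -, hMc⟩ := Finset.exists_subsuperset_card_eq (Finset.subset_univ M0)
    (le_max_left M0.card n) (by
      rw [Finset.card_univ, Fintype.card_fin]
      exact max_le hM0m hnm.le)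
  have hMO : ∀ s : Fin (k + 1), s.val < s0 → ∀ T ∈ P s, ∀ l ∈ T, l.1 ∈ M :=
    fun s hs T hTs l hl => hM0M (hM0 s hs T hTs l hl)
  have hle : s0 + 1 ≤ k + 1 := hs0
  refine ⟨{i // i ∈ M}, inferInstance, s0 + 1,
    fun s => (P (Fin.castLE hle s)).image (tr M), ?_, ?_, ?_, ?_, ?_, ?_⟩
  · rw [Fintype.card_coe, hMc]
    exact le_max_right _ _
  · rw [Fintype.card_coe, hMc]
    exact max_le hM0m hnm.le
  · push_cast
    linarith
  · intro s T' hT'
    obtain ⟨T, hTs, rfl⟩ := Finset.mem_image.1 hT'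
    exact le_trans (BD_card M T) (hT _ T hTs).2
  · intro s
    set s' : Fin (k + 1) := Fin.castLE hle s with hs'
    have hs'le : s'.val ≤ s0 := Nat.lt_succ_iff.1 s.isLt
    have hlt : P s' ≠ ∅ → s'.val < s0 := by
      intro h
      rcases lt_or_eq_of_le hs'le with h1 | h1
      · exact h1
      · exfalso
        apply h
        have : s' = ⟨s0, hs0⟩ := Fin.ext h1
        rw [this]
        exact hemp
    -- premises
    have hprem : ∀ r : Fin (k + 1), r < s' → ∃ r1 : Fin (s0 + 1), r1 < s ∧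
        Fin.castLE hle r1 = r ∧ r.val < s0 := by
      intro r hr
      have hr' : r.val < s'.val := hr
      have hss : s'.val = s.val := rfl
      exact ⟨⟨r.val, by omega⟩, by
        show r.val < s.val
        omega, rfl, by omega⟩
    rcases hrules s' with ⟨i, hi⟩ | ⟨j, hj⟩ | ⟨i, i', j, hii, h⟩ | ⟨i, j, j', hjj, h⟩ | ⟨i, j, h⟩ |
      ⟨r, hr, h⟩ | ⟨r, r', hr, hr', T, hTr, T', hTr', h⟩ | ⟨r, hr, T, hTr, l, hl, h⟩ |
      ⟨r, r', hr, hr', T, hTr, h1, h2⟩
    · -- pigeon axiom
      left; left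
      have hmem : ∀ j : Fin n, ({(i, j, true)} : Finset (Fin m × Fin n × Bool)) ∈ P s' := by
        intro j
        rw [hi]
        exact Finset.mem_image_of_mem _ (Finset.mem_univ _)
      have hs1 : s'.val < s0 := by
        apply hlt
        intro h0
        have := hmem ⟨0, hn⟩
        rw [h0] at this
        exact absurd this (Finset.notMem_empty _)
      have hiM : i ∈ M := hMO s' hs1 _ (hmem ⟨0, hn⟩) (i, ⟨0, hn⟩, true)
        (Finset.mem_singleton_self _)
      refine ⟨Sum.inl ⟨i, hiM⟩, fun f hf => ?_⟩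
      have hf1 : f.1 = ⟨i, hiM⟩ := hf
      apply mem_tr_single_true
      rw [hf1]
      exact hmem f.2
    · -- hole axiom
      left; left
      refine ⟨Sum.inr j, fun f hf => ?_⟩
      have hf1 : f.2 = j := hf
      apply mem_tr_single_true
      rw [hf1, hj]
      exact Finset.mem_image_of_mem (fun i : Fin m =>
        ({(i, j, true)} : Finset (Fin m × Fin n × Bool))) (Finset.mem_univ _)
    · left; right; left
      have m1 : ({(i, j, false)} : Finset (Fin m × Fin n × Bool)) ∈ P s' := by rw [h]; simp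
      have m2 : ({(i', j, false)} : Finset (Fin m × Fin n × Bool)) ∈ P s' := by rw [h]; simp
      have hs1 : s'.val < s0 := hlt (Finset.ne_empty_of_mem m1)
      have hiM : i ∈ M := hMO s' hs1 _ m1 (i, j, false) (Finset.mem_singleton_self _)
      have hiM' : i' ∈ M := hMO s' hs1 _ m2 (i', j, false) (Finset.mem_singleton_self _)
      refine ⟨(⟨i, hiM⟩, j), (⟨i', hiM'⟩, j), ?_, Or.inr rfl, ?_, ?_⟩
      · intro he
        apply hii
        have := congrArg (fun x : {i // i ∈ M} × Fin n => x.1.val) he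
        exact this
      · exact mem_tr_single_false M (⟨i, hiM⟩, j) _ m1
      · exact mem_tr_single_false M (⟨i', hiM'⟩, j) _ m2
    · left; right; left
      have m1 : ({(i, j, false)} : Finset (Fin m × Fin n × Bool)) ∈ P s' := by rw [h]; simp
      have m2 : ({(i, j', false)} : Finset (Fin m × Fin n × Bool)) ∈ P s' := by rw [h]; simp
      have hs1 : s'.val < s0 := hlt (Finset.ne_empty_of_mem m1)
      have hiM : i ∈ M := hMO s' hs1 _ m1 (i, j, false) (Finset.mem_singleton_self _)
      refine ⟨(⟨i, hiM⟩, j), (⟨i, hiM⟩, j'), ?_, Or.inl rfl, ?_, ?_⟩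
      · intro he
        apply hjj
        have := congrArg (fun x : {i // i ∈ M} × Fin n => x.2) he
        exact this
      · exact mem_tr_single_false M (⟨i, hiM⟩, j) _ m1
      · exact mem_tr_single_false M (⟨i, hiM⟩, j') _ m2
    · left; right; right
      have m1 : ({(i, j, true)} : Finset (Fin m × Fin n × Bool)) ∈ P s' := by rw [h]; simp
      have m2 : ({(i, j, false)} : Finset (Fin m × Fin n × Bool)) ∈ P s' := by rw [h]; simp
      have hs1 : s'.val < s0 := hlt (Finset.ne_empty_of_mem m1)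
      have hiM : i ∈ M := hMO s' hs1 _ m1 (i, j, true) (Finset.mem_singleton_self _)
      exact ⟨(⟨i, hiM⟩, j), mem_tr_single_true M (⟨i, hiM⟩, j) _ m1,
        mem_tr_single_false M (⟨i, hiM⟩, j) _ m2⟩
    · -- weakening
      right
      obtain ⟨r1, hr1, hc, -⟩ := hprem r hr
      refine ⟨r1, r1, hr1, hr1, fun b _ hb _ => ?_⟩
      simp only [hc] at hb
      rw [sat_iff] at hb ⊢
      obtain ⟨T, hTT, hl⟩ := hb
      exact ⟨T, h hTT, hl⟩
    · -- conjunction introduction
      right
      obtain ⟨r1, hr1, hc, -⟩ := hprem r hr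
      obtain ⟨r2, hr2, hc', -⟩ := hprem r' hr'
      refine ⟨r1, r2, hr1, hr2, fun b _ hb hb' => ?_⟩
      simp only [hc] at hb
      simp only [hc'] at hb'
      rw [sat_iff] at hb hb' ⊢
      obtain ⟨T1, hT1, hl1⟩ := hb
      obtain ⟨T2, hT2, hl2⟩ := hb'
      by_cases c1 : T1 = T
      · by_cases c2 : T2 = T'
        · refine ⟨T ∪ T', h (by simp), fun l hl => ?_⟩
          rcases Finset.mem_union.1 hl with hl | hl
          · exact hl1 l (c1 ▸ hl)
          · exact hl2 l (c2 ▸ hl)
        · exact ⟨T2, h (by simp [c2, hT2]), hl2⟩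
      · exact ⟨T1, h (by simp [c1, hT1]), hl1⟩
    · -- conjunction elimination
      right
      obtain ⟨r1, hr1, hc, -⟩ := hprem r hr
      refine ⟨r1, r1, hr1, hr1, fun b _ hb _ => ?_⟩
      simp only [hc] at hb
      rw [sat_iff] at hb ⊢
      obtain ⟨T1, hT1, hl1⟩ := hb
      by_cases c1 : T1 = T
      · refine ⟨{l}, h (by simp), fun l' hl' => ?_⟩
        rw [Finset.mem_singleton] at hl'
        rw [hl']
        exact hl1 l (c1 ▸ hl)
      · exact ⟨T1, h (by simp [c1, hT1]), hl1⟩
    · -- cut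
      right
      obtain ⟨r1, hr1, hc, hrs⟩ := hprem r hr
      obtain ⟨r2, hr2, hc', -⟩ := hprem r' hr'
      refine ⟨r1, r2, hr1, hr2, fun b _ hb hb' => ?_⟩
      simp only [hc] at hb
      simp only [hc'] at hb'
      rw [sat_iff] at hb hb' ⊢
      obtain ⟨T1, hT1, hl1⟩ := hb
      obtain ⟨T2, hT2, hl2⟩ := hb'
      by_cases c1 : T1 = T
      · by_cases c2 : T2 ∈ T.image
            (fun l => ({(l.1, l.2.1, !l.2.2)} : Finset (Fin m × Fin n × Bool)))
        · exfalso
          obtain ⟨l, hl, hlT⟩ := Finset.mem_image.1 c2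
          have hl' : LS M b l := hl1 l (c1 ▸ hl)
          have hl'' : LS M b (l.1, l.2.1, !l.2.2) := hl2 _ (by rw [← hlT]; simp)
          exact ls_neg (hMO r hrs T hTr l hl) hl' hl''
        · exact ⟨T2, h2 (Finset.mem_union_right _ (Finset.mem_sdiff.2 ⟨hT2, c2⟩)), hl2⟩
      · exact ⟨T1, h2 (Finset.mem_union_left _ (Finset.mem_erase.2 ⟨c1, hT1⟩)), hl1⟩
  · refine ⟨⟨s0, Nat.lt_succ_self s0⟩, ?_⟩
    have : Fin.castLE hle ⟨s0, Nat.lt_succ_self s0⟩ = ⟨s0, hs0⟩ := rfl
    simp only [this]
    rw [hemp]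
    exact Finset.image_empty _

end Pool.Agent.Work.MP_f7ef37_lc.WR
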