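import Pool.Agent.Work.MP_f7ef37_lc.WR.Stmts

/-! Item CL: closure of a family of matchings under spread sets. -/

set_option autoImplicit false

open Classical

namespace Pool.Agent.Work.MP_f7ef37_lc.WR

open Pool.Agent.Work.MP_f7ef37_lc.OP

section

variable {I J : Type} [Fintype I] [Fintype J]

/-- the minimal members -/
private noncomputable def CL_min (G : Fm I J) : Fm I J :=
  G.filter (fun S => ∀ S' ∈ G, S' ⊆ S → S' = S)

private theorem CL_exists_min (G : Fm I J) (S : Finset (I × J)) (hS : S ∈ G) :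
    ∃ S' ∈ CL_min G, S' ⊆ S := by
  obtain ⟨S', h1, h2⟩ := Finset.exists_min_image (G.filter (fun T => T ⊆ S)) Finset.card
    ⟨S, Finset.mem_filter.2 ⟨hS, Finset.Subset.refl S⟩⟩
  obtain ⟨h3, h4⟩ := Finset.mem_filter.1 h1
  refine ⟨S', Finset.mem_filter.2 ⟨h3, ?_⟩, h4⟩
  intro T hT hTS
  exact Finset.eq_of_subset_of_card_le hTS
    (h2 T (Finset.mem_filter.2 ⟨hT, hTS.trans h4⟩))

/-- the states -/
private structure CL_State (lam : ℝ) (t : ℕ) (F G : Fm I J) (K : Finset (Fm I J)) : Prop where
  sub : F ⊆ G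
  mem : ∀ S ∈ G, S.card ≤ t ∧ ∃ T ∈ F, S ⊆ T
  crd : K.card + F.card ≤ G.card
  spr : ∀ B ∈ K, ∃ b, 1 ≤ b ∧ b ≤ t ∧ Spread lam b B
  cov : ∀ ρ : Finset (I × J), (∀ B ∈ K, ∃ S ∈ B, S ⊆ ρ) →
      ∀ S ∈ G, ∃ T ∈ F, ∀ e ∈ T, e ∈ S ∨ e ∈ ρ

private theorem CL_step (lam : ℝ) (t : ℕ) (F G : Fm I J) (K : Finset (Fm I J)) (hl : 0 < lam)
    (hF : ∀ S ∈ F, S.card ≤ t ∧ Mat S) (h : CL_State lam t F G K)
    (hs : ¬ Small lam t (CL_min G)) :
    ∃ (G' : Fm I J) (K' : Finset (Fm I J)), CL_State lam t F G' K' ∧ G.card < G'.card := by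
  unfold Small at hs
  push Not at hs
  obtain ⟨s, hst, C0, hC0, hdC0⟩ := hs
  obtain ⟨A, hA1, hA2⟩ := Finset.exists_max_image
    (Finset.univ.filter (fun C : Finset (I × J) => C.card ≤ s ∧
      lam ^ (s - C.card) < (dg (lay (CL_min G) s) C : ℝ))) Finset.card
    ⟨C0, Finset.mem_filter.2 ⟨Finset.mem_univ _, hC0, hdC0⟩⟩
  obtain ⟨-, hAs, hAd⟩ := Finset.mem_filter.1 hA1
  have hmax : ∀ C : Finset (I × J), C.card ≤ s → A.card < C.card →
      (dg (lay (CL_min G) s) C : ℝ) ≤ lam ^ (s - C.card) := by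
    intro C hC hAC
    by_contra hcon
    push Not at hcon
    exact absurd (hA2 C (Finset.mem_filter.2 ⟨Finset.mem_univ _, hC, hcon⟩)) (not_le.2 hAC)
  have hlay : ∀ S, S ∈ lay (CL_min G) s ↔ S ∈ CL_min G ∧ S.card = s := fun S =>
    Finset.mem_filter
  have hlt : A.card < s := by
    rcases Nat.lt_or_ge A.card s with h1 | h1
    · exact h1
    · exfalso
      have h2 : A.card = s := le_antisymm hAs h1
      rw [h2, Nat.sub_self, pow_zero] at hAd
      have h3 : dg (lay (CL_min G) s) A ≤ 1 := by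
        unfold dg
        apply Finset.card_le_one.2
        intro S hS S' hS'
        obtain ⟨h4, h5⟩ := Finset.mem_filter.1 hS
        obtain ⟨h6, h7⟩ := Finset.mem_filter.1 hS'
        have h8 : A = S := Finset.eq_of_subset_of_card_le h5
          (by rw [((hlay S).1 h4).2, h2])
        have h9 : A = S' := Finset.eq_of_subset_of_card_le h7
          (by rw [((hlay S').1 h6).2, h2])
        rw [← h8, ← h9]
      have h4 : (dg (lay (CL_min G) s) A : ℝ) ≤ 1 := by exact_mod_cast h3
      linarith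
  -- the family of the differences
  let D : Fm I J := (lay (CL_min G) s).filter (fun S => A ⊆ S)
  let B : Fm I J := D.image (fun S => S \ A)
  have hD : ∀ S, S ∈ D ↔ S ∈ lay (CL_min G) s ∧ A ⊆ S := fun S => Finset.mem_filter
  have hDcard : D.card = dg (lay (CL_min G) s) A := rfl
  have hBcard : B.card = D.card := by
    apply Finset.card_image_of_injOn
    intro S hS S' hS' hSS
    have h1 := ((hD S).1 hS).2
    have h2 := ((hD S').1 hS').2
    have h3 : S \ A = S' \ A := hSS
    rw [← Finset.sdiff_union_of_subset h1, ← Finset.sdiff_union_of_subset h2, h3]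
  obtain ⟨S0, hS0⟩ : D.Nonempty := by
    rw [← Finset.card_pos, hDcard]
    have h1 : (0 : ℝ) < (dg (lay (CL_min G) s) A : ℝ) := lt_trans (pow_pos hl _) hAd
    exact_mod_cast h1
  have hS0D := (hD S0).1 hS0
  have hS0l := (hlay S0).1 hS0D.1
  have hS0m := Finset.mem_filter.1 hS0l.1
  have hAG : A ∉ G := by
    intro h1
    have h2 := hS0m.2 A h1 hS0D.2
    rw [h2] at hlt
    exact absurd hS0l.2 (ne_of_lt hlt)
  have hDG : ∀ S ∈ D, S ∈ G := fun S hS =>
    (Finset.mem_filter.1 ((hlay S).1 ((hD S).1 hS).1).1).1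
  have hspread : Spread lam (s - A.card) B := by
    refine ⟨?_, ?_, ?_⟩
    · intro R hR
      obtain ⟨S, hS, rfl⟩ := Finset.mem_image.1 hR
      have h1 := (hD S).1 hS
      refine ⟨?_, ?_⟩
      · rw [Finset.card_sdiff_of_subset h1.2, ((hlay S).1 h1.1).2]
      · obtain ⟨T, hT, hST⟩ := (h.mem S (hDG S hS)).2
        intro e he f hf
        exact (hF T hT).2 e (hST (Finset.mem_sdiff.1 he).1) f (hST (Finset.mem_sdiff.1 hf).1)
    · rw [hBcard, hDcard]
      exact le_of_lt hAd
    · intro C hC hCb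
      by_cases hAC : ∃ e ∈ C, e ∈ A
      · obtain ⟨e, he, heA⟩ := hAC
        have h1 : dg B C = 0 := by
          unfold dg
          rw [Finset.card_eq_zero, Finset.filter_eq_empty_iff]
          intro R hR hCR
          obtain ⟨S, hS, rfl⟩ := Finset.mem_image.1 hR
          exact (Finset.mem_sdiff.1 (hCR he)).2 heA
        rw [h1, Nat.cast_zero]
        exact le_of_lt (pow_pos hl _)
      · push Not at hAC
        have hdis : Disjoint A C := by
          rw [Finset.disjoint_left]
          intro e heA heC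
          exact hAC e heC heA
        have hcard : (A ∪ C).card = A.card + C.card := Finset.card_union_of_disjoint hdis
        have hCpos : 0 < C.card := Finset.card_pos.2 hC
        have h1 : dg B C ≤ dg (lay (CL_min G) s) (A ∪ C) := by
          unfold dg
          refine le_trans (Finset.card_le_card ?_) (Finset.card_image_le (f := fun S => S \ A))
          intro R hR
          obtain ⟨h2, h3⟩ := Finset.mem_filter.1 hR
          obtain ⟨S, hS, rfl⟩ := Finset.mem_image.1 h2
          refine Finset.mem_image.2 ⟨S, Finset.mem_filter.2 ⟨((hD S).1 hS).1, ?_⟩, rfl⟩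
          exact Finset.union_subset ((hD S).1 hS).2
            (h3.trans Finset.sdiff_subset)
        have h2 := hmax (A ∪ C) (by rw [hcard]; omega) (by rw [hcard]; omega)
        have h3 : s - (A ∪ C).card = s - A.card - C.card := by rw [hcard]; omega
        rw [h3] at h2
        refine le_trans ?_ h2
        exact_mod_cast h1
  refine ⟨insert A G, insert B K, ⟨?_, ?_, ?_, ?_, ?_⟩, ?_⟩
  · exact h.sub.trans (Finset.subset_insert A G)
  · intro S hS
    rcases Finset.mem_insert.1 hS with rfl | hS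
    · obtain ⟨T, hT, hST⟩ := (h.mem S0 hS0m.1).2
      exact ⟨le_trans hAs hst, T, hT, hS0D.2.trans hST⟩
    · exact h.mem S hS
  · rw [Finset.card_insert_of_notMem hAG]
    have h1 := Finset.card_insert_le B K
    have h2 := h.crd
    omega
  · intro B' hB'
    rcases Finset.mem_insert.1 hB' with rfl | hB'
    · exact ⟨s - A.card, by omega, by omega, hspread⟩
    · exact h.spr B' hB'
  · intro ρ hρ S hS
    have h1 := h.cov ρ (fun B' hB' => hρ B' (Finset.mem_insert_of_mem hB'))
    rcases Finset.mem_insert.1 hS with rfl | hS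
    · obtain ⟨R, hR, hRρ⟩ := hρ B (Finset.mem_insert_self B K)
      obtain ⟨S1, hS1, rfl⟩ := Finset.mem_image.1 hR
      obtain ⟨T, hT, hTe⟩ := h1 S1 (hDG S1 hS1)
      refine ⟨T, hT, fun e he => ?_⟩
      rcases hTe e he with h2 | h2
      · by_cases h3 : e ∈ S
        · exact Or.inl h3
        · exact Or.inr (hRρ (Finset.mem_sdiff.2 ⟨h2, h3⟩))
      · exact Or.inr h2
    · exact h1 S hS
  · rw [Finset.card_insert_of_notMem hAG]
    exact Nat.lt_succ_self _

end

theorem prCL : StCL := by
  intro hCN I J _ _ lam t F hl hF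
  have hstart : CL_State lam t F F ∅ := by
    refine ⟨Finset.Subset.refl F, fun S hS => ⟨(hF S hS).1, S, hS, Finset.Subset.refl S⟩, ?_,
      fun B hB => absurd hB (Finset.notMem_empty B), ?_⟩
    · rw [Finset.card_empty, zero_add]
    · intro ρ _ S hS
      exact ⟨S, hS, fun e he => Or.inl he⟩
  have hex : ∃ (G : Fm I J) (K : Finset (Fm I J)), CL_State lam t F G K ∧
      Small lam t (CL_min G) := by
    by_contra hcon
    push Not at hcon
    have hind : ∀ n : ℕ, ∃ (G : Fm I J) (K : Finset (Fm I J)), CL_State lam t F G K ∧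
        n ≤ G.card := by
      intro n
      induction n with
      | zero => exact ⟨F, ∅, hstart, Nat.zero_le _⟩
      | succ n ih =>
        obtain ⟨G, K, hGK, hn⟩ := ih
        obtain ⟨G', K', h1, h2⟩ := CL_step lam t F G K hl hF hGK (hcon G K hGK)
        exact ⟨G', K', h1, by omega⟩
    obtain ⟨G, K, -, hn⟩ := hind (Fintype.card (Finset (I × J)) + 1)
    have h1 : G.card ≤ Fintype.card (Finset (I × J)) := Finset.card_le_univ G
    omega
  obtain ⟨G, K, hGK, hsm⟩ := hex
  refine ⟨CL_min G, K, ?_, hsm, ?_, hGK.spr, ?_, ?_⟩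
  · intro S hS
    exact (hGK.mem S (Finset.mem_filter.1 hS).1).1
  · have h1 : G.card ≤ (Finset.univ.filter (fun S : Finset (I × J) => S.card ≤ t)).card := by
      apply Finset.card_le_card
      intro S hS
      exact Finset.mem_filter.2 ⟨Finset.mem_univ _, (hGK.mem S hS).1⟩
    have h2 := hCN (I × J) t
    have h3 := hGK.crd
    have h4 : K.card ≤ (Fintype.card (I × J) + 1) ^ t := by omega
    exact_mod_cast h4
  · intro S hS
    exact CL_exists_min G S (hGK.sub hS)
  · intro ρ hρ S hS
    exact hGK.cov ρ hρ S (Finset.mem_filter.1 hS).1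

end Pool.Agent.Work.MP_f7ef37_lc.WR
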