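import Pool.Agent.Work.MP_f7ef37_lc.WR.Stmts

set_option autoImplicit false

/-! # Block WR, item CN: the number of the subsets with at most `t` elements -/

open Classical

namespace Pool.Agent.Work.MP_f7ef37_lc.WR

open Pool.Agent.Work.MP_f7ef37_lc.OP

/-- item CN -/
theorem prCN : StCN := by
  intro E _ t
  induction t with
  | zero =>
    rw [pow_zero, Finset.card_le_one]
    intro a ha b hb
    have ha' : a.card = 0 := Nat.le_zero.mp (Finset.mem_filter.mp ha).2
    have hb' : b.card = 0 := Nat.le_zero.mp (Finset.mem_filter.mp hb).2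
    rw [Finset.card_eq_zero.mp ha', Finset.card_eq_zero.mp hb']
  | succ t ih =>
    obtain ⟨A, hA⟩ : ∃ A : Finset (Finset E),
        A = Finset.univ.filter (fun S : Finset E => S.card ≤ t) := ⟨_, rfl⟩
    rw [← hA] at ih
    have hsub : Finset.univ.filter (fun S : Finset E => S.card ≤ t + 1) ⊆
        {∅} ∪ ((Finset.univ : Finset E) ×ˢ A).image (fun p => insert p.1 p.2) := by
      intro S hS
      have hS' : S.card ≤ t + 1 := (Finset.mem_filter.mp hS).2
      rcases S.eq_empty_or_nonempty with h | ⟨e, he⟩
      · rw [Finset.mem_union]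
        exact Or.inl (Finset.mem_singleton.mpr h)
      · rw [Finset.mem_union]
        right
        rw [Finset.mem_image]
        refine ⟨(e, S.erase e), ?_, Finset.insert_erase he⟩
        rw [Finset.mem_product]
        refine ⟨Finset.mem_univ _, ?_⟩
        rw [hA, Finset.mem_filter]
        refine ⟨Finset.mem_univ _, ?_⟩
        rw [Finset.card_erase_of_mem he]
        omega
    have h1 := Finset.card_le_card hsub
    have h2 := Finset.card_union_le ({∅} : Finset (Finset E))
      (((Finset.univ : Finset E) ×ˢ A).image (fun p => insert p.1 p.2))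
    have h3 : (((Finset.univ : Finset E) ×ˢ A).image (fun p => insert p.1 p.2)).card ≤
        Fintype.card E * (Fintype.card E + 1) ^ t := by
      refine Finset.card_image_le.trans ?_
      rw [Finset.card_product, Finset.card_univ]
      exact Nat.mul_le_mul_left _ ih
    rw [Finset.card_singleton] at h2
    have h4 : 1 ≤ (Fintype.card E + 1) ^ t := Nat.one_le_pow _ _ (Nat.succ_pos _)
    calc _ ≤ 1 + Fintype.card E * (Fintype.card E + 1) ^ t := by omega
      _ ≤ (Fintype.card E + 1) ^ t + Fintype.card E * (Fintype.card E + 1) ^ t := by omega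
      _ = (Fintype.card E + 1) ^ (t + 1) := by ring

end Pool.Agent.Work.MP_f7ef37_lc.WR
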