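import Pool.Agent.Work.MP_f7ef37_lc.WR.Stmts

/-!
# Block [f7ef37 WR], item EM: the exponential moment
-/

set_option autoImplicit false

open Classical

namespace Pool.Agent.Work.MP_f7ef37_lc.WR

open Pool.Agent.Work.MP_f7ef37_lc.OP

private theorem EM_exp (x : ℝ) (h0 : 0 ≤ x) (h1 : x ≤ 1) : Real.exp x ≤ 1 + 2 * x := by
  have h := Real.abs_exp_sub_one_sub_id_le (show |x| ≤ 1 by rwa [abs_of_nonneg h0])
  have h2 := (abs_le.1 h).2
  nlinarith

private theorem EM_one (E : Type) [Fintype E] [Nonempty E] (w : E → ℝ) (a μ : ℝ) (ha : 0 < a)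
    (hw : ∀ e, 0 ≤ w e ∧ w e ≤ a) (hμ : ex w ≤ μ) :
    ex (fun e => Real.exp (1 / a * w e)) ≤ Real.exp (2 * μ / a) := by
  have h1 : ex (fun e => Real.exp (1 / a * w e)) ≤ ex (fun e => 1 + (2 / a) * w e) := by
    refine ex_mono fun e => ?_
    have h2 := EM_exp (1 / a * w e) (mul_nonneg (by positivity) (hw e).1) (by
      rw [one_div, inv_mul_le_iff₀ ha, mul_one]
      exact (hw e).2)
    have e2 : 1 + 2 * (1 / a * w e) = 1 + (2 / a) * w e := by ring
    rwa [e2] at h2
  rw [ex_add, ex_const, ex_mul_left] at h1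
  have h3 : 1 + 2 / a * ex w ≤ 1 + 2 * μ / a := by
    have : 2 / a * ex w ≤ 2 / a * μ := mul_le_mul_of_nonneg_left hμ (by positivity)
    have e3 : 2 / a * μ = 2 * μ / a := by ring
    linarith
  refine h1.trans (h3.trans ?_)
  rw [add_comm]
  exact Real.add_one_le_exp _

private theorem EM_inst {Ω : Type} (i1 i2 : Fintype Ω) (f : Ω → ℝ) :
    @ex Ω i1 f = @ex Ω i2 f := by
  rw [Subsingleton.elim i1 i2]

private theorem EM_pi (Ω : Type) [Fintype Ω] (N : ℕ) (f : Fin N → Ω → ℝ) :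
    ex (fun ω : Fin N → Ω => ∏ k, f k (ω k)) = ∏ k, ex (f k) := by
  have h := ex_pi_prod (κ := Fin N) f
  exact (EM_inst _ _ _).trans h

private theorem EM_pow (E : Type) [Fintype E] [Nonempty E] (R q : ℕ) (w : E → ℝ) (a : ℝ) :
    ex (fun ω : Fin R → Fin q → E => Real.exp (1 / a * ∑ r, ∑ l, w (ω r l))) =
      ex (fun e => Real.exp (1 / a * w e)) ^ (R * q) := by
  have e0 : (fun ω : Fin R → Fin q → E => Real.exp (1 / a * ∑ r, ∑ l, w (ω r l))) =
      fun ω : Fin R → Fin q → E => ∏ r : Fin R, ∏ l : Fin q, Real.exp (1 / a * w (ω r l)) := by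
    funext ω
    rw [Finset.mul_sum, Real.exp_sum]
    refine Finset.prod_congr rfl fun r _ => ?_
    rw [Finset.mul_sum, Real.exp_sum]
  have e1 := EM_pi (Fin q → E) R (fun _ η => ∏ l : Fin q, Real.exp (1 / a * w (η l)))
  have e2 := EM_pi E q (fun _ e => Real.exp (1 / a * w e))
  rw [e0, e1, e2, Finset.prod_const, Finset.prod_const, Finset.card_univ, Finset.card_univ,
    Fintype.card_fin, Fintype.card_fin, ← pow_mul, mul_comm q R]

theorem prEM : StEM := by
  intro E _ _ R q w a μ ha hw hμ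
  have h1 := EM_one E w a μ ha hw hμ
  have h0 : 0 ≤ ex (fun e => Real.exp (1 / a * w e)) := ex_nonneg fun e => (Real.exp_pos _).le
  have h2 := markov (fun ω : Fin R → Fin q → E => Real.exp (1 / a * ∑ r, ∑ l, w (ω r l)))
    (Real.exp (1 / (2 * a))) (Real.exp_pos _) (fun ω => (Real.exp_pos _).le)
  refine (pr_mono fun ω hω => ?_).trans (h2.trans ?_)
  · show Real.exp (1 / (2 * a)) ≤ Real.exp (1 / a * ∑ r, ∑ l, w (ω r l))
    rw [Real.exp_le_exp]
    have e : 1 / (2 * a) = 1 / a * (1 / 2) := by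
      field_simp
    rw [e]
    exact mul_le_mul_of_nonneg_left hω.le (by positivity)
  · rw [EM_pow, Real.exp_sub]
    refine div_le_div_of_nonneg_right ?_ (Real.exp_pos _).le
    calc ex (fun e => Real.exp (1 / a * w e)) ^ (R * q)
        ≤ Real.exp (2 * μ / a) ^ (R * q) := pow_le_pow_left₀ h0 h1 _
      _ = Real.exp (2 * ((R : ℝ) * q) * μ / a) := by
          rw [← Real.exp_nat_mul]
          congr 1
          push_cast
          ring

end Pool.Agent.Work.MP_f7ef37_lc.WR
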