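import Pool.Agent.Work.MP_f7ef37_lc.WR.Stmts
import Pool.Agent.Work.MP_f7ef37_lc.WR.Basic

/-!
# Item FA of the block [f7ef37 WR]: one round, lower bound
-/

set_option autoImplicit false

open Classical

namespace Pool.Agent.Work.MP_f7ef37_lc.WR

open Pool.Agent.Work.MP_f7ef37_lc.OP

/-- The event that the edges of `B` are the edges of the slots `f e`, and that no other slot meets
an edge of `B`. -/
def FA_ev {I J : Type} {q : ℕ} (B : Finset (I × J)) (f : {x // x ∈ B} ↪ Fin q)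
    (η : Fin q → I × J) : Prop :=
  (∀ e : {x // x ∈ B}, η (f e) = e) ∧ ∀ l, l ∉ Set.range f → ∀ e ∈ B, ¬ Adj e (η l)

theorem FA_sub {I J : Type} [Fintype I] [Fintype J] {q : ℕ} (Z : Set (I ⊕ J))
    (B : Finset (I × J)) (hM : Mat B) (hZ : ∀ e ∈ B, ∀ v ∈ Z, ¬ Inc v e)
    (f : {x // x ∈ B} ↪ Fin q) (η : Fin q → I × J) (h : FA_ev B f η) : B ⊆ val Z η := by
  intro e he
  unfold val
  rw [Finset.mem_filter]
  refine ⟨Finset.mem_univ _, f ⟨e, he⟩, h.1 ⟨e, he⟩, hZ e he, fun l hl => ?_⟩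
  by_cases hr : l ∈ Set.range f
  · obtain ⟨e', rfl⟩ := hr
    rw [h.1 e']
    intro hA
    apply hl
    congr 1
    exact Subtype.ext (hM e he e' e'.2 hA).symm
  · exact h.2 l hr e he

theorem FA_uniq {I J : Type} {q : ℕ} (B : Finset (I × J)) (f f' : {x // x ∈ B} ↪ Fin q)
    (η : Fin q → I × J) (h : FA_ev B f η) (h' : FA_ev B f' η) : f = f' := by
  ext e
  by_cases hr : f' e ∈ Set.range f
  · obtain ⟨e', he'⟩ := hr
    have h1 : (e' : I × J) = e := by
      rw [← h.1 e', he', h'.1 e]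
    have h2 : e' = e := Subtype.ext h1
    rw [← he', h2]
  · exact absurd (Or.inl rfl) (by
      have := h.2 (f' e) hr e e.2
      rw [h'.1 e] at this
      exact this)

theorem FA_pr_eq {E : Type} [Fintype E] (a : E) :
    pr (fun x : E => x = a) = 1 / (Fintype.card E : ℝ) := by
  rw [pr_eq_card]
  congr 1
  norm_cast
  rw [Finset.card_eq_one]
  exact ⟨a, by ext; simp⟩

theorem FA_pr_le {E : Type} [Fintype E] (a : E) :
    pr (fun x : E => a = x) ≤ 1 / (Fintype.card E : ℝ) := by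
  rw [← FA_pr_eq a]
  exact pr_mono fun x hx => hx.symm

theorem FA_inst {Ω : Type} (i j : Fintype Ω) (P : Ω → Prop) : @pr Ω i P = @pr Ω j P := by
  rw [Subsingleton.elim i j]

/-- The probability of one event. -/
theorem FA_one {I J : Type} [Fintype I] [Fintype J] {q b : ℕ} (B : Finset (I × J))
    (hB : B.card = b) (f : {x // x ∈ B} ↪ Fin q) :
    (1 / (Fintype.card (I × J) : ℝ)) ^ b *
      pr (fun x : I × J => ∀ e ∈ B, ¬ Adj e x) ^ (q - b) ≤
      pr (fun η : Fin q → I × J => FA_ev B f η) := by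
  have h1 : pr (fun η : Fin q → I × J => FA_ev B f η) =
      pr (fun η : Fin q → I × J => ∀ k, ((∀ e : {x // x ∈ B}, f e = k → η k = e) ∧
        (k ∉ Set.range f → ∀ e ∈ B, ¬ Adj e (η k)))) := by
    congr 1
    funext η
    apply propext
    constructor
    · rintro ⟨h2, h3⟩ k
      exact ⟨fun e he => he ▸ h2 e, fun hk => h3 k hk⟩
    · intro h2
      exact ⟨fun e => (h2 (f e)).1 e rfl, fun l hl => (h2 l).2 hl⟩
  have h1' : pr (fun η : Fin q → I × J => ∀ k, ((∀ e : {x // x ∈ B}, f e = k → η k = e) ∧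
        (k ∉ Set.range f → ∀ e ∈ B, ¬ Adj e (η k)))) =
      ∏ k : Fin q, pr (fun x : I × J => (∀ e : {x // x ∈ B}, f e = k → x = e) ∧
        (k ∉ Set.range f → ∀ e ∈ B, ¬ Adj e x)) := by
    have h0 := pr_pi (Ω := I × J) (κ := Fin q) (fun k x =>
      (∀ e : {x // x ∈ B}, f e = k → x = e) ∧ (k ∉ Set.range f → ∀ e ∈ B, ¬ Adj e x))
    exact (FA_inst _ _ _).trans h0
  rw [h1, h1']
  have h2 : ∏ k : Fin q, (if k ∈ Finset.univ.map f then 1 / (Fintype.card (I × J) : ℝ)
      else pr (fun x : I × J => ∀ e ∈ B, ¬ Adj e x)) =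
      (1 / (Fintype.card (I × J) : ℝ)) ^ b *
        pr (fun x : I × J => ∀ e ∈ B, ¬ Adj e x) ^ (q - b) := by
    rw [Finset.prod_ite, Finset.prod_const, Finset.prod_const]
    have h3 : (Finset.univ.filter (fun k => k ∈ Finset.univ.map f)).card = b := by
      rw [Finset.filter_mem_eq_inter, Finset.univ_inter, Finset.card_map, Finset.card_univ,
        Fintype.card_coe, hB]
    have h4 : (Finset.univ.filter (fun k => ¬ k ∈ Finset.univ.map f)).card = q - b := by
      rw [Finset.filter_not, Finset.card_sdiff_of_subset (Finset.filter_subset _ _), h3,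
        Finset.card_univ, Fintype.card_fin]
    rw [h3, h4]
  rw [← h2]
  refine Finset.prod_le_prod (fun k _ => ?_) (fun k _ => ?_)
  · split_ifs
    · positivity
    · exact pr_nonneg _
  · split_ifs with hk
    · obtain ⟨e, -, he⟩ := Finset.mem_map.mp hk
      rw [← FA_pr_eq (e : I × J)]
      refine pr_mono fun x hx => ⟨fun e' he' => ?_, fun hr => absurd ⟨e, he⟩ hr⟩
      have : e' = e := f.injective (he'.trans he.symm)
      rw [hx, this]
    · refine pr_mono fun x hx => ⟨fun e' he' => ?_, fun _ => hx⟩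
      exact absurd (Finset.mem_map.mpr ⟨e', Finset.mem_univ _, he'⟩) hk

/-- The events are disjoint. -/
theorem FA_sum {I J : Type} [Fintype I] [Fintype J] {q : ℕ} (Z : Set (I ⊕ J))
    (B : Finset (I × J)) (hM : Mat B) (hZ : ∀ e ∈ B, ∀ v ∈ Z, ¬ Inc v e) :
    ∑ f : {x // x ∈ B} ↪ Fin q, pr (fun η : Fin q → I × J => FA_ev B f η) ≤
      pr (fun η : Fin q → I × J => B ⊆ val Z η) := by
  unfold pr
  rw [← ex_sum]
  refine ex_mono fun η => ?_
  by_cases h : ∃ f : {x // x ∈ B} ↪ Fin q, FA_ev B f η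
  · obtain ⟨f, hf⟩ := h
    rw [if_pos (FA_sub Z B hM hZ f η hf), Finset.sum_eq_single f]
    · rw [if_pos hf]
    · intro f' _ hne
      rw [if_neg]
      exact fun hf' => hne (FA_uniq B f' f η hf' hf)
    · intro h'
      exact absurd (Finset.mem_univ _) h'
  · rw [Finset.sum_eq_zero]
    · split_ifs <;> norm_num
    · intro f _
      rw [if_neg fun hf => h ⟨f, hf⟩]

/-- The probability that an edge does not meet `B`. -/
theorem FA_p0 {I J : Type} [Fintype I] [Fintype J] {b : ℕ} (B : Finset (I × J))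
    (hB : B.card = b) (hJ : 1 ≤ Fintype.card J) (hIJ : Fintype.card J ≤ Fintype.card I) :
    1 + -(2 * (b : ℝ) / Fintype.card J) ≤ pr (fun x : I × J => ∀ e ∈ B, ¬ Adj e x) := by
  have : Nonempty J := Fintype.card_pos_iff.mp hJ
  have : Nonempty I := Fintype.card_pos_iff.mp (by omega)
  have hJ0 : (0 : ℝ) < Fintype.card J := by exact_mod_cast hJ
  have hI0 : (Fintype.card J : ℝ) ≤ Fintype.card I := by exact_mod_cast hIJ
  have h1 : (1 : ℝ) ≤ pr (fun x : I × J => ∀ e ∈ B, ¬ Adj e x) +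
      pr (fun x : I × J => ∃ e ∈ B, Adj e x) := by
    have h2 : (1 : ℝ) = pr (fun _ : I × J => True) := by
      unfold pr
      simp only [if_true]
      exact (ex_const (Ω := I × J) 1).symm
    rw [h2]
    refine le_trans (pr_mono fun x _ => ?_) (pr_or_le _ _)
    by_cases hx : ∃ e ∈ B, Adj e x
    · exact Or.inr hx
    · push Not at hx
      exact Or.inl hx
  have h3 : pr (fun x : I × J => ∃ e ∈ B, Adj e x) ≤ 2 * (b : ℝ) / Fintype.card J := by
    refine (pr_exists_le B (fun e x => Adj e x)).trans ?_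
    have h4 : ∀ e ∈ B, pr (fun x : I × J => Adj e x) ≤ 2 / (Fintype.card J : ℝ) := by
      intro e _
      have h5 : pr (fun x : I × J => Adj e x) ≤
          pr (fun x : I × J => e.1 = x.1) + pr (fun x : I × J => e.2 = x.2) :=
        pr_or_le (fun x : I × J => e.1 = x.1) (fun x : I × J => e.2 = x.2)
      have h6 : pr (fun x : I × J => e.1 = x.1) ≤ 1 / (Fintype.card I : ℝ) := by
        rw [pr_fst (Ω := I) (Ω' := J) (fun i => e.1 = i)]
        exact FA_pr_le e.1
      have h7 : pr (fun x : I × J => e.2 = x.2) ≤ 1 / (Fintype.card J : ℝ) :=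
        pr_prod_le (Ω := I) (Ω' := J) (fun x => e.2 = x.2) _ (by positivity)
          (fun _ => FA_pr_le e.2)
      have h8 : 1 / (Fintype.card I : ℝ) ≤ 1 / (Fintype.card J : ℝ) :=
        one_div_le_one_div_of_le hJ0 hI0
      calc pr (fun x : I × J => Adj e x) ≤ 1 / (Fintype.card J : ℝ) + 1 / (Fintype.card J : ℝ) := by
            linarith
        _ = 2 / (Fintype.card J : ℝ) := by ring
    refine (Finset.sum_le_sum h4).trans ?_
    rw [Finset.sum_const, hB, nsmul_eq_mul]
    exact le_of_eq (by ring)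
  linarith

theorem prFA : StFA := by
  intro I J _ _ q b Z B hM hB hZ hJ hIJ h8 hbq
  have hJ0 : (0 : ℝ) < Fintype.card J := by exact_mod_cast hJ
  have h1 := FA_sum (q := q) Z B hM hZ
  refine le_trans ?_ h1
  have h2 : ∑ _f : {x // x ∈ B} ↪ Fin q, (1 / (Fintype.card (I × J) : ℝ)) ^ b *
      pr (fun x : I × J => ∀ e ∈ B, ¬ Adj e x) ^ (q - b) ≤
      ∑ f : {x // x ∈ B} ↪ Fin q, pr (fun η : Fin q → I × J => FA_ev B f η) :=
    Finset.sum_le_sum fun f _ => FA_one B hB f
  refine le_trans ?_ h2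
  rw [Finset.sum_const, Finset.card_univ, Fintype.card_embedding_eq, Fintype.card_fin,
    Fintype.card_coe, hB, nsmul_eq_mul]
  have hb8 : 8 * b ≤ Fintype.card J := by
    rcases Nat.eq_zero_or_pos b with h | h
    · subst h; omega
    · have : 8 * b * 1 ≤ 8 * b * q := Nat.mul_le_mul_left _ (by omega)
      omega
  have hb8' : 8 * (b : ℝ) ≤ Fintype.card J := by exact_mod_cast hb8
  have h8' : 8 * (b : ℝ) * q ≤ Fintype.card J := by exact_mod_cast h8
  have hx0 : 2 * (b : ℝ) / Fintype.card J ≤ 1 / 4 := by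
    rw [div_le_iff₀ hJ0]
    linarith
  have hx1 : 0 ≤ 2 * (b : ℝ) / Fintype.card J := by positivity
  have h3 : (3 / 4 : ℝ) ≤ pr (fun x : I × J => ∀ e ∈ B, ¬ Adj e x) ^ (q - b) := by
    have h4 := FA_p0 B hB hJ hIJ
    have h5 := one_add_mul_le_pow (a := -(2 * (b : ℝ) / Fintype.card J)) (by linarith) (q - b)
    have h6 : (1 + -(2 * (b : ℝ) / Fintype.card J)) ^ (q - b) ≤
        pr (fun x : I × J => ∀ e ∈ B, ¬ Adj e x) ^ (q - b) :=
      pow_le_pow_left₀ (by linarith) h4 _
    refine le_trans ?_ (h5.trans h6)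
    have h7 : ((q - b : ℕ) : ℝ) ≤ q := by exact_mod_cast Nat.sub_le q b
    have h9 : ((q - b : ℕ) : ℝ) * (2 * (b : ℝ) / Fintype.card J) ≤ 1 / 4 := by
      calc ((q - b : ℕ) : ℝ) * (2 * (b : ℝ) / Fintype.card J)
          ≤ q * (2 * (b : ℝ) / Fintype.card J) := mul_le_mul_of_nonneg_right h7 hx1
        _ = (2 * b * q) / Fintype.card J := by ring
        _ ≤ 1 / 4 := by
          rw [div_le_iff₀ hJ0]
          linarith
    linarith
  have h10 : (0 : ℝ) ≤ (q.descFactorial b : ℝ) / (Fintype.card (I × J) : ℝ) ^ b := by positivity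
  calc 3 / 4 * ((q.descFactorial b : ℝ) / (Fintype.card (I × J) : ℝ) ^ b)
      ≤ pr (fun x : I × J => ∀ e ∈ B, ¬ Adj e x) ^ (q - b) *
        ((q.descFactorial b : ℝ) / (Fintype.card (I × J) : ℝ) ^ b) :=
        mul_le_mul_of_nonneg_right h3 h10
    _ = (q.descFactorial b : ℝ) * ((1 / (Fintype.card (I × J) : ℝ)) ^ b *
        pr (fun x : I × J => ∀ e ∈ B, ¬ Adj e x) ^ (q - b)) := by
        rw [one_div, inv_pow]
        ring

end Pool.Agent.Work.MP_f7ef37_lc.WR
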