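import Pool.Agent.Work.MP_f7ef37_lc.WR.Stmts

/-!
# Item FB of the block [f7ef37 WR]
-/

set_option autoImplicit false

open Classical

namespace Pool.Agent.Work.MP_f7ef37_lc.WR

open Pool.Agent.Work.MP_f7ef37_lc.OP

private theorem FB_one {E : Type} [Fintype E] (e : E) :
    pr (fun x : E => x = e) = 1 / (Fintype.card E : ℝ) := by
  rw [pr_eq_card]
  have h : (Finset.univ.filter (fun x : E => x = e)) = {e} := by
    ext x
    simp
  rw [h, Finset.card_singleton, Nat.cast_one]

private theorem FB_inst {Ω : Type} (i1 i2 : Fintype Ω) (P : Ω → Prop) :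
    @pr Ω i1 P = @pr Ω i2 P := by
  rw [Subsingleton.elim i1 i2]

private theorem FB_emb {E : Type} [Fintype E] [Nonempty E] (q : ℕ) (U : Finset E)
    (f : U ↪ Fin q) :
    pr (fun η : Fin q → E => ∀ e : U, η (f e) = (e : E)) ≤
      (1 / (Fintype.card E : ℝ)) ^ U.card := by
  have h1 : pr (fun η : Fin q → E => ∀ e : U, η (f e) = (e : E)) ≤
      pr (fun η : Fin q → E => ∀ k, (∀ e : U, f e = k → η k = (e : E))) := by
    refine pr_mono (fun η h k e he => ?_)
    rw [← he]
    exact h e
  refine h1.trans ?_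
  have h0 : pr (fun η : Fin q → E => ∀ k, (∀ e : U, f e = k → η k = (e : E))) =
      ∏ k, pr (fun x : E => ∀ e : U, f e = k → x = (e : E)) :=
    (FB_inst _ _ _).trans (pr_pi (fun (k : Fin q) (x : E) => ∀ e : U, f e = k → x = (e : E)))
  rw [h0]
  have h2 : ∏ k, pr (fun x : E => ∀ e : U, f e = k → x = (e : E)) ≤
      ∏ k : Fin q, (if k ∈ (Finset.univ : Finset U).map f then 1 / (Fintype.card E : ℝ) else 1) := by
    refine Finset.prod_le_prod (fun k _ => pr_nonneg _) (fun k _ => ?_)
    by_cases hk : k ∈ (Finset.univ : Finset U).map f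
    · rw [if_pos hk]
      obtain ⟨e, _, he⟩ := Finset.mem_map.1 hk
      rw [← FB_one (e : E)]
      exact pr_mono (fun x hx => hx e he)
    · rw [if_neg hk]
      exact pr_le_one _
  refine h2.trans (le_of_eq ?_)
  rw [Finset.prod_ite_mem, Finset.univ_inter, Finset.prod_const, Finset.card_map,
    Finset.card_univ, Fintype.card_coe]

theorem prFB : StFB := by
  intro E _ _ q U
  have h1 : pr (fun η : Fin q → E => ∀ e ∈ U, ∃ k, η k = e) ≤
      pr (fun η : Fin q → E => ∃ f ∈ (Finset.univ : Finset (U ↪ Fin q)),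
        ∀ e : U, η (f e) = (e : E)) := by
    refine pr_mono (fun η h => ?_)
    have h2 : ∀ e : U, ∃ k, η k = (e : E) := fun e => h e e.2
    choose g hg using h2
    refine ⟨⟨g, fun a b hab => ?_⟩, Finset.mem_univ _, hg⟩
    apply Subtype.ext
    rw [← hg a, ← hg b, hab]
  refine h1.trans ((pr_exists_le _ _).trans ?_)
  refine (Finset.sum_le_sum (fun f _ => FB_emb q U f)).trans (le_of_eq ?_)
  rw [Finset.sum_const, Finset.card_univ, nsmul_eq_mul, Fintype.card_embedding_eq,
    Fintype.card_fin, Fintype.card_coe, one_div, inv_pow]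
  rfl

end Pool.Agent.Work.MP_f7ef37_lc.WR
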