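import Pool.Agent.Work.MP_f7ef37_lc.WR.Stmts2

/-!
# Item GA of the block [f7ef37 WR]: the game
-/

set_option autoImplicit false

open Classical

namespace Pool.Agent.Work.MP_f7ef37_lc.WR

open Pool.Agent.Work.MP_f7ef37_lc.OP

section GA

variable {I J : Type}

private theorem GA_cov_union {ρ b : Finset (I × J)} {v : I ⊕ J} :
    Cov (ρ ∪ b) v ↔ Cov ρ v ∨ Cov b v := by
  constructor
  · rintro ⟨e, he, hv⟩
    rcases Finset.mem_union.1 he with h | h
    · exact Or.inl ⟨e, h, hv⟩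
    · exact Or.inr ⟨e, h, hv⟩
  · rintro (⟨e, he, hv⟩ | ⟨e, he, hv⟩)
    · exact ⟨e, Finset.mem_union_left _ he, hv⟩
    · exact ⟨e, Finset.mem_union_right _ he, hv⟩

private theorem GA_cover {ρ : Finset (I × J)} {G : Finset (I × J) → Prop} {W : ℕ}
    (hG : ∀ b v, G b → b.card ≤ W → ¬ Cov (ρ ∪ b) v → ∃ f, Inc v f ∧ G (insert f b))
    (Y : Finset (I ⊕ J)) : ∀ b, G b → b.card + Y.card ≤ W + 1 →
    ∃ b', b ⊆ b' ∧ G b' ∧ b'.card ≤ b.card + Y.card ∧ ∀ v ∈ Y, Cov (ρ ∪ b') v := by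
  induction Y using Finset.induction_on with
  | empty =>
    intro b hb _
    exact ⟨b, Finset.Subset.refl _, hb, by simp, fun v hv => absurd hv (Finset.notMem_empty v)⟩
  | insert v Y hv ih =>
    intro b hb hc
    rw [Finset.card_insert_of_notMem hv] at hc ⊢
    obtain ⟨b1, h1, h2, h3, h4⟩ := ih b hb (by omega)
    by_cases hcov : Cov (ρ ∪ b1) v
    · refine ⟨b1, h1, h2, by omega, fun u hu => ?_⟩
      rcases Finset.mem_insert.1 hu with rfl | hu
      · exact hcov
      · exact h4 u hu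
    · obtain ⟨f, hf, hGf⟩ := hG b1 v h2 (by omega) hcov
      refine ⟨insert f b1, h1.trans (Finset.subset_insert _ _), hGf, ?_, fun u hu => ?_⟩
      · have := Finset.card_insert_le f b1
        omega
      · rcases Finset.mem_insert.1 hu with rfl | hu
        · exact ⟨f, Finset.mem_union_right _ (Finset.mem_insert_self _ _), hf⟩
        · exact (h4 u hu).mono (Finset.union_subset_union_right (Finset.subset_insert _ _))

private theorem GA_meet_card {b : Finset (I × J)} (hb : Mat b) (A : Finset (I ⊕ J)) :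
    (meet A b).card ≤ A.card := by
  have hch : ∀ e ∈ meet A b, ∃ v ∈ A, Inc v e := by
    intro e he
    exact (Finset.mem_filter.1 he).2
  obtain ⟨φ, hφ⟩ : ∃ φ : I × J → I ⊕ J, ∀ e ∈ meet A b, φ e ∈ A ∧ Inc (φ e) e := by
    refine ⟨fun e => if h : e ∈ meet A b then (hch e h).choose else Sum.inl e.1, fun e he => ?_⟩
    simp only [dif_pos he]
    exact (hch e he).choose_spec
  refine Finset.card_le_card_of_injOn φ (fun e he => (hφ e he).1) ?_
  intro e he f hf hef
  have he' : e ∈ meet A b := he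
  have hf' : f ∈ meet A b := hf
  refine hb e (Finset.mem_filter.1 he').1 f (Finset.mem_filter.1 hf').1 ?_
  rw [adj_iff]
  exact ⟨φ e, (hφ e he').2, by rw [hef]; exact (hφ f hf').2⟩

private theorem GA_ax {D : Ln I J} (hD : AxLine D) : ∃ Y : Finset (I ⊕ J), Y.card ≤ 4 ∧
    ∀ c, Mat c → (∀ v ∈ Y, Cov c v) → Sat D c := by
  rcases hD with ⟨v, hv⟩ | ⟨e, f, hef, hadj, he, hf⟩ | ⟨e, he, hf⟩
  · refine ⟨{v}, by simp, fun c _ hc => ?_⟩
    obtain ⟨e, he, hve⟩ := hc v (Finset.mem_singleton_self v)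
    refine ⟨_, hv e hve, ?_, fun g hg => absurd hg (Finset.notMem_empty g)⟩
    exact Finset.singleton_subset_iff.2 he
  · refine ⟨{Sum.inl e.1, Sum.inl f.1}, ?_, fun c hm hc => ?_⟩
    · have := Finset.card_le_two (a := (Sum.inl e.1 : I ⊕ J)) (b := Sum.inl f.1)
      omega
    · have key : ∀ g : I × J, Cov c (Sum.inl g.1) →
          ((∅, {g}) : Finset (I × J) × Finset (I × J)) ∈ D → g ∉ c → Sat D c := by
        intro g hg hgD hgc
        refine ⟨_, hgD, Finset.empty_subset _, fun k hk => ?_⟩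
        have hk' : k = g := Finset.mem_singleton.1 hk
        rw [hk']
        refine ⟨hgc, fun hna => ?_⟩
        obtain ⟨e', he', hv'⟩ := hg
        exact hna e' he' (Or.inl hv')
      by_cases h1 : e ∈ c
      · by_cases h2 : f ∈ c
        · exact absurd (hm e h1 f h2 hadj) hef
        · exact key f (hc _ (by simp)) hf h2
      · exact key e (hc _ (by simp)) he h1
  · refine ⟨{Sum.inl e.1}, by simp, fun c hm hc => ?_⟩
    by_cases h1 : e ∈ c
    · exact ⟨_, he, Finset.singleton_subset_iff.2 h1,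
        fun g hg => absurd hg (Finset.notMem_empty g)⟩
    · refine ⟨_, hf, Finset.empty_subset _, fun k hk => ?_⟩
      have hk' : k = e := Finset.mem_singleton.1 hk
      rw [hk']
      refine ⟨h1, fun hna => ?_⟩
      obtain ⟨e', he', hv'⟩ := hc _ (Finset.mem_singleton_self _)
      exact hna e' he' (Or.inl hv')

end GA

theorem prGA : StGA := by
  intro I J _ _ K w Ds A ρ Pos hw hok hA hemp hher hmat hext hst
  -- extension for good matchings
  have hgood : ∀ (s : Fin K) (b0 : Finset (I × J)), (∀ v ∈ A s, ¬ Cov ρ v → Cov b0 v) →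
      ∀ b v, (b0 ⊆ b ∧ Pos b ∧ ∀ e ∈ b, e ∉ b0 → ∀ v ∈ A s, ¬ Inc v e) → b.card ≤ 3 * w + 3 →
        ¬ Cov (ρ ∪ b) v → ∃ f, Inc v f ∧
          (b0 ⊆ insert f b ∧ Pos (insert f b) ∧ ∀ e ∈ insert f b, e ∉ b0 → ∀ v ∈ A s, ¬ Inc v e) := by
    intro s b0 hcov b v hb hcard hv
    obtain ⟨h1, h2, h3⟩ := hb
    have hv1 : ¬ Cov ρ v := fun h => hv (GA_cov_union.2 (Or.inl h))
    have hv2 : ¬ Cov b v := fun h => hv (GA_cov_union.2 (Or.inr h))
    obtain ⟨f, hf1, hf2, hf3⟩ := hext b v h2 hcard hv1 hv2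
    refine ⟨f, hf1, h1.trans (Finset.subset_insert _ _), hf3, fun e he heb u hu hinc => ?_⟩
    rcases Finset.mem_insert.1 he with rfl | he
    · have hnc : ∀ g ∈ ρ ∪ b, ¬ Inc u g := by
        intro g hg hug
        exact hf2 g hg ((adj_iff _ _).2 ⟨u, hug, hinc⟩)
      by_cases hρ : Cov ρ u
      · obtain ⟨g, hg, hug⟩ := hρ
        exact hnc g (Finset.mem_union_left _ hg) hug
      · obtain ⟨g, hg, hug⟩ := hcov u hu hρ
        exact hnc g (Finset.mem_union_right _ (h1 hg)) hug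
    · exact h3 e he heb u hu hinc
  -- good matchings do not satisfy the line
  have hns : ∀ (s : Fin K) (b0 : Finset (I × J)), Pos b0 → ¬ Sat (Ds s) (ρ ∪ b0) →
      ∀ b, (b0 ⊆ b ∧ Pos b ∧ ∀ e ∈ b, e ∉ b0 → ∀ v ∈ A s, ¬ Inc v e) →
        ¬ Sat (Ds s) (ρ ∪ b) := by
    intro s b0 hp hn b hb hsat
    obtain ⟨_, h2, h3⟩ := hb
    have h4 := hst s b h2 hsat
    apply hn
    refine sat_mono h4 (Finset.union_subset_union_right ?_) (hmat b0 hp)
    intro e he
    obtain ⟨he1, u, hu, hinc⟩ := Finset.mem_filter.1 he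
    by_contra hcon
    exact h3 e he1 hcon u hu hinc
  -- the claim
  have claim : ∀ (k : ℕ) (s : Fin K), s.val = k → ∀ b0, ¬ (Pos b0 ∧ b0.card ≤ w ∧
      (∀ v ∈ A s, ¬ Cov ρ v → Cov b0 v) ∧ ¬ Sat (Ds s) (ρ ∪ b0)) := by
    intro k
    induction k using Nat.strong_induction_on with
    | _ k ih =>
      intro s hs b0 hQ
      obtain ⟨hp, hc, hcov, hn⟩ := hQ
      have hstart : (b0 ⊆ b0 ∧ Pos b0 ∧ ∀ e ∈ b0, e ∉ b0 → ∀ v ∈ A s, ¬ Inc v e) :=
        ⟨Finset.Subset.refl _, hp, fun e he hne => absurd he hne⟩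
      rcases hok s with hax | ⟨r, r', hr, hr', himp⟩
      · obtain ⟨Y, hY, hsat⟩ := GA_ax hax
        obtain ⟨b1, _, h2, _, h4⟩ := GA_cover (W := 3 * w + 3) (hgood s b0 hcov) Y b0 hstart
          (by omega)
        exact hns s b0 hp hn b1 h2 (hsat _ (hmat b1 h2.2.1) h4)
      · have hY : (A r ∪ A r').card ≤ 2 * w := by
          have h1 := Finset.card_union_le (A r) (A r')
          have h2 := hA r
          have h3 := hA r'
          omega
        obtain ⟨b1, _, h2, _, h4⟩ := GA_cover (W := 3 * w + 3) (hgood s b0 hcov) (A r ∪ A r') b0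
          hstart (by omega)
        have hns1 := hns s b0 hp hn b1 h2
        have hm1 := hmat b1 h2.2.1
        have hm1' : Mat b1 := hm1.mono Finset.subset_union_right
        have step : ∀ r'' : Fin K, r'' < s → A r'' ⊆ A r ∪ A r' → Sat (Ds r'') (ρ ∪ b1) := by
          intro r'' hlt hsub
          by_contra hnsat
          refine ih r''.val (by rw [← hs]; exact hlt) r'' rfl (meet (A r'') b1)
            ⟨hher b1 _ h2.2.1 (Finset.filter_subset _ _), (GA_meet_card hm1' _).trans (hA r''),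
              fun v hv hρ => ?_, fun hsat => hnsat ?_⟩
          · rcases GA_cov_union.1 (h4 v (hsub hv)) with h | h
            · exact absurd h hρ
            · obtain ⟨e, he, hinc⟩ := h
              exact ⟨e, Finset.mem_filter.2 ⟨he, v, hv, hinc⟩, hinc⟩
          · exact sat_mono hsat (Finset.union_subset_union_right (Finset.filter_subset _ _)) hm1
        exact hns1 (himp _ hm1 (step r hr Finset.subset_union_left)
          (step r' hr' Finset.subset_union_right))
  intro s hs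
  have hG : ∀ b v, Pos b → b.card ≤ 3 * w + 3 → ¬ Cov (ρ ∪ b) v →
      ∃ f, Inc v f ∧ Pos (insert f b) := by
    intro b v hb hcard hv
    have hv1 : ¬ Cov ρ v := fun h => hv (GA_cov_union.2 (Or.inl h))
    have hv2 : ¬ Cov b v := fun h => hv (GA_cov_union.2 (Or.inr h))
    obtain ⟨f, hf1, _, hf3⟩ := hext b v hb hcard hv1 hv2
    exact ⟨f, hf1, hf3⟩
  have hAs := hA s
  obtain ⟨b1, _, h2, h3, h4⟩ := GA_cover (W := 3 * w + 3) hG (A s) ∅ hemp
    (by rw [Finset.card_empty]; omega)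
  refine claim s.val s rfl b1 ⟨h2, ?_, fun v hv hρ => ?_, ?_⟩
  · rw [Finset.card_empty] at h3
    omega
  · rcases GA_cov_union.1 (h4 v hv) with h | h
    · exact absurd h hρ
    · exact h
  · rw [hs]
    rintro ⟨T, hT, _⟩
    exact absurd hT (Finset.notMem_empty T)

end Pool.Agent.Work.MP_f7ef37_lc.WR
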