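import Pool.Agent.Work.MP_f7ef37_lc.WR.Stmts2
import Pool.Agent.Work.MP_f7ef37_lc.OP.Basic

/-!
# Block [f7ef37 WR], item GH: positions are hereditary
-/

set_option autoImplicit false

open Classical

namespace Pool.Agent.Work.MP_f7ef37_lc.WR

open Pool.Agent.Work.MP_f7ef37_lc.OP

theorem GH_hal {V : Type} [Fintype V] {adj : V → V → Prop} {side : V → Bool} {Bd : Finset V}
    {r : ℕ} {W : Finset V} (h : Hal adj side Bd r W) (A : Finset V)
    (h1 : ∀ x ∈ A, x ∈ Bd ∧ x ∉ W) (h2 : Os side A) (h3 : A.card ≤ r) :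
    ∃ F : Finset V, (∀ y, y ∈ F ↔ y ∈ nb adj A ∧ y ∉ W) ∧ A.card ≤ F.card :=
  ⟨_, fun _ => Finset.mem_filter, h A h1 h2 h3⟩

theorem GH_hal' {V : Type} [Fintype V] {adj : V → V → Prop} {side : V → Bool} {Bd : Finset V}
    {r : ℕ} {W : Finset V} (h : ∀ A : Finset V, (∀ x ∈ A, x ∈ Bd ∧ x ∉ W) → Os side A →
      A.card ≤ r → ∀ F : Finset V, (∀ y, y ∈ F ↔ y ∈ nb adj A ∧ y ∉ W) → A.card ≤ F.card) :
    Hal adj side Bd r W :=
  fun A h1 h2 h3 => h A h1 h2 h3 _ (fun _ => Finset.mem_filter)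

variable {I J : Type} [Fintype I] [Fintype J]

theorem GH_mem_cv {b : Finset (I × J)} {v : I ⊕ J} : v ∈ cv b ↔ Cov b v := by
  unfold cv
  simp

omit [Fintype I] [Fintype J] in
theorem GH_oth_inc (v : I ⊕ J) (e : I × J) : Inc (oth v e) e := by
  cases v with
  | inl i => exact rfl
  | inr j => exact rfl

omit [Fintype I] [Fintype J] in
theorem GH_lk {G : Finset (I × J)} {v : I ⊕ J} {e : I × J} (h : Inc v e) (he : e ∈ G) :
    Lk G v (oth v e) := by
  cases v with
  | inl i =>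
    have h1 : e.1 = i := h
    change (i, e.2) ∈ G
    rw [← h1]
    exact he
  | inr j =>
    have h1 : e.2 = j := h
    change (e.1, j) ∈ G
    rw [← h1]
    exact he

omit [Fintype I] [Fintype J] in
theorem GH_same {x x' : I ⊕ J} {e : I × J} (hs : x.isLeft = x'.isLeft) (h : Inc x e)
    (h' : Inc x' e) : x = x' := by
  cases x with
  | inl i =>
    cases x' with
    | inl i' =>
      have h1 : e.1 = i := h
      have h2 : e.1 = i' := h'
      rw [← h1, ← h2]
    | inr j' => exact absurd hs (by simp)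
  | inr j =>
    cases x' with
    | inl i' => exact absurd hs (by simp)
    | inr j' =>
      have h1 : e.2 = j := h
      have h2 : e.2 = j' := h'
      rw [← h1, ← h2]

theorem prGH : StGH := by
  intro I J _ _ G ρ r b b' hb hbb
  obtain ⟨hG, hM, hH⟩ := hb
  refine ⟨hbb.trans hG, hM.mono hbb, GH_hal' ?_⟩
  intro A hA hOs hr F hF
  obtain ⟨c, hc⟩ := hOs
  obtain ⟨A0, hA0⟩ : ∃ A0 : Finset (I ⊕ J), A0 = A.filter (fun x => x ∉ cv b) := ⟨_, rfl⟩
  obtain ⟨A1, hA1⟩ : ∃ A1 : Finset (I ⊕ J), A1 = A.filter (fun x => x ∈ cv b) := ⟨_, rfl⟩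
  have hsub0 : A0 ⊆ A := by
    rw [hA0]
    exact Finset.filter_subset _ _
  have hcard : A1.card + A0.card = A.card := by
    rw [hA0, hA1]
    exact Finset.card_filter_add_card_filter_not (s := A) (fun x => x ∈ cv b)
  obtain ⟨F0, hF0, h0⟩ : ∃ F0 : Finset (I ⊕ J), (∀ y, y ∈ F0 ↔ y ∈ nb (Lk G) A0 ∧ y ∉ cv b) ∧
      A0.card ≤ F0.card := by
    refine GH_hal hH A0 ?_ ?_ ?_
    · intro x hx
      refine ⟨(hA x (hsub0 hx)).1, ?_⟩
      rw [hA0, Finset.mem_filter] at hx
      exact hx.2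
    · exact ⟨c, fun x hx => hc x (hsub0 hx)⟩
    · exact (Finset.card_le_card hsub0).trans hr
  -- the partners of the vertices of `A1`
  obtain ⟨f, hf⟩ : ∃ f : I ⊕ J → I ⊕ J, ∀ x, Cov b x → ∃ e ∈ b, Inc x e ∧ f x = oth x e := by
    refine ⟨fun x => if h : Cov b x then oth x h.choose else x, fun x hx => ?_⟩
    exact ⟨hx.choose, hx.choose_spec.1, hx.choose_spec.2, dif_pos hx⟩
  have hcov1 : ∀ x ∈ A1, x ∈ A ∧ Cov b x := by
    intro x hx
    rw [hA1, Finset.mem_filter, GH_mem_cv] at hx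
    exact hx
  have hinj : Set.InjOn f (A1 : Set (I ⊕ J)) := by
    intro x hx x' hx' hxx
    obtain ⟨h1, h2⟩ := hcov1 x hx
    obtain ⟨h1', h2'⟩ := hcov1 x' hx'
    obtain ⟨e, he, hi, hfe⟩ := hf x h2
    obtain ⟨e', he', hi', hfe'⟩ := hf x' h2'
    have hadj : Adj e e' := by
      rw [adj_iff]
      refine ⟨f x, ?_, ?_⟩
      · rw [hfe]
        exact GH_oth_inc x e
      · rw [hxx, hfe']
        exact GH_oth_inc x' e'
    have hee : e = e' := hM e he e' he' hadj
    rw [← hee] at hi'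
    exact GH_same ((hc x h1).trans (hc x' h1').symm) hi hi'
  have hsub : F0 ∪ A1.image f ⊆ F := by
    intro y hy
    rw [hF]
    rcases Finset.mem_union.1 hy with hy | hy
    · rw [hF0] at hy
      obtain ⟨h1, h2⟩ := hy
      refine ⟨?_, ?_⟩
      · unfold nb at h1 ⊢
        rw [Finset.mem_filter] at h1 ⊢
        obtain ⟨-, x, hx, hxy⟩ := h1
        exact ⟨Finset.mem_univ _, x, hsub0 hx, hxy⟩
      · intro h3
        apply h2
        rw [GH_mem_cv] at h3 ⊢
        exact h3.mono hbb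
    · obtain ⟨x, hx, rfl⟩ := Finset.mem_image.1 hy
      obtain ⟨h1, h2⟩ := hcov1 x hx
      obtain ⟨e, he, hi, hfe⟩ := hf x h2
      refine ⟨?_, ?_⟩
      · unfold nb
        rw [Finset.mem_filter]
        refine ⟨Finset.mem_univ _, x, h1, ?_⟩
        rw [hfe]
        exact GH_lk hi (hG he)
      · rw [GH_mem_cv]
        rintro ⟨e', he', hi'⟩
        have hadj : Adj e e' := by
          rw [adj_iff]
          refine ⟨f x, ?_, hi'⟩
          rw [hfe]
          exact GH_oth_inc x e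
        have hee : e = e' := hM e he e' (hbb he') hadj
        rw [← hee] at he'
        apply (hA x h1).2
        rw [GH_mem_cv]
        exact ⟨e, he', hi⟩
  have hdis : Disjoint F0 (A1.image f) := by
    rw [Finset.disjoint_left]
    intro y hy hy'
    rw [hF0] at hy
    obtain ⟨x, hx, rfl⟩ := Finset.mem_image.1 hy'
    obtain ⟨h1, h2⟩ := hcov1 x hx
    obtain ⟨e, he, hi, hfe⟩ := hf x h2
    apply hy.2
    rw [GH_mem_cv, hfe]
    exact ⟨e, he, GH_oth_inc x e⟩
  have hfin := Finset.card_le_card hsub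
  rw [Finset.card_union_of_disjoint hdis, Finset.card_image_of_injOn hinj] at hfin
  omega

end Pool.Agent.Work.MP_f7ef37_lc.WR
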