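import Pool.Agent.Work.MP_f7ef37_lc.WR.Stmts2

set_option autoImplicit false

open Classical

namespace Pool.Agent.Work.MP_f7ef37_lc.WR

open Pool.Agent.Work.MP_f7ef37_lc.OP

theorem prGL : StGL := by
  intro V _ adj side Bd r W c A A' hH hA hA' hr h1 h2
  have eU : (nb adj (A ∪ A')).filter (fun y => y ∉ W) =
      ((nb adj A).filter (fun y => y ∉ W)) ∪ ((nb adj A').filter (fun y => y ∉ W)) := by
    ext y
    simp only [nb, Finset.mem_filter, Finset.mem_univ, true_and, Finset.mem_union]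
    constructor
    · rintro ⟨⟨x, hx | hx, h⟩, hy⟩
      · exact Or.inl ⟨⟨x, hx, h⟩, hy⟩
      · exact Or.inr ⟨⟨x, hx, h⟩, hy⟩
    · rintro (⟨⟨x, hx, h⟩, hy⟩ | ⟨⟨x, hx, h⟩, hy⟩)
      · exact ⟨⟨x, Or.inl hx, h⟩, hy⟩
      · exact ⟨⟨x, Or.inr hx, h⟩, hy⟩
  have sI : (nb adj (A ∩ A')).filter (fun y => y ∉ W) ⊆
      ((nb adj A).filter (fun y => y ∉ W)) ∩ ((nb adj A').filter (fun y => y ∉ W)) := by
    intro y
    simp only [nb, Finset.mem_filter, Finset.mem_univ, true_and, Finset.mem_inter]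
    rintro ⟨⟨x, ⟨hx, hx'⟩, h⟩, hy⟩
    exact ⟨⟨⟨x, hx, h⟩, hy⟩, ⟨⟨x, hx', h⟩, hy⟩⟩
  have k1 := hH (A ∪ A') (fun x hx => by
      rcases Finset.mem_union.1 hx with h | h
      · exact ⟨(hA x h).1, (hA x h).2.1⟩
      · exact ⟨(hA' x h).1, (hA' x h).2.1⟩)
    ⟨c, fun x hx => by
      rcases Finset.mem_union.1 hx with h | h
      · exact (hA x h).2.2
      · exact (hA' x h).2.2⟩ ((Finset.card_union_le A A').trans hr)
  have k2 := hH (A ∩ A') (fun x hx => by
      have h := (Finset.mem_inter.1 hx).1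
      exact ⟨(hA x h).1, (hA x h).2.1⟩)
    ⟨c, fun x hx => (hA x (Finset.mem_inter.1 hx).1).2.2⟩
    ((Finset.card_le_card Finset.inter_subset_left).trans ((Nat.le_add_right _ _).trans hr))
  have k3 := Finset.card_le_card sI
  have k4 := Finset.card_union_add_card_inter ((nb adj A).filter (fun y => y ∉ W))
    ((nb adj A').filter (fun y => y ∉ W))
  have k5 := Finset.card_union_add_card_inter A A'
  rw [← eU] at k4
  refine ⟨by omega, by omega, ?_⟩
  exact Finset.eq_of_subset_of_card_le sI (by omega)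

end Pool.Agent.Work.MP_f7ef37_lc.WR
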