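import Pool.Agent.Work.MP_f7ef37_lc.WR.Stmts2

/-! Item GX of the block [f7ef37 WR]: extension of Hall positions. -/

set_option autoImplicit false

open Classical

namespace Pool.Agent.Work.MP_f7ef37_lc.WR

/-- Neighbours outside `W`. -/
private noncomputable def gxN {V : Type} [Fintype V] (adj : V → V → Prop) (W A : Finset V) :
    Finset V := (nb adj A).filter (fun y => y ∉ W)

private theorem GX_mem {V : Type} [Fintype V] (adj : V → V → Prop) (W A : Finset V) (y : V) :
    y ∈ gxN adj W A ↔ (∃ x ∈ A, adj x y) ∧ y ∉ W := by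
  simp [gxN, nb]

private theorem GX_mono {V : Type} [Fintype V] (adj : V → V → Prop) (W A A' : Finset V)
    (h : A ⊆ A') : gxN adj W A ⊆ gxN adj W A' := by
  intro y hy
  rw [GX_mem] at hy ⊢
  obtain ⟨⟨x, hx, hxy⟩, hW⟩ := hy
  exact ⟨⟨x, h hx, hxy⟩, hW⟩

/-- Tight sets on the side `c`. -/
private def gxT {V : Type} [Fintype V] (adj : V → V → Prop) (side : V → Bool) (Bd W : Finset V)
    (r : ℕ) (c : Bool) (A : Finset V) : Prop :=
  (∀ x ∈ A, x ∈ Bd ∧ x ∉ W ∧ side x = c) ∧ A.card ≤ r ∧ (gxN adj W A).card = A.card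

theorem prGX : StGX := by
  intro hGL V _ adj side Bd r β W v hadj hexp hhal hW hβ hvB hvW
  -- tight sets are small
  have hsmall : ∀ (c : Bool) (A : Finset V), gxT adj side Bd W r c A → A.card ≤ β := by
    intro c A hA
    obtain ⟨h1, h2, h3⟩ := hA
    have h4 : 2 * A.card ≤ (nb adj A).card :=
      hexp A (fun x hx => (h1 x hx).1) ⟨c, fun x hx => (h1 x hx).2.2⟩ h2
    have h5 : nb adj A ⊆ gxN adj W A ∪ W.filter (fun x => side x = !c) := by
      intro y hy
      by_cases hyW : y ∈ W
      · apply Finset.mem_union_right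
        rw [Finset.mem_filter]
        refine ⟨hyW, ?_⟩
        simp only [nb, Finset.mem_filter, Finset.mem_univ, true_and] at hy
        obtain ⟨x, hx, hxy⟩ := hy
        have h6 := (hadj x y hxy).2.1
        rw [(h1 x hx).2.2] at h6
        cases hc : side y <;> cases c <;> simp_all
      · apply Finset.mem_union_left
        rw [GX_mem]
        simp only [nb, Finset.mem_filter, Finset.mem_univ, true_and] at hy
        exact ⟨hy, hyW⟩
    have h6 := (Finset.card_le_card h5).trans (Finset.card_union_le _ _)
    have h7 := hW (!c)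
    omega
  -- unions and intersections
  have hun : ∀ (c : Bool) (A A' : Finset V), gxT adj side Bd W r c A →
      gxT adj side Bd W r c A' → gxT adj side Bd W r c (A ∪ A') ∧
        gxT adj side Bd W r c (A ∩ A') ∧
        gxN adj W (A ∩ A') = gxN adj W A ∩ gxN adj W A' := by
    intro c A A' hA hA'
    have h1 := hsmall c A hA
    have h2 := hsmall c A' hA'
    obtain ⟨g1, g2, g3⟩ := hGL V adj side Bd r W c A A' hhal hA.1 hA'.1 (by omega) hA.2.2 hA'.2.2
    refine ⟨⟨?_, ?_, g1⟩, ⟨?_, ?_, g2⟩, g3⟩
    · intro x hx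
      rcases Finset.mem_union.mp hx with h | h
      · exact hA.1 x h
      · exact hA'.1 x h
    · have := Finset.card_union_le A A'
      omega
    · intro x hx
      exact hA.1 x (Finset.mem_inter.mp hx).1
    · have := Finset.card_le_card (Finset.inter_subset_left (s₁ := A) (s₂ := A'))
      omega
  -- the largest tight set on the side of `v` without `v`
  obtain ⟨Q, hQT, hvQ, hQmax⟩ : ∃ Q : Finset V, gxT adj side Bd W r (side v) Q ∧ v ∉ Q ∧
      ∀ A : Finset V, gxT adj side Bd W r (side v) A → v ∉ A → A ⊆ Q := by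
    have hne : ((Finset.univ : Finset (Finset V)).filter
        (fun A => gxT adj side Bd W r (side v) A ∧ v ∉ A)).Nonempty := by
      refine ⟨∅, ?_⟩
      rw [Finset.mem_filter]
      refine ⟨Finset.mem_univ _, ⟨by simp, by simp, ?_⟩, by simp⟩
      simp [gxN, nb]
    obtain ⟨Q, hQ, hmax⟩ := Finset.exists_max_image _ (fun A : Finset V => A.card) hne
    rw [Finset.mem_filter] at hQ
    refine ⟨Q, hQ.2.1, hQ.2.2, ?_⟩
    intro A hA hvA
    have h1 := (hun _ A Q hA hQ.2.1).1
    have h2 : v ∉ A ∪ Q := by
      rw [Finset.mem_union]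
      rintro (h | h)
      · exact hvA h
      · exact hQ.2.2 h
    have h3 := hmax (A ∪ Q) (Finset.mem_filter.mpr ⟨Finset.mem_univ _, h1, h2⟩)
    have h4 : Q = A ∪ Q := Finset.eq_of_subset_of_card_le Finset.subset_union_right h3
    rw [h4]
    exact Finset.subset_union_left
  have hQβ := hsmall _ Q hQT
  -- the choice of `u`
  obtain ⟨u, hvu, huW, huQ, huX⟩ : ∃ u, adj v u ∧ u ∉ W ∧ u ∉ gxN adj W Q ∧
      ∀ A : Finset V, gxT adj side Bd W r (!side v) A → v ∈ gxN adj W A → u ∈ A := by
    by_cases hX : ∃ A : Finset V, gxT adj side Bd W r (!side v) A ∧ v ∈ gxN adj W A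
    · obtain ⟨X, hXT, hvX, hXmin⟩ : ∃ X : Finset V, gxT adj side Bd W r (!side v) X ∧
          v ∈ gxN adj W X ∧ ∀ A : Finset V, gxT adj side Bd W r (!side v) A →
          v ∈ gxN adj W A → X ⊆ A := by
        have hne : ((Finset.univ : Finset (Finset V)).filter
            (fun A => gxT adj side Bd W r (!side v) A ∧ v ∈ gxN adj W A)).Nonempty := by
          obtain ⟨A, hA⟩ := hX
          exact ⟨A, Finset.mem_filter.mpr ⟨Finset.mem_univ _, hA⟩⟩
        obtain ⟨X, hX', hmin⟩ := Finset.exists_min_image _ (fun A : Finset V => A.card) hne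
        rw [Finset.mem_filter] at hX'
        refine ⟨X, hX'.2.1, hX'.2.2, ?_⟩
        intro A hA hvA
        obtain ⟨-, h1, h2⟩ := hun _ A X hA hX'.2.1
        have h3 : v ∈ gxN adj W (A ∩ X) := by
          rw [h2, Finset.mem_inter]
          exact ⟨hvA, hX'.2.2⟩
        have h4 := hmin (A ∩ X) (Finset.mem_filter.mpr ⟨Finset.mem_univ _, h1, h3⟩)
        have h5 : A ∩ X = X := Finset.eq_of_subset_of_card_le Finset.inter_subset_right h4
        rw [← h5]
        exact Finset.inter_subset_left
      by_contra hno
      have hall : ∀ u ∈ X, adj v u → u ∈ gxN adj W Q := by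
        intro u hu hvu
        by_contra hc
        exact hno ⟨u, hvu, (hXT.1 u hu).2.1, hc, fun A hA hvA => hXmin A hA hvA hu⟩
      have hXβ := hsmall _ X hXT
      -- first inequality
      have i1 : (X \ gxN adj W Q).card ≤ (gxN adj W (X \ gxN adj W Q)).card := by
        apply hhal
        · intro x hx
          have := hXT.1 x (Finset.mem_sdiff.mp hx).1
          exact ⟨this.1, this.2.1⟩
        · exact ⟨!side v, fun x hx => (hXT.1 x (Finset.mem_sdiff.mp hx).1).2.2⟩
        · have := Finset.card_le_card (Finset.sdiff_subset (s := X) (t := gxN adj W Q))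
          omega
      have i2 : gxN adj W (X \ gxN adj W Q) ⊆ gxN adj W X \ insert v Q := by
        intro y hy
        rw [GX_mem] at hy
        obtain ⟨⟨x, hx, hxy⟩, hyW⟩ := hy
        rw [Finset.mem_sdiff] at hx
        rw [Finset.mem_sdiff]
        refine ⟨(GX_mem adj W X y).mpr ⟨⟨x, hx.1, hxy⟩, hyW⟩, ?_⟩
        intro hyQ
        rcases Finset.mem_insert.mp hyQ with h | h
        · rw [h] at hxy
          exact hx.2 (hall x hx.1 (hadj x v hxy).1)
        · exact hx.2 ((GX_mem adj W Q x).mpr ⟨⟨y, h, (hadj x y hxy).1⟩, (hXT.1 x hx.1).2.1⟩)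
      have i3 : (gxN adj W X \ insert v Q).card + ((gxN adj W X ∩ Q).card + 1) ≤
          (gxN adj W X).card := by
        have j1 : insert v (gxN adj W X ∩ Q) ⊆ gxN adj W X ∩ insert v Q := by
          intro y hy
          rcases Finset.mem_insert.mp hy with h | h
          · rw [h]
            exact Finset.mem_inter.mpr ⟨hvX, Finset.mem_insert_self _ _⟩
          · rw [Finset.mem_inter] at h ⊢
            exact ⟨h.1, Finset.mem_insert_of_mem h.2⟩
        have j2 := Finset.card_le_card j1
        rw [Finset.card_insert_of_notMem (fun h => hvQ (Finset.mem_inter.mp h).2)] at j2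
        have j3 := Finset.card_sdiff_add_card_inter (gxN adj W X) (insert v Q)
        omega
      have i4 := Finset.card_sdiff_add_card_inter X (gxN adj W Q)
      -- second inequality
      have k1 : (Q \ gxN adj W X).card ≤ (gxN adj W (Q \ gxN adj W X)).card := by
        apply hhal
        · intro x hx
          have := hQT.1 x (Finset.mem_sdiff.mp hx).1
          exact ⟨this.1, this.2.1⟩
        · exact ⟨side v, fun x hx => (hQT.1 x (Finset.mem_sdiff.mp hx).1).2.2⟩
        · have := Finset.card_le_card (Finset.sdiff_subset (s := Q) (t := gxN adj W X))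
          omega
      have k2 : gxN adj W (Q \ gxN adj W X) ⊆ gxN adj W Q \ X := by
        intro y hy
        rw [GX_mem] at hy
        obtain ⟨⟨x, hx, hxy⟩, hyW⟩ := hy
        rw [Finset.mem_sdiff] at hx
        rw [Finset.mem_sdiff]
        refine ⟨(GX_mem adj W Q y).mpr ⟨⟨x, hx.1, hxy⟩, hyW⟩, ?_⟩
        intro h
        exact hx.2 ((GX_mem adj W X x).mpr ⟨⟨y, h, (hadj x y hxy).1⟩, (hQT.1 x hx.1).2.1⟩)
      have k3 := Finset.card_sdiff_add_card_inter (gxN adj W Q) X
      have k4 := Finset.card_sdiff_add_card_inter Q (gxN adj W X)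
      have i5 := Finset.card_le_card i2
      have k5 := Finset.card_le_card k2
      have e1 : (gxN adj W X ∩ Q).card = (Q ∩ gxN adj W X).card := by rw [Finset.inter_comm]
      have e2 : (gxN adj W Q ∩ X).card = (X ∩ gxN adj W Q).card := by rw [Finset.inter_comm]
      have t1 := hXT.2.2
      have t2 := hQT.2.2
      omega
    · by_contra hno
      have hall : ∀ u, adj v u → u ∉ W → u ∈ gxN adj W Q := by
        intro u hvu huW
        by_contra hc
        exact hno ⟨u, hvu, huW, hc, fun A hA hvA => absurd ⟨A, hA, hvA⟩ hX⟩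
      have h1 : gxN adj W (insert v Q) ⊆ gxN adj W Q := by
        intro y hy
        rw [GX_mem] at hy
        obtain ⟨⟨x, hx, hxy⟩, hyW⟩ := hy
        rcases Finset.mem_insert.mp hx with h | h
        · rw [h] at hxy
          exact hall y hxy hyW
        · exact (GX_mem adj W Q y).mpr ⟨⟨x, h, hxy⟩, hyW⟩
      have h2 : (insert v Q).card ≤ (gxN adj W (insert v Q)).card := by
        apply hhal
        · intro x hx
          rcases Finset.mem_insert.mp hx with h | h
          · rw [h]
            exact ⟨hvB, hvW⟩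
          · exact ⟨(hQT.1 x h).1, (hQT.1 x h).2.1⟩
        · refine ⟨side v, fun x hx => ?_⟩
          rcases Finset.mem_insert.mp hx with h | h
          · rw [h]
          · exact (hQT.1 x h).2.2
        · rw [Finset.card_insert_of_notMem hvQ]
          omega
      rw [Finset.card_insert_of_notMem hvQ] at h2
      have h3 := Finset.card_le_card h1
      have t2 := hQT.2.2
      omega
  refine ⟨u, hvu, huW, ?_⟩
  have hsu : side v ≠ side u := (hadj v u hvu).2.1
  intro A hA hOs hAr
  obtain ⟨c, hc⟩ := hOs
  have hA1 : ∀ x ∈ A, x ∈ Bd ∧ x ∉ W := by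
    intro x hx
    refine ⟨(hA x hx).1, fun h => (hA x hx).2 ?_⟩
    exact Finset.mem_insert_of_mem (Finset.mem_insert_of_mem h)
  have hvA : v ∉ A := fun h => (hA v h).2 (Finset.mem_insert_self _ _)
  have huA : u ∉ A := fun h => (hA u h).2 (Finset.mem_insert_of_mem (Finset.mem_insert_self _ _))
  have hN : A.card ≤ (gxN adj W A).card := hhal A hA1 ⟨c, hc⟩ hAr
  have hside : ∀ y ∈ gxN adj W A, side y ≠ c := by
    intro y hy
    rw [GX_mem] at hy
    obtain ⟨⟨x, hx, hxy⟩, -⟩ := hy
    have := (hadj x y hxy).2.1
    rw [hc x hx] at this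
    exact fun h => this h.symm
  have hset : ∀ z : V, (∀ y ∈ gxN adj W A, y = v ∨ y = u → y = z) →
      (gxN adj W A).erase z ⊆
        (nb adj A).filter (fun y => y ∉ insert v (insert u W)) := by
    intro z hz y hy
    rw [Finset.mem_erase] at hy
    have h1 := (GX_mem adj W A y).mp hy.2
    rw [Finset.mem_filter]
    refine ⟨by simpa [nb] using h1.1, ?_⟩
    intro h
    rcases Finset.mem_insert.mp h with h | h
    · exact hy.1 (hz y hy.2 (Or.inl h))
    · rcases Finset.mem_insert.mp h with h | h
      · exact hy.1 (hz y hy.2 (Or.inr h))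
      · exact h1.2 h
  by_cases hcv : c = side v
  · -- only `u` can be a neighbour
    have hz : ∀ y ∈ gxN adj W A, y = v ∨ y = u → y = u := by
      intro y hy h
      rcases h with h | h
      · exact absurd (by rw [h, hcv]) (hside y hy)
      · exact h
    by_cases huN : u ∈ gxN adj W A
    · have h1 : (gxN adj W A).card ≠ A.card := by
        intro h2
        have hT : gxT adj side Bd W r (side v) A :=
          ⟨fun x hx => ⟨(hA1 x hx).1, (hA1 x hx).2, by rw [hc x hx, hcv]⟩, hAr, h2⟩
        exact huQ (GX_mono adj W A Q (hQmax A hT hvA) huN)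
      have h3 := Finset.card_le_card (hset u hz)
      have h4 := Finset.card_erase_add_one huN
      omega
    · have h3 := Finset.card_le_card (hset u hz)
      rw [Finset.erase_eq_of_notMem huN] at h3
      omega
  · have hcv' : c = !side v := by
      cases hs : side v <;> cases c <;> simp_all
    have hz : ∀ y ∈ gxN adj W A, y = v ∨ y = u → y = v := by
      intro y hy h
      rcases h with h | h
      · exact h
      · exfalso
        apply hside y hy
        rw [h, hcv']
        cases hs : side v <;> cases hs' : side u <;> simp_all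
    by_cases hvN : v ∈ gxN adj W A
    · have h1 : (gxN adj W A).card ≠ A.card := by
        intro h2
        have hT : gxT adj side Bd W r (!side v) A :=
          ⟨fun x hx => ⟨(hA1 x hx).1, (hA1 x hx).2, by rw [hc x hx, hcv']⟩, hAr, h2⟩
        exact huA (huX A hT hvN)
      have h3 := Finset.card_le_card (hset v hz)
      have h4 := Finset.card_erase_add_one hvN
      omega
    · have h3 := Finset.card_le_card (hset v hz)
      rw [Finset.erase_eq_of_notMem hvN] at h3
      omega

end Pool.Agent.Work.MP_f7ef37_lc.WR
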