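import Pool.Agent.Work.MP_f7ef37_lc.WR.Stmts

/-!
# Item HI of the block [f7ef37 WR]: hitting
-/

set_option autoImplicit false

open Classical

namespace Pool.Agent.Work.MP_f7ef37_lc.WR

open Pool.Agent.Work.MP_f7ef37_lc.OP

section

variable {I J : Type} [Fintype I] [Fintype J]

/-- The bad event of a round. -/
def HI_bad {R q : ℕ} (B : Fm I J) (r : Fin R) (ω : Fin R → Fin q → I × J) : Prop :=
  B.card ≤ 2 * (B.filter (fun S => ∀ v ∈ used ω r.val, ¬ Cov S v)).card ∧
    ∀ S ∈ B.filter (fun S => ∀ v ∈ used ω r.val, ¬ Cov S v), ¬ S ⊆ val (used ω r.val) (ω r)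

omit [Fintype I] [Fintype J] in
theorem HI_used_congr {R q : ℕ} {ω ω' : Fin R → Fin q → I × J} {r : ℕ}
    (h : ∀ k : Fin R, k.val < r → ω k = ω' k) : used ω r = used ω' r := by
  unfold used
  ext v
  simp only [Set.mem_ofPred_eq]
  constructor
  · rintro ⟨k, hk, l, hl⟩
    exact ⟨k, hk, l, by rw [← h k hk]; exact hl⟩
  · rintro ⟨k, hk, l, hl⟩
    exact ⟨k, hk, l, by rw [h k hk]; exact hl⟩

omit [Fintype I] [Fintype J] in
theorem HI_used_mono {R q : ℕ} (ω : Fin R → Fin q → I × J) {r r' : ℕ} (h : r ≤ r') {v : I ⊕ J}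
    (hv : v ∈ used ω r) : v ∈ used ω r' := by
  obtain ⟨k, hk, l, hl⟩ := hv
  exact ⟨k, lt_of_lt_of_le hk h, l, hl⟩

theorem HI_bad_congr {R q : ℕ} (B : Fm I J) (r : Fin R) (ω ω' : Fin R → Fin q → I × J)
    (h : ∀ k, k ≤ r → ω k = ω' k) (hb : HI_bad B r ω) : HI_bad B r ω' := by
  have h1 : used ω r.val = used ω' r.val :=
    HI_used_congr (fun k hk => h k (Fin.le_def.2 hk.le))
  have h2 : ω r = ω' r := h r le_rfl
  unfold HI_bad at hb ⊢
  rw [← h1, ← h2]
  exact hb

theorem HI_pr_zero {Ω : Type} [Fintype Ω] {P : Ω → Prop} (h : ∀ ω, ¬ P ω) : pr P = 0 := by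
  rw [pr_eq_card, Finset.filter_false_of_mem (fun ω _ => h ω)]
  simp

end

theorem prHI : StHI := by
  intro hFA hFB hSC hOR hSD hEM hSP hRI I J _ _ R q t b Lam lam B hR hJ hJI hb hbt htq hRq hLam hlam
    hq hB
  have hI : Nonempty I := Fintype.card_pos_iff.1 (lt_of_lt_of_le (by omega) hJI)
  have hJ' : Nonempty J := Fintype.card_pos_iff.1 (by omega)
  obtain ⟨hB1, hB2, hB3⟩ := hB
  have hX : Nonempty (Fin q → I × J) := inferInstance
  have h8 : 8 * t * q ≤ Fintype.card J := by
    refine le_trans ?_ hRq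
    have h1 : q ≤ R * q := Nat.le_mul_of_pos_left q (by omega)
    calc 8 * t * q ≤ 64 * t * q := Nat.mul_le_mul_right _ (Nat.mul_le_mul_right _ (by norm_num))
      _ ≤ 64 * t * (R * q) := Nat.mul_le_mul_left _ h1
  have hsp := hSP hSD hEM I J R q t b Lam lam B hJ hJI hb hbt hRq hLam hlam ⟨hB1, hB2, hB3⟩
  have hri := hRI (Fin q → I × J) R (fun r ω => HI_bad B r ω)
    (fun r ω ω' h hb => HI_bad_congr B r ω ω' h hb) (by
      intro r ω
      have hu : ∀ x, used (Function.update ω r x) r.val = used ω r.val := by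
        intro x
        refine HI_used_congr (fun k hk => ?_)
        rw [Function.update_of_ne]
        rintro rfl
        exact lt_irrefl _ hk
      by_cases hc : B.card ≤ 2 * (B.filter (fun S => ∀ v ∈ used ω r.val, ¬ Cov S v)).card
      · have h1 := hOR hFA hFB hSC I J q t b Lam lam
          (B.filter (fun S => ∀ v ∈ used ω r.val, ¬ Cov S v)) (used ω r.val) hJ hJI hb hbt htq h8
          hLam hlam hq (fun S hS => hB1 S (Finset.mem_filter.1 hS).1)
          (fun S hS => (Finset.mem_filter.1 hS).2) (by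
            refine hB2.trans ?_
            exact_mod_cast hc) (by
            intro C hC hCb
            refine le_trans ?_ (hB3 C hC hCb)
            unfold dg
            exact_mod_cast Finset.card_le_card
              (Finset.filter_subset_filter _ (Finset.filter_subset _ _)))
        refine le_trans (pr_mono (fun x hx => ?_)) h1
        have h2 := hx.2
        rw [hu x, Function.update_self] at h2
        exact h2
      · rw [HI_pr_zero]
        · norm_num
        · intro x hx
          have h2 := hx.1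
          rw [hu x] at h2
          exact hc h2)
  refine le_trans (pr_mono (Q := fun ω : Fin R → Fin q → I × J => (∀ r, HI_bad B r ω) ∨
    B.card < 2 * (B.filter (fun S => ∃ v ∈ used ω R, Cov S v)).card) (fun ω hω => ?_))
    ((pr_or_le _ _).trans (add_le_add hri hsp))
  by_cases hs : B.card < 2 * (B.filter (fun S => ∃ v ∈ used ω R, Cov S v)).card
  · exact Or.inr hs
  · refine Or.inl (fun r => ⟨?_, ?_⟩)
    · have h1 := Finset.card_filter_add_card_filter_not (s := B)
        (fun S => ∃ v ∈ used ω R, Cov S v)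
      have h2 : (B.filter (fun S => ¬ ∃ v ∈ used ω R, Cov S v)).card ≤
          (B.filter (fun S => ∀ v ∈ used ω r.val, ¬ Cov S v)).card := by
        apply Finset.card_le_card
        intro S hS
        rw [Finset.mem_filter] at hS ⊢
        refine ⟨hS.1, fun v hv hc => hS.2 ⟨v, HI_used_mono ω r.2.le hv, hc⟩⟩
      omega
    · intro S hS hsub
      refine hω S (Finset.mem_filter.1 hS).1 ?_
      intro e he
      unfold rho
      rw [Finset.mem_filter]
      exact ⟨Finset.mem_univ _, r, hsub he⟩

end Pool.Agent.Work.MP_f7ef37_lc.WR
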