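import Pool.Agent.Work.MP_f7ef37_lc.WR.Stmts3
import Pool.Agent.Work.MP_f7ef37_lc.WR.I_HI

/-!
# The uniform version of item HI of the block [f7ef37 WR]: hitting (adapted from helper72's
proof)
-/

set_option autoImplicit false

open Classical

namespace Pool.Agent.Work.MP_f7ef37_lc.WR

open Pool.Agent.Work.MP_f7ef37_lc.OP

theorem HI2_of (hOR : StOR2) (hSD : StSD) (hEM : StEM) (hSP : StSP) (hRI : StRI) : StHI2 := by
  intro I J _ _ R q t b Lam lam B hR hJ hJI hb hbt htq hRq hLam hlam
    hq hB
  have hI : Nonempty I := Fintype.card_pos_iff.1 (lt_of_lt_of_le (by omega) hJI)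
  have hJ' : Nonempty J := Fintype.card_pos_iff.1 (by omega)
  obtain ⟨hB1, hB2, hB3⟩ := hB
  have hX : Nonempty (Fin q → I × J) := inferInstance
  have h8 : 8 * t * q ≤ Fintype.card J := by
    refine le_trans ?_ hRq
    have h1 : q ≤ R * q := Nat.le_mul_of_pos_left q (by omega)
    calc 8 * t * q ≤ 64 * t * q := Nat.mul_le_mul_right _ (Nat.mul_le_mul_right _ (by norm_num))
      _ ≤ 64 * t * (R * q) := Nat.mul_le_mul_left _ h1
  have hsp := hSP hSD hEM I J R q t b Lam lam B hJ hJI hb hbt hRq hLam hlam ⟨hB1, hB2, hB3⟩
  have hri := hRI (Fin q → I × J) R (fun r ω => HI_bad B r ω)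
    (fun r ω ω' h hb => HI_bad_congr B r ω ω' h hb) (by
      intro r ω
      have hu : ∀ x, used (Function.update ω r x) r.val = used ω r.val := by
        intro x
        refine HI_used_congr (fun k hk => ?_)
        rw [Function.update_of_ne]
        rintro rfl
        exact lt_irrefl _ hk
      by_cases hc : B.card ≤ 2 * (B.filter (fun S => ∀ v ∈ used ω r.val, ¬ Cov S v)).card
      · have h1 := hOR I J q t b Lam lam
          (B.filter (fun S => ∀ v ∈ used ω r.val, ¬ Cov S v)) (used ω r.val) hJ hJI hb hbt htq h8
          hLam hlam hq (fun S hS => hB1 S (Finset.mem_filter.1 hS).1)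
          (fun S hS => (Finset.mem_filter.1 hS).2) (by
            refine hB2.trans ?_
            exact_mod_cast hc) (by
            intro C hC hCb
            refine le_trans ?_ (hB3 C hC hCb)
            unfold dg
            exact_mod_cast Finset.card_le_card
              (Finset.filter_subset_filter _ (Finset.filter_subset _ _)))
        refine le_trans (pr_mono (fun x hx => ?_)) h1
        have h2 := hx.2
        rw [hu x, Function.update_self] at h2
        exact h2
      · rw [HI_pr_zero]
        · norm_num
        · intro x hx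
          have h2 := hx.1
          rw [hu x] at h2
          exact hc h2)
  refine le_trans (pr_mono (Q := fun ω : Fin R → Fin q → I × J => (∀ r, HI_bad B r ω) ∨
    B.card < 2 * (B.filter (fun S => ∃ v ∈ used ω R, Cov S v)).card) (fun ω hω => ?_))
    ((pr_or_le _ _).trans (add_le_add hri hsp))
  by_cases hs : B.card < 2 * (B.filter (fun S => ∃ v ∈ used ω R, Cov S v)).card
  · exact Or.inr hs
  · refine Or.inl (fun r => ⟨?_, ?_⟩)
    · have h1 := Finset.card_filter_add_card_filter_not (s := B)
        (fun S => ∃ v ∈ used ω R, Cov S v)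
      have h2 : (B.filter (fun S => ¬ ∃ v ∈ used ω R, Cov S v)).card ≤
          (B.filter (fun S => ∀ v ∈ used ω r.val, ¬ Cov S v)).card := by
        apply Finset.card_le_card
        intro S hS
        rw [Finset.mem_filter] at hS ⊢
        refine ⟨hS.1, fun v hv hc => hS.2 ⟨v, HI_used_mono ω r.2.le hv, hc⟩⟩
      omega
    · intro S hS hsub
      refine hω S (Finset.mem_filter.1 hS).1 ?_
      intro e he
      unfold rho
      rw [Finset.mem_filter]
      exact ⟨Finset.mem_univ _, r, hsub he⟩

end Pool.Agent.Work.MP_f7ef37_lc.WR
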