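import Pool.Agent.Work.MP_f7ef37_lc.WR.Stmts2
import Pool.Agent.Work.MP_f7ef37_lc.OP.Basic

/-!
# Block [f7ef37 WR], item HX: extension of positions
-/

set_option autoImplicit false

open Classical

namespace Pool.Agent.Work.MP_f7ef37_lc.WR

open Pool.Agent.Work.MP_f7ef37_lc.OP

variable {I J : Type} [Fintype I] [Fintype J]

private theorem HX_mem_cv (b : Finset (I × J)) (x : I ⊕ J) : x ∈ cv b ↔ Cov b x := by
  unfold cv
  rw [Finset.mem_filter]
  exact ⟨fun h => h.2, fun h => ⟨Finset.mem_univ _, h⟩⟩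

omit [Fintype I] [Fintype J] in
private theorem HX_cov_insert (b : Finset (I × J)) (i : I) (j : J) (x : I ⊕ J) :
    Cov (insert (i, j) b) x ↔ x = Sum.inl i ∨ x = Sum.inr j ∨ Cov b x := by
  constructor
  · rintro ⟨e, he, hx⟩
    rcases Finset.mem_insert.1 he with rfl | he
    · cases x with
      | inl i' => left; exact congrArg Sum.inl (show i' = i from hx.symm)
      | inr j' => right; left; exact congrArg Sum.inr (show j' = j from hx.symm)
    · exact Or.inr (Or.inr ⟨e, he, hx⟩)
  · rintro (rfl | rfl | ⟨e, he, hx⟩)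
    · exact ⟨(i, j), Finset.mem_insert_self _ _, rfl⟩
    · exact ⟨(i, j), Finset.mem_insert_self _ _, rfl⟩
    · exact ⟨e, Finset.mem_insert_of_mem he, hx⟩

private theorem HX_hal {V : Type} [Fintype V] {adj : V → V → Prop} {side : V → Bool}
    {Bd : Finset V} {r : ℕ} {W W' : Finset V} (h : Hal adj side Bd r W)
    (hW : ∀ x, x ∈ W ↔ x ∈ W') : Hal adj side Bd r W' := by
  have e : W = W' := Finset.ext hW
  rw [← e]
  exact h

private theorem HX_hal0 {V : Type} [Fintype V] {adj : V → V → Prop} {side : V → Bool}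
    {Bd : Finset V} {r : ℕ} {W : Finset V} (h : Exp2 adj side Bd r) (hW : ∀ x, x ∉ W) :
    Hal adj side Bd r W := by
  intro A hA hOs hAr
  have h2 := h A (fun x hx => (hA x hx).1) hOs hAr
  refine le_trans (show A.card ≤ (nb adj A).card by omega) (Finset.card_le_card ?_)
  intro y hy
  exact Finset.mem_filter.2 ⟨hy, hW y⟩

private theorem HX_ins {V : Type} (v u : V) (W : Finset V) (x : V) :
    x ∈ insert v (insert u W) ↔ x = v ∨ x = u ∨ x ∈ W := by
  rw [Finset.mem_insert, Finset.mem_insert]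

private theorem HX_card (b : Finset (I × J)) (c : Bool) :
    ((cv b).filter (fun x => Sum.isLeft x = c)).card ≤ b.card := by
  cases c with
  | true =>
    refine le_trans (Finset.card_le_card (t := b.image (fun e => (Sum.inl e.1 : I ⊕ J))) ?_)
      Finset.card_image_le
    intro x hx
    rw [Finset.mem_filter, HX_mem_cv] at hx
    obtain ⟨⟨e, he, hxe⟩, hs⟩ := hx
    cases x with
    | inl i => exact Finset.mem_image.2 ⟨e, he, congrArg Sum.inl (show e.1 = i from hxe)⟩
    | inr j => exact absurd hs (by simp)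
  | false =>
    refine le_trans (Finset.card_le_card (t := b.image (fun e => (Sum.inr e.2 : I ⊕ J))) ?_)
      Finset.card_image_le
    intro x hx
    rw [Finset.mem_filter, HX_mem_cv] at hx
    obtain ⟨⟨e, he, hxe⟩, hs⟩ := hx
    cases x with
    | inl i => exact absurd hs (by simp)
    | inr j => exact Finset.mem_image.2 ⟨e, he, congrArg Sum.inr (show e.2 = j from hxe)⟩

private theorem HX_adj {G ρ : Finset (I × J)} (hG : ∀ e ∈ G, NA ρ e) (x y : I ⊕ J)
    (h : Lk G x y) : Lk G y x ∧ Sum.isLeft x ≠ Sum.isLeft y ∧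
      x ∈ (Finset.univ.filter (fun v => ¬ Cov ρ v) : Finset (I ⊕ J)) := by
  cases x with
  | inl i =>
    cases y with
    | inl i' => exact absurd h id
    | inr j =>
      have hm : (i, j) ∈ G := h
      refine ⟨hm, by simp, ?_⟩
      rw [Finset.mem_filter]
      refine ⟨Finset.mem_univ _, ?_⟩
      rintro ⟨e, he, hxe⟩
      exact hG _ hm e he (Or.inl hxe)
  | inr j =>
    cases y with
    | inl i =>
      have hm : (i, j) ∈ G := h
      refine ⟨hm, by simp, ?_⟩
      rw [Finset.mem_filter]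
      refine ⟨Finset.mem_univ _, ?_⟩
      rintro ⟨e, he, hxe⟩
      exact hG _ hm e he (Or.inr hxe)
    | inr j' => exact absurd h id

/-- adding the edge `(i, j)` -/
private theorem HX_add {G ρ : Finset (I × J)} {r : ℕ} {b : Finset (I × J)} (hb : Hm G ρ r b)
    {i : I} {j : J} (hm : (i, j) ∈ G) (h1 : ¬ Cov b (Sum.inl i)) (h2 : ¬ Cov b (Sum.inr j))
    {W : Finset (I ⊕ J)} (hW : ∀ x, x ∈ W ↔ x = Sum.inl i ∨ x = Sum.inr j ∨ Cov b x)
    (hal : Hal (Lk G) Sum.isLeft (Finset.univ.filter (fun v => ¬ Cov ρ v)) r W) :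
    NA b (i, j) ∧ Hm G ρ r (insert (i, j) b) := by
  have hna : NA b (i, j) := by
    intro e he hadj
    rcases hadj with h | h
    · exact h1 ⟨e, he, h⟩
    · exact h2 ⟨e, he, h⟩
  refine ⟨hna, ?_, Mat.insert hb.2.1 hna, ?_⟩
  · intro e he
    rcases Finset.mem_insert.1 he with rfl | he
    · exact hm
    · exact hb.1 he
  · refine HX_hal hal (fun x => ?_)
    rw [hW, HX_mem_cv, HX_cov_insert]

theorem prHX : StHX := by
  intro hGL hGX I J _ _ G ρ r hG hE
  refine ⟨⟨Finset.empty_subset _, mat_empty, ?_⟩, ?_⟩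
  · refine HX_hal0 hE (fun y hc => ?_)
    rw [HX_mem_cv] at hc
    obtain ⟨f, hf, -⟩ := hc
    exact absurd hf (Finset.notMem_empty f)
  · intro b v hb hr hv hbv
    obtain ⟨u, hu, huW, hal⟩ := hGX hGL (I ⊕ J) (Lk G) Sum.isLeft
      (Finset.univ.filter (fun v => ¬ Cov ρ v)) r b.card (cv b) v (HX_adj hG) hE hb.2.2
      (HX_card b) hr (Finset.mem_filter.2 ⟨Finset.mem_univ _, hv⟩)
      (fun h => hbv ((HX_mem_cv b v).1 h))
    have hbu : ¬ Cov b u := fun h => huW ((HX_mem_cv b u).2 h)
    cases v with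
    | inl i =>
      cases u with
      | inl i' => exact absurd hu id
      | inr j =>
        have hm : (i, j) ∈ G := hu
        obtain ⟨h1, h2⟩ := HX_add hb hm hbv hbu (by
          intro x
          refine (HX_ins (Sum.inl i) (Sum.inr j) (cv b) x).trans ?_
          rw [HX_mem_cv]) hal
        exact ⟨(i, j), hm, rfl, h1, h2⟩
    | inr j =>
      cases u with
      | inl i =>
        have hm : (i, j) ∈ G := hu
        obtain ⟨h1, h2⟩ := HX_add hb hm hbu hbv (by
          intro x
          refine (HX_ins (Sum.inr j) (Sum.inl i) (cv b) x).trans ?_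
          rw [HX_mem_cv]
          tauto) hal
        exact ⟨(i, j), hm, rfl, h1, h2⟩
      | inr j' => exact absurd hu id

end Pool.Agent.Work.MP_f7ef37_lc.WR
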