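import Pool.Agent.Work.MP_f7ef37_lc.WR.Stmts3

/-!
# Block [f7ef37 WR], uniform version of item NA: first half of the numbers (adapted from
helper59's proof)
-/

set_option autoImplicit false

open Classical

namespace Pool.Agent.Work.MP_f7ef37_lc.WR

private theorem NA2_half (t R : ℕ) (L E : ℝ) (hE : E = Real.exp L)
    (_hL0 : 0 < L) (hR1 : (8 * (t : ℝ) + 10) * L ≤ R) :
    Real.exp (-((R : ℝ) * Real.log 2)) = (1 / 2 : ℝ) ^ R ∧
      (1 / 2 : ℝ) ^ R ≤ (E ^ (4 * t + 5))⁻¹ := by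
  have h1 : Real.exp (-((R : ℝ) * Real.log 2)) = (1 / 2 : ℝ) ^ R := by
    rw [Real.exp_neg, Real.exp_nat_mul, Real.exp_log (by norm_num), one_div, inv_pow]
  refine ⟨h1, ?_⟩
  rw [← h1, Real.exp_neg, hE, ← Real.exp_nat_mul]
  apply inv_anti₀ (Real.exp_pos _)
  apply Real.exp_le_exp.2
  have h2 : (1 / 2 : ℝ) ≤ Real.log 2 := by linarith [Real.log_two_gt_d9]
  have h3 : (8 * (t : ℝ) + 10) * L * (1 / 2) ≤ R * Real.log 2 :=
    mul_le_mul hR1 h2 (by norm_num) (Nat.cast_nonneg _)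
  push_cast
  linarith

private theorem NA2_un1 (t : ℕ) (K X E P Q : ℝ) (hK0 : 0 ≤ K) (hX0 : 0 ≤ X)
    (hE2 : 2 ≤ E) (hK : K ≤ E ^ 2) (hX : X ≤ E ^ 4) (_hP0 : 0 ≤ P)
    (hP : P ≤ (E ^ (4 * t + 5))⁻¹) (hQ : Q ≤ P) :
    K * X ^ t * (P + Q) ≤ 1 / 4 := by
  have hE0 : 0 < E := by linarith
  have h1 : K * X ^ t ≤ E ^ 2 * (E ^ 4) ^ t :=
    mul_le_mul hK (pow_le_pow_left₀ hX0 hX t) (by positivity) (by positivity)
  have h2 : P + Q ≤ 2 * (E ^ (4 * t + 5))⁻¹ := by linarith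
  have h3 : K * X ^ t * (P + Q) ≤ K * X ^ t * (2 * (E ^ (4 * t + 5))⁻¹) :=
    mul_le_mul_of_nonneg_left h2 (by positivity)
  have h4 : K * X ^ t * (2 * (E ^ (4 * t + 5))⁻¹) ≤
      E ^ 2 * (E ^ 4) ^ t * (2 * (E ^ (4 * t + 5))⁻¹) :=
    mul_le_mul_of_nonneg_right h1 (by positivity)
  have h5 : E ^ 2 * (E ^ 4) ^ t * (2 * (E ^ (4 * t + 5))⁻¹) = 2 * (E ^ 3)⁻¹ := by
    have e : E ^ (4 * t + 5) = E ^ 2 * (E ^ 4) ^ t * E ^ 3 := by
      rw [← pow_mul]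
      ring
    rw [e, mul_inv]
    field_simp
  have h6 : (E ^ 3)⁻¹ ≤ 1 / 8 := by
    rw [inv_le_comm₀ (by positivity) (by norm_num)]
    have : (2 : ℝ) ^ 3 ≤ E ^ 3 := pow_le_pow_left₀ (by norm_num) hE2 3
    norm_num at this ⊢
    exact this
  linarith

private theorem NA2_un2 (t : ℕ) (K E P : ℝ) (hK0 : 0 ≤ K)
    (hE2 : 2 ≤ E) (hK : K ≤ E ^ 2)
    (hP : P ≤ (E ^ (4 * t + 5))⁻¹) :
    K * ((t : ℝ) + 1) * P ≤ 1 / 4 := by
  have hE0 : 0 < E := by linarith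
  have h0 : ((t : ℝ) + 1) ≤ E ^ t := by
    have h1 : t + 1 ≤ 2 ^ t := Nat.lt_two_pow_self
    have h2 : ((t : ℝ) + 1) ≤ 2 ^ t := by exact_mod_cast h1
    exact h2.trans (pow_le_pow_left₀ (by norm_num) hE2 t)
  have h1 : K * ((t : ℝ) + 1) ≤ E ^ 2 * E ^ t :=
    mul_le_mul hK h0 (by positivity) (by positivity)
  have h3 : K * ((t : ℝ) + 1) * P ≤ K * ((t : ℝ) + 1) * (E ^ (4 * t + 5))⁻¹ :=
    mul_le_mul_of_nonneg_left hP (by positivity)
  have h4 : K * ((t : ℝ) + 1) * (E ^ (4 * t + 5))⁻¹ ≤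
      E ^ 2 * E ^ t * (E ^ (4 * t + 5))⁻¹ :=
    mul_le_mul_of_nonneg_right h1 (by positivity)
  have h5 : E ^ 2 * E ^ t * (E ^ (4 * t + 5))⁻¹ = (E ^ (3 * t + 3))⁻¹ := by
    have e : E ^ (4 * t + 5) = E ^ 2 * E ^ t * E ^ (3 * t + 3) := by ring
    rw [e, mul_inv]
    field_simp
  have h6 : (E ^ (3 * t + 3))⁻¹ ≤ 1 / 8 := by
    rw [inv_le_comm₀ (by positivity) (by norm_num)]
    have h7 : (2 : ℝ) ^ 3 ≤ E ^ 3 := pow_le_pow_left₀ (by norm_num) hE2 3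
    have h8 : E ^ 3 ≤ E ^ (3 * t + 3) := pow_le_pow_right₀ (by linarith) (by omega)
    norm_num at h7 ⊢
    linarith
  linarith

theorem prNA2 : StNA2 := by
  refine ⟨4000, by norm_num, ?_⟩
  intro t ht n m K L C' hC' hn hnm hlL hpow hK
  have htR : (1 : ℝ) ≤ t := by exact_mod_cast ht
  obtain ⟨C, hCdef⟩ : ∃ C : ℝ, C = C' * (t : ℝ) ^ 3 := ⟨_, rfl⟩
  rw [← hCdef] at hpow
  have hC : 4000 * (t : ℝ) ^ 3 ≤ C := by
    rw [hCdef]
    exact mul_le_mul_of_nonneg_right hC' (by positivity)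
  have hn2 : (2 : ℝ) ≤ n := by exact_mod_cast hn
  have hn0 : (0 : ℝ) < n := by linarith
  have hnm' : (n : ℝ) ≤ m := by exact_mod_cast hnm
  have hl2 := Real.log_two_gt_d9
  have hlog2 : Real.log 2 ≤ Real.log n := Real.log_le_log (by norm_num) hn2
  set l : ℝ := Real.log n with hl
  have hl69 : (0.69 : ℝ) ≤ l := by norm_num at hl2 ⊢; linarith
  have hL69 : (0.69 : ℝ) ≤ L := hl69.trans hlL
  have hL0 : 0 < L := by linarith
  have hl0 : 0 < l := by linarith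
  have hrat : 1 ≤ (m : ℝ) / n := (one_le_div hn0).2 hnm'
  have ht3 : (1 : ℝ) ≤ (t : ℝ) ^ 3 := one_le_pow₀ htR
  have hC4 : (4000 : ℝ) ≤ C := by linarith
  have hC0 : 0 < C := by linarith
  -- the products
  have hCL : 4000 * (t : ℝ) ^ 3 * L ≤ C * L := mul_le_mul_of_nonneg_right hC hL0.le
  have hCLl : 4000 * (t : ℝ) ^ 3 * L * 0.69 ≤ C * L * l :=
    mul_le_mul hCL hl69 (by norm_num) (by positivity)
  have hL3 : (0.69 : ℝ) ≤ (t : ℝ) ^ 3 * L := by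
    have : 1 * L ≤ (t : ℝ) ^ 3 * L := mul_le_mul_of_nonneg_right ht3 hL0.le
    linarith
  have hA1 : 1 ≤ C * L * l := by
    have : 4000 * (t : ℝ) ^ 3 * L * 0.69 = 2760 * ((t : ℝ) ^ 3 * L) := by ring
    rw [this] at hCLl
    linarith
  have hAB : C * L * l ≤ C * L * l * ((m : ℝ) / n) :=
    le_mul_of_one_le_right (by linarith) hrat
  have hAn : C * L * l * ((m : ℝ) / n) ≤ n :=
    (le_self_pow₀ (hA1.trans hAB) (by omega)).trans hpow
  have ha : C * L * l ≤ n := hAB.trans hAn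
  have hmn : (m : ℝ) ≤ n * n := by
    have h1 : (m : ℝ) / n ≤ C * L * l * ((m : ℝ) / n) :=
      le_mul_of_one_le_left (by linarith) hA1
    exact (div_le_iff₀ hn0).1 (h1.trans hAn)
  have hn2760 : 2760 * ((t : ℝ) ^ 3 * L) ≤ n := by
    have : 4000 * (t : ℝ) ^ 3 * L * 0.69 = 2760 * ((t : ℝ) ^ 3 * L) := by ring
    rw [this] at hCLl
    linarith
  have hn2560 : 2560 * ((t : ℝ) ^ 4 * L) ≤ n := by
    rcases Nat.lt_or_ge t 2 with h2 | h2
    · have ht1 : t = 1 := by omega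
      rw [ht1] at hn2760 ⊢
      norm_num at hn2760 ⊢
      linarith
    · have hbase : 1 ≤ C * L * l * ((m : ℝ) / n) := hA1.trans hAB
      have h3 : (C * L * l * ((m : ℝ) / n)) ^ 2 ≤ n :=
        (pow_le_pow_right₀ hbase h2).trans hpow
      have h4 : 2760 * ((t : ℝ) ^ 3 * L) ≤ C * L * l * ((m : ℝ) / n) := by
        have : 4000 * (t : ℝ) ^ 3 * L * 0.69 = 2760 * ((t : ℝ) ^ 3 * L) := by ring
        rw [this] at hCLl
        linarith
      have h5 : (2760 * ((t : ℝ) ^ 3 * L)) ^ 2 ≤ n :=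
        (pow_le_pow_left₀ (by positivity) h4 2).trans h3
      have h6 : (2760 * ((t : ℝ) ^ 3 * L)) ^ 2 = 7617600 * ((t : ℝ) ^ 4 * L) * ((t : ℝ) ^ 2 * L) := by
        ring
      have h7 : (0.69 : ℝ) ≤ (t : ℝ) ^ 2 * L := by
        have : 1 * L ≤ (t : ℝ) ^ 2 * L := mul_le_mul_of_nonneg_right (one_le_pow₀ htR) hL0.le
        linarith
      have h8 : 0 ≤ (t : ℝ) ^ 4 * L := by positivity
      have h9 : 7617600 * ((t : ℝ) ^ 4 * L) * 0.69 ≤
          7617600 * ((t : ℝ) ^ 4 * L) * ((t : ℝ) ^ 2 * L) :=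
        mul_le_mul_of_nonneg_left h7 (by positivity)
      linarith
  -- R
  obtain ⟨R, hRdef⟩ : ∃ R : ℕ, R = ⌈(8 * (t : ℝ) + 10) * L⌉₊ := ⟨_, rfl⟩
  have hR1 : (8 * (t : ℝ) + 10) * L ≤ R := by rw [hRdef]; exact Nat.le_ceil _
  have hR2 : (R : ℝ) < (8 * (t : ℝ) + 10) * L + 1 := by
    rw [hRdef]
    exact Nat.ceil_lt_add_one (by positivity)
  have hR3 : (R : ℝ) ≤ (8 * t + 12) * L := by
    have : (8 * (t : ℝ) + 12) * L = (8 * (t : ℝ) + 10) * L + 2 * L := by ring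
    rw [this]
    linarith
  have hRpos : 1 ≤ R := by
    rw [hRdef]
    exact Nat.one_le_ceil_iff.2 (by positivity)
  have hRR : (1 : ℝ) ≤ R := by exact_mod_cast hRpos
  -- q
  obtain ⟨q, hqdef⟩ : ∃ q : ℕ, q = n / (64 * t * R) := ⟨_, rfl⟩
  have hbpos : 0 < 64 * t * R := by positivity
  have hq1 : 2 * t ^ 2 ≤ q := by
    rw [hqdef, Nat.le_div_iff_mul_le hbpos]
    have h1 : ((2 * t ^ 2 * (64 * t * R) : ℕ) : ℝ) ≤ n := by
      push_cast
      have e1 : 2 * (t : ℝ) ^ 2 * (64 * t * R) = 128 * (t : ℝ) ^ 3 * R := by ring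
      have e2 : 128 * (t : ℝ) ^ 3 * R ≤ 128 * (t : ℝ) ^ 3 * ((8 * t + 12) * L) :=
        mul_le_mul_of_nonneg_left hR3 (by positivity)
      have e3 : (8 * (t : ℝ) + 12) * L ≤ 20 * t * L :=
        mul_le_mul_of_nonneg_right (by linarith) hL0.le
      have e4 : 128 * (t : ℝ) ^ 3 * ((8 * t + 12) * L) ≤ 128 * (t : ℝ) ^ 3 * (20 * t * L) :=
        mul_le_mul_of_nonneg_left e3 (by positivity)
      have e5 : 128 * (t : ℝ) ^ 3 * (20 * t * L) = 2560 * ((t : ℝ) ^ 4 * L) := by ring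
      linarith
    exact_mod_cast h1
  have hq2 : 64 * t * (R * q) ≤ n := by
    have h1 : n / (64 * t * R) * (64 * t * R) ≤ n := Nat.div_mul_le_self _ _
    rw [← hqdef] at h1
    calc 64 * t * (R * q) = q * (64 * t * R) := by ring
      _ ≤ n := h1
  have hq3 : (n : ℝ) ≤ 128 * t * R * q := by
    have h1 : n < 64 * t * R * (n / (64 * t * R) + 1) := Nat.lt_mul_div_succ n hbpos
    rw [← hqdef] at h1
    have h2 : n ≤ 64 * t * R * (q + 1) := h1.le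
    have htt : t ≤ t ^ 2 := Nat.le_self_pow (by norm_num) t
    have h3 : q + 1 ≤ 2 * q := by omega
    have h4 : n ≤ 64 * t * R * (2 * q) := h2.trans (Nat.mul_le_mul_left _ h3)
    have h5 : n ≤ 128 * t * R * q := by
      calc n ≤ 64 * t * R * (2 * q) := h4
        _ = 128 * t * R * q := by ring
    exact_mod_cast h5
  -- g
  obtain ⟨g, hgdef⟩ : ∃ g : ℕ, g = ⌊(n : ℝ) / (20 * l)⌋₊ := ⟨_, rfl⟩
  have hn40 : 40 * l ≤ n := by
    have h1 : 40 * l ≤ C * L * l := by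
      apply mul_le_mul_of_nonneg_right _ hl0.le
      have : (4000 : ℝ) * 0.69 ≤ C * L := mul_le_mul hC4 hL69 (by norm_num) hC0.le
      norm_num at this ⊢
      linarith
    linarith
  have hg2 : 2 ≤ g := by
    rw [hgdef]
    apply Nat.le_floor
    rw [le_div_iff₀ (by positivity)]
    push_cast
    linarith
  have hg2R : (2 : ℝ) ≤ g := by exact_mod_cast hg2
  have hg0 : (0 : ℝ) < g := by linarith
  have hgn : (g : ℝ) ≤ (n : ℝ) / (20 * l) := by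
    rw [hgdef]
    exact Nat.floor_le (by positivity)
  have hgn' : (g : ℝ) * (20 * l) ≤ n := (le_div_iff₀ (by positivity)).1 hgn
  have hgle : g ≤ n := by
    have h1 : (g : ℝ) ≤ n := by
      have : (g : ℝ) * 1 ≤ g * (20 * l) := mul_le_mul_of_nonneg_left (by linarith) hg0.le
      linarith
    exact_mod_cast h1
  have hg3 : (n : ℝ) ≤ 40 * l * g := by
    have h1 : (n : ℝ) / (20 * l) < g + 1 := by
      rw [hgdef]
      exact Nat.lt_floor_add_one _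
    rw [div_lt_iff₀ (by positivity)] at h1
    have h2 : ((g : ℝ) + 1) * (20 * l) ≤ (2 * g) * (20 * l) :=
      mul_le_mul_of_nonneg_right (by linarith) (by positivity)
    linarith
  -- the exponential
  have hnE : (n : ℝ) ≤ Real.exp L := by
    rw [← Real.log_le_iff_le_exp hn0]
    exact hlL
  have hE2 : 2 ≤ Real.exp L := hn2.trans hnE
  have hKE : (K : ℝ) ≤ Real.exp L ^ 2 := by
    rw [← Real.exp_nat_mul]
    push_cast
    exact hK
  have hn4 : (m : ℝ) * n + 1 ≤ (n : ℝ) ^ 4 := by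
    have h1 : (m : ℝ) * n ≤ n * n * n := mul_le_mul_of_nonneg_right hmn hn0.le
    have h2 : (1 : ℝ) ≤ n * n * n := by
      have : (1 : ℝ) ≤ (n : ℝ) ^ 3 := one_le_pow₀ (by linarith)
      calc (1 : ℝ) ≤ (n : ℝ) ^ 3 := this
        _ = n * n * n := by ring
    have h3 : 2 * ((n : ℝ) * n * n) ≤ n * ((n : ℝ) * n * n) :=
      mul_le_mul_of_nonneg_right hn2 (by positivity)
    calc (m : ℝ) * n + 1 ≤ 2 * ((n : ℝ) * n * n) := by linarith
      _ ≤ n * ((n : ℝ) * n * n) := h3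
      _ = (n : ℝ) ^ 4 := by ring
  have hXE : (m : ℝ) * n + 1 ≤ Real.exp L ^ 4 :=
    hn4.trans (pow_le_pow_left₀ hn0.le hnE 4)
  obtain ⟨hhalf, hhalf2⟩ := NA2_half t R L (Real.exp L) rfl hL0 hR1
  refine ⟨R, q, g, 8192 * (t : ℝ) ^ 2 * R, hRpos, hR3, hq1, hq2, rfl, ?_, hg2, hgle,
    hg3, ?_, ?_, ?_⟩
  · -- 64 t n ≤ q Lam
    have h1 : 64 * (t : ℝ) * n ≤ 64 * (t : ℝ) * (128 * t * R * q) :=
      mul_le_mul_of_nonneg_left hq3 (by positivity)
    calc 64 * (t : ℝ) * n ≤ 64 * (t : ℝ) * (128 * t * R * q) := h1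
      _ = q * (8192 * (t : ℝ) ^ 2 * R) := by ring
  · -- the power
    intro k hk
    have hkR : (n : ℝ) ≤ 2 * k := by exact_mod_cast hk
    have h1 : (1 - 1 / (g : ℝ)) ≤ Real.exp (-(1 / (g : ℝ))) := by
      have := Real.add_one_le_exp (-(1 / (g : ℝ)))
      linarith
    have h0 : 0 ≤ 1 - 1 / (g : ℝ) := by
      have : 1 / (g : ℝ) ≤ 1 := by
        rw [div_le_one hg0]
        linarith
      linarith
    have h2 : (1 - 1 / (g : ℝ)) ^ k ≤ Real.exp (-(10 * l)) := by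
      refine (pow_le_pow_left₀ h0 h1 k).trans ?_
      rw [← Real.exp_nat_mul]
      apply Real.exp_le_exp.2
      have h3 : 10 * l ≤ k * (1 / (g : ℝ)) := by
        rw [mul_one_div, le_div_iff₀ hg0]
        linarith
      linarith
    refine h2.trans ?_
    have h4 : Real.exp (-(10 * l)) = ((n : ℝ) ^ 10)⁻¹ := by
      rw [Real.exp_neg]
      congr 1
      have : (10 * l) = ((10 : ℕ) : ℝ) * l := by norm_num
      rw [this, Real.exp_nat_mul, hl, Real.exp_log hn0]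
    rw [h4, one_div]
    have hm0 : (0 : ℝ) < m := by linarith
    apply inv_anti₀ (by positivity)
    have h5 : (m : ℝ) ^ 2 ≤ (n * n) ^ 2 := pow_le_pow_left₀ hm0.le hmn 2
    have h6 : 16 * (m : ℝ) ^ 2 * n ^ 2 ≤ 16 * (n * n) ^ 2 * (n : ℝ) ^ 2 :=
      mul_le_mul_of_nonneg_right (mul_le_mul_of_nonneg_left h5 (by norm_num)) (by positivity)
    have h7 : (16 : ℝ) ≤ (n : ℝ) ^ 4 := by
      calc (16 : ℝ) = 2 ^ 4 := by norm_num
        _ ≤ (n : ℝ) ^ 4 := pow_le_pow_left₀ (by norm_num) hn2 4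
    calc 16 * (m : ℝ) ^ 2 * n ^ 2 ≤ 16 * (n * n) ^ 2 * (n : ℝ) ^ 2 := h6
      _ = 16 * (n : ℝ) ^ 6 := by ring
      _ ≤ (n : ℝ) ^ 4 * (n : ℝ) ^ 6 := mul_le_mul_of_nonneg_right h7 (by positivity)
      _ = (n : ℝ) ^ 10 := by ring
  · -- un1
    refine NA2_un1 t K ((m : ℝ) * n + 1) (Real.exp L) ((1 / 2) ^ R) _ (Nat.cast_nonneg _)
      (by positivity) hE2 hKE hXE (by positivity) hhalf2 ?_
    rw [← hhalf]
    apply Real.exp_le_exp.2
    have h1 : Real.log 2 ≤ 1 := by linarith [Real.log_two_lt_d9]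
    have h2 : (R : ℝ) * Real.log 2 ≤ R * 1 := mul_le_mul_of_nonneg_left h1 (by positivity)
    have h3 : (1 : ℝ) ≤ (t : ℝ) ^ 2 := one_le_pow₀ htR
    have h4 : 1 * (R : ℝ) ≤ (t : ℝ) ^ 2 * R :=
      mul_le_mul_of_nonneg_right h3 (by positivity)
    have h5 : 7 * (8192 * (t : ℝ) ^ 2 * R) / 32 = 1792 * ((t : ℝ) ^ 2 * R) := by
      ring
    rw [h5]
    linarith
  · exact NA2_un2 t K (Real.exp L) ((1 / 2) ^ R) (Nat.cast_nonneg _) hE2 hKE hhalf2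

end Pool.Agent.Work.MP_f7ef37_lc.WR
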