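import Pool.Agent.Work.MP_f7ef37_lc.WR.Stmts2

/-!
# The numbers of the block [f7ef37 WR], second half: the bound `w`
-/

set_option autoImplicit false

open Classical

namespace Pool.Agent.Work.MP_f7ef37_lc.WR

open Pool.Agent.Work.MP_f7ef37_lc.OP

theorem prNB : StNB := by
  intro t ht
  have hT : (1 : ℝ) ≤ (t : ℝ) := by exact_mod_cast ht
  have hT0 : (0 : ℝ) ≤ (t : ℝ) := by linarith
  have hT2 : (1 : ℝ) ≤ (t : ℝ) ^ 2 := one_le_pow₀ hT
  have h2t : (1 : ℝ) ≤ 2 ^ t := one_le_pow₀ (by norm_num)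
  set E : ℝ := 2 * (t : ℝ) + 80 * 4096 * (t : ℝ) ^ 2 * 2 ^ t with hE
  have hE1 : 1 ≤ E := by
    have h1 : 0 ≤ 80 * 4096 * (t : ℝ) ^ 2 * 2 ^ t := by positivity
    rw [hE]
    linarith
  set C1 : ℝ := (8 * (t : ℝ) + 12) * E with hC1
  have hC11 : 1 ≤ C1 := by
    rw [hC1]
    exact one_le_mul_of_one_le_of_one_le (by linarith) hE1
  set D : ℝ := 1000 * (t : ℝ) ^ 2 with hD
  have hD1 : 1000 ≤ D := by rw [hD]; linarith
  have hD0 : 0 < D := by linarith
  refine ⟨D * C1, by positivity, ?_⟩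
  intro n m R g L C Lam hC hn hnm hL hCn hR hLam hng hg
  have hn2 : (2 : ℝ) ≤ (n : ℝ) := by exact_mod_cast hn
  have hn0 : (0 : ℝ) < (n : ℝ) := by linarith
  have hmn : (n : ℝ) ≤ (m : ℝ) := by exact_mod_cast hnm
  have hg1 : (1 : ℝ) ≤ (g : ℝ) := by exact_mod_cast hg
  have hg0 : (0 : ℝ) < (g : ℝ) := by linarith
  have hR0 : (0 : ℝ) ≤ (R : ℝ) := Nat.cast_nonneg R
  have hm0 : (0 : ℝ) ≤ (m : ℝ) := Nat.cast_nonneg m
  set l : ℝ := Real.log n with hl
  set x : ℝ := (m : ℝ) / n with hx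
  have hl2 : 0.69 ≤ l := by
    have h1 : Real.log 2 ≤ Real.log n := Real.log_le_log (by norm_num) hn2
    have h2 := Real.log_two_gt_d9
    rw [hl]
    linarith
  have hl0 : 0 ≤ l := by linarith
  have hL0 : 0 ≤ L := by linarith
  have hx1 : 1 ≤ x := by
    rw [hx, le_div_iff₀ hn0]
    linarith
  have hx0 : 0 ≤ x := by linarith
  have hlx0 : 0 ≤ l * x := mul_nonneg hl0 hx0
  -- the main quantity
  set z : ℝ := L * l * x with hz
  have hz0 : 0 ≤ z := by positivity
  have hz1 : 0.47 ≤ z := by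
    have h1 : 0.69 * 0.69 ≤ L * l := mul_le_mul (by linarith) hl2 (by norm_num) hL0
    have h2 : L * l * 1 ≤ L * l * x := mul_le_mul_of_nonneg_left hx1 (by positivity)
    rw [hz]
    linarith
  -- bound of `y`
  set y : ℝ := (t : ℝ) * R + 2 / (g : ℝ) * (Lam * m) with hy
  have hLam0 : 0 ≤ Lam := by rw [hLam]; positivity
  have hy0 : 0 ≤ y := by rw [hy]; positivity
  have hy1 : y ≤ C1 * z := by
    have h1 : 2 / (g : ℝ) ≤ 80 * l / n := by
      rw [div_le_div_iff₀ hg0 hn0]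
      linarith
    have h2 : 2 / (g : ℝ) * (Lam * m) ≤ 80 * l / n * (Lam * m) :=
      mul_le_mul_of_nonneg_right h1 (by positivity)
    have h3 : 80 * l / n * (Lam * m) = 80 * (l * x) * Lam := by
      rw [hx]
      field_simp
    have h4 : (1 : ℝ) ≤ 2 * (l * x) := by
      have h5 : l * 1 ≤ l * x := mul_le_mul_of_nonneg_left hx1 hl0
      linarith
    have h5 : (t : ℝ) * R ≤ (t : ℝ) * R * (2 * (l * x)) := by
      have h6 : (t : ℝ) * R * 1 ≤ (t : ℝ) * R * (2 * (l * x)) :=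
        mul_le_mul_of_nonneg_left h4 (by positivity)
      linarith
    have h6 : y ≤ R * (l * x * E) := by
      have h7 : R * (l * x * E) = (t : ℝ) * R * (2 * (l * x)) + 80 * (l * x) * Lam := by
        rw [hE, hLam]
        ring
      rw [h7, hy]
      linarith
    have h7 : (R : ℝ) * (l * x * E) ≤ (8 * (t : ℝ) + 12) * L * (l * x * E) :=
      mul_le_mul_of_nonneg_right hR (by positivity)
    have h8 : (8 * (t : ℝ) + 12) * L * (l * x * E) = C1 * z := by
      rw [hC1, hz]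
      ring
    linarith
  -- powers
  have hCz : D * (C1 * z) ≤ C * z := by
    have h1 : D * C1 * z ≤ C * z := mul_le_mul_of_nonneg_right hC hz0
    linarith [mul_assoc D C1 z]
  have hCn' : (C * z) ^ t ≤ n := by
    have h1 : C * L * l * x = C * z := by
      rw [hz]
      ring
    rw [← h1]
    exact hCn
  have hC1z : 0 ≤ C1 * z := by positivity
  have h470 : 470 ≤ C * z := by
    have h1 : 1 * 0.47 ≤ C1 * z := mul_le_mul hC11 hz1 (by norm_num) (by linarith)
    have h2 : 1000 * (1 * 0.47) ≤ D * (C1 * z) := mul_le_mul hD1 h1 (by norm_num) (by linarith)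
    linarith
  have hnR : (470 : ℝ) ≤ n := by
    have h1 : C * z ≤ (C * z) ^ t := le_self_pow₀ (by linarith) (by omega)
    linarith
  have hnN : 470 ≤ n := by exact_mod_cast hnR
  have hpow : D * (C1 * z) ^ t ≤ n := by
    have h1 : D ≤ D ^ t := le_self_pow₀ (by linarith) (by omega)
    have h2 : D * (C1 * z) ^ t ≤ D ^ t * (C1 * z) ^ t :=
      mul_le_mul_of_nonneg_right h1 (by positivity)
    have h3 : D ^ t * (C1 * z) ^ t = (D * (C1 * z)) ^ t := (mul_pow _ _ _).symm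
    have h4 : (D * (C1 * z)) ^ t ≤ (C * z) ^ t :=
      pow_le_pow_left₀ (by positivity) hCz t
    linarith
  have hfin : 4 * (t : ℝ) ^ 2 * y ^ t ≤ n / 250 := by
    have h1 : y ^ t ≤ (C1 * z) ^ t := pow_le_pow_left₀ hy0 hy1 t
    have h2 : D * y ^ t ≤ D * (C1 * z) ^ t := mul_le_mul_of_nonneg_left h1 hD0.le
    have h3 : D * y ^ t = 250 * (4 * (t : ℝ) ^ 2 * y ^ t) := by
      rw [hD]
      ring
    linarith
  refine ⟨n / 250 + 1, by omega, by omega, ?_⟩
  have h1 : (n : ℝ) / 250 ≤ ((n / 250 + 1 : ℕ) : ℝ) := by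
    rw [div_le_iff₀ (by norm_num)]
    have h2 : n ≤ (n / 250 + 1) * 250 := by omega
    exact_mod_cast h2
  exact hfin.trans h1

end Pool.Agent.Work.MP_f7ef37_lc.WR
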