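import Pool.Agent.Work.MP_f7ef37_lc.WR.Stmts3

/-!
# The numbers of the block [f7ef37 WR], second half: the bound `w`, uniform version (adapted
from helper69's proof)
-/

set_option autoImplicit false

open Classical

namespace Pool.Agent.Work.MP_f7ef37_lc.WR

open Pool.Agent.Work.MP_f7ef37_lc.OP

theorem prNB2 : StNB2 := by
  set C1 : ℝ := 13107240 with hC1
  refine ⟨4000 * C1, by positivity, ?_⟩
  intro t ht n m R g L C Lam hC hn hnm hL hCn hR hLam hng hg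
  have hT : (1 : ℝ) ≤ (t : ℝ) := by exact_mod_cast ht
  have hT0 : (0 : ℝ) ≤ (t : ℝ) := by linarith
  have hT2 : (t : ℝ) ≤ (t : ℝ) ^ 2 := le_self_pow₀ hT (by norm_num)
  have hT3 : (1 : ℝ) ≤ (t : ℝ) ^ 3 := one_le_pow₀ hT
  have hn2 : (2 : ℝ) ≤ (n : ℝ) := by exact_mod_cast hn
  have hn0 : (0 : ℝ) < (n : ℝ) := by linarith
  have hmn : (n : ℝ) ≤ (m : ℝ) := by exact_mod_cast hnm
  have hg1 : (1 : ℝ) ≤ (g : ℝ) := by exact_mod_cast hg
  have hg0 : (0 : ℝ) < (g : ℝ) := by linarith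
  have hR0 : (0 : ℝ) ≤ (R : ℝ) := Nat.cast_nonneg R
  have hm0 : (0 : ℝ) ≤ (m : ℝ) := Nat.cast_nonneg m
  set l : ℝ := Real.log n with hl
  set x : ℝ := (m : ℝ) / n with hx
  have hl2 : 0.69 ≤ l := by
    have h1 : Real.log 2 ≤ Real.log n := Real.log_le_log (by norm_num) hn2
    have h2 := Real.log_two_gt_d9
    rw [hl]
    linarith
  have hl0 : 0 ≤ l := by linarith
  have hL0 : 0 ≤ L := by linarith
  have hx1 : 1 ≤ x := by
    rw [hx, le_div_iff₀ hn0]
    linarith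
  have hx0 : 0 ≤ x := by linarith
  have hlx0 : 0 ≤ l * x := mul_nonneg hl0 hx0
  -- the main quantity
  obtain ⟨z, hz⟩ : ∃ z : ℝ, z = (t : ℝ) ^ 3 * (L * l * x) := ⟨_, rfl⟩
  have hz0 : 0 ≤ z := by rw [hz]; positivity
  have hz1 : 0.47 ≤ z := by
    have h1 : 0.69 * 0.69 ≤ L * l := mul_le_mul (by linarith) hl2 (by norm_num) hL0
    have h2 : L * l * 1 ≤ L * l * x := mul_le_mul_of_nonneg_left hx1 (by positivity)
    have h3 : 1 * (L * l * x) ≤ (t : ℝ) ^ 3 * (L * l * x) :=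
      mul_le_mul_of_nonneg_right hT3 (by positivity)
    rw [hz]
    linarith
  -- bound of `y`
  obtain ⟨y, hy⟩ : ∃ y : ℝ, y = (t : ℝ) * R + 2 / (g : ℝ) * (Lam * m) := ⟨_, rfl⟩
  have hLam0 : 0 ≤ Lam := by rw [hLam]; positivity
  have hy0 : 0 ≤ y := by rw [hy]; positivity
  have hy1 : y ≤ C1 * z := by
    have h1 : 2 / (g : ℝ) ≤ 80 * l / n := by
      rw [div_le_div_iff₀ hg0 hn0]
      linarith
    have h2 : 2 / (g : ℝ) * (Lam * m) ≤ 80 * l / n * (Lam * m) :=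
      mul_le_mul_of_nonneg_right h1 (by positivity)
    have h3 : 80 * l / n * (Lam * m) = 80 * (l * x) * Lam := by
      rw [hx]
      field_simp
    have h4 : (1 : ℝ) ≤ 2 * (l * x) := by
      have h5 : l * 1 ≤ l * x := mul_le_mul_of_nonneg_left hx1 hl0
      linarith
    have h5 : (t : ℝ) * R ≤ (t : ℝ) * R * (2 * (l * x)) := by
      have h6 : (t : ℝ) * R * 1 ≤ (t : ℝ) * R * (2 * (l * x)) :=
        mul_le_mul_of_nonneg_left h4 (by positivity)
      linarith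
    have h5' : (t : ℝ) * R * (2 * (l * x)) ≤ (t : ℝ) ^ 2 * R * (2 * (l * x)) :=
      mul_le_mul_of_nonneg_right (mul_le_mul_of_nonneg_right hT2 hR0) (by positivity)
    have h6 : y ≤ R * (l * x * (655362 * (t : ℝ) ^ 2)) := by
      have h7 : R * (l * x * (655362 * (t : ℝ) ^ 2)) =
          (t : ℝ) ^ 2 * R * (2 * (l * x)) + 80 * (l * x) * Lam := by
        rw [hLam]
        ring
      rw [h7, hy]
      linarith
    have hR' : (R : ℝ) ≤ 20 * t * L := by
      have h8 : (8 * (t : ℝ) + 12) * L ≤ 20 * t * L :=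
        mul_le_mul_of_nonneg_right (by linarith) hL0
      linarith
    have h7 : (R : ℝ) * (l * x * (655362 * (t : ℝ) ^ 2)) ≤
        20 * t * L * (l * x * (655362 * (t : ℝ) ^ 2)) :=
      mul_le_mul_of_nonneg_right hR' (by positivity)
    have h8 : 20 * t * L * (l * x * (655362 * (t : ℝ) ^ 2)) = C1 * z := by
      rw [hC1, hz]
      ring
    linarith
  -- powers
  have hCz : 4000 * (C1 * z) ≤ C * z := by
    have h1 : 4000 * C1 * z ≤ C * z := mul_le_mul_of_nonneg_right hC hz0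
    linarith [mul_assoc 4000 C1 z]
  have hCn' : (C * z) ^ t ≤ n := by
    have h1 : C * (t : ℝ) ^ 3 * L * l * x = C * z := by
      rw [hz]
      ring
    rw [← h1]
    exact hCn
  have hC1z : 0 ≤ C1 * z := by positivity
  have hC11 : (1 : ℝ) ≤ C1 := by rw [hC1]; norm_num
  have h470 : 470 ≤ C * z := by
    have h1 : 1 * 0.47 ≤ C1 * z := mul_le_mul hC11 hz1 (by norm_num) (by linarith)
    linarith
  have hnR : (470 : ℝ) ≤ n := by
    have h1 : C * z ≤ (C * z) ^ t := le_self_pow₀ (by linarith) (by omega)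
    linarith
  have hnN : 470 ≤ n := by exact_mod_cast hnR
  have hpow : (4000 : ℝ) ^ t * (C1 * z) ^ t ≤ n := by
    rw [← mul_pow]
    exact (pow_le_pow_left₀ (by positivity) hCz t).trans hCn'
  have h4000 : 1000 * (t : ℝ) ^ 2 ≤ (4000 : ℝ) ^ t := by
    have h1 : t ≤ 2 ^ t := Nat.lt_two_pow_self.le
    have h2 : (t : ℝ) ≤ 2 ^ t := by exact_mod_cast h1
    have h3 : (t : ℝ) ^ 2 ≤ (2 ^ t) ^ 2 := pow_le_pow_left₀ hT0 h2 2
    have h4 : ((2 : ℝ) ^ t) ^ 2 = 4 ^ t := by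
      rw [← pow_mul, mul_comm, pow_mul]
      norm_num
    have h5 : (1000 : ℝ) ≤ 1000 ^ t := le_self_pow₀ (by norm_num) (by omega)
    have h6 : (4000 : ℝ) ^ t = 1000 ^ t * 4 ^ t := by
      rw [← mul_pow]
      norm_num
    rw [h6]
    exact mul_le_mul h5 (h3.trans h4.le) (by positivity) (by positivity)
  have hfin : 4 * (t : ℝ) ^ 2 * y ^ t ≤ n / 250 := by
    have h1 : y ^ t ≤ (C1 * z) ^ t := pow_le_pow_left₀ hy0 hy1 t
    have h2 : 1000 * (t : ℝ) ^ 2 * y ^ t ≤ 4000 ^ t * (C1 * z) ^ t :=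
      mul_le_mul h4000 h1 (by positivity) (by positivity)
    have h3 : 1000 * (t : ℝ) ^ 2 * y ^ t = 250 * (4 * (t : ℝ) ^ 2 * y ^ t) := by
      ring
    linarith
  rw [← hy]
  refine ⟨n / 250 + 1, by omega, by omega, ?_⟩
  have h1 : (n : ℝ) / 250 ≤ ((n / 250 + 1 : ℕ) : ℝ) := by
    rw [div_le_iff₀ (by norm_num)]
    have h2 : n ≤ (n / 250 + 1) * 250 := by omega
    exact_mod_cast h2
  exact hfin.trans h1

end Pool.Agent.Work.MP_f7ef37_lc.WR
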