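import Pool.Agent.Work.MP_f7ef37_lc.WR.Stmts3
import Pool.Agent.Work.MP_f7ef37_lc.WR.I_OR

/-!
# Block [f7ef37 WR], the uniform version of item OR: one round (adapted from helper24's proof)
-/

set_option autoImplicit false

open Classical

namespace Pool.Agent.Work.MP_f7ef37_lc.WR

open Pool.Agent.Work.MP_f7ef37_lc.OP

theorem OR2_of (hFA : StFA) (hFB : StFB) (hSC : StSD2) : StOR2 := by
  intro I J _ _ q t b Lam lam B Z hJ hJI hb hbt hq hqJ hLam hlam hsp hB hZ hB2 hdg
  have hI : 1 ≤ Fintype.card I := hJ.trans hJI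
  have neI : Nonempty I := Fintype.card_pos_iff.mp hI
  have neJ : Nonempty J := Fintype.card_pos_iff.mp hJ
  have neE : Nonempty (I × J) := inferInstance
  have hN : 0 < (Fintype.card (I × J) : ℝ) := by exact_mod_cast Fintype.card_pos
  have htt : t ≤ t ^ 2 := Nat.le_self_pow (by norm_num) t
  have hbq : b ≤ q := by omega
  have hdf : 0 < (q.descFactorial b : ℝ) := by
    have : q.descFactorial b ≠ 0 := by
      intro h0
      have := Nat.descFactorial_eq_zero_iff_lt.mp h0
      omega
    exact_mod_cast Nat.pos_of_ne_zero this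
  have ha : 0 < (q.descFactorial b : ℝ) / (Fintype.card (I × J) : ℝ) ^ b := by positivity
  have hlam0 : 0 < lam := by
    rw [hlam]
    have : (0 : ℝ) < Fintype.card I := by exact_mod_cast hI
    positivity
  have hBc : 0 < (B.card : ℝ) := by
    have : 0 < lam ^ b := by positivity
    linarith
  -- the number of members contained in the valid edges
  let X : (Fin q → I × J) → ℝ := fun η => ∑ S ∈ B, OR_ind (S ⊆ val Z η)
  have hX : ∀ η, (∀ S ∈ B, ¬ S ⊆ val Z η) → X η = 0 := by
    intro η h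
    exact Finset.sum_eq_zero fun S hS => OR_ind_false (h S hS)
  refine le_trans (pr_mono hX) ?_
  refine OR_second X ((B.card : ℝ) *
    ((q.descFactorial b : ℝ) / (Fintype.card (I × J) : ℝ) ^ b)) (by positivity) ?_ ?_
  · -- the mean value
    have h1 : ex X = ∑ S ∈ B, pr (fun η : Fin q → I × J => S ⊆ val Z η) := by
      show ex (fun η => ∑ S ∈ B, OR_ind (S ⊆ val Z η)) = _
      rw [ex_sum]
      rfl
    rw [h1]
    have h2 : ∀ S ∈ B, 3 / 4 * ((q.descFactorial b : ℝ) / (Fintype.card (I × J) : ℝ) ^ b) ≤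
        pr (fun η : Fin q → I × J => S ⊆ val Z η) := by
      intro S hS
      refine hFA I J q b Z S (hB S hS).2 (hB S hS).1 ?_ hJ hJI ?_ hbq
      · intro e he v hv hinc
        exact hZ S hS v hv ⟨e, he, hinc⟩
      · refine le_trans ?_ hqJ
        exact Nat.mul_le_mul_right q (Nat.mul_le_mul_left 8 hbt)
    have h3 := Finset.card_nsmul_le_sum B _ _ h2
    rw [nsmul_eq_mul] at h3
    linarith
  · -- the second moment
    have h1 : ∀ η, X η ^ 2 = ∑ S ∈ B, ∑ S' ∈ B, OR_ind (S ⊆ val Z η ∧ S' ⊆ val Z η) := by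
      intro η
      show (∑ S ∈ B, OR_ind (S ⊆ val Z η)) ^ 2 = _
      rw [pow_two, Finset.sum_mul_sum]
      refine Finset.sum_congr rfl fun S _ => Finset.sum_congr rfl fun S' _ => ?_
      by_cases hS : S ⊆ val Z η
      · by_cases hS' : S' ⊆ val Z η
        · rw [OR_ind_true hS, OR_ind_true hS', OR_ind_true ⟨hS, hS'⟩, mul_one]
        · rw [OR_ind_false hS', OR_ind_false (P := S ⊆ val Z η ∧ S' ⊆ val Z η) (fun h => hS' h.2), mul_zero]
      · rw [OR_ind_false hS, OR_ind_false (P := S ⊆ val Z η ∧ S' ⊆ val Z η) (fun h => hS h.1), zero_mul]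
    rw [show (fun η => X η ^ 2) = _ from funext h1, ex_sum]
    refine le_trans ?_ (hSC I J q t b Lam lam B hJ hJI hb hbt hq hLam hlam hsp
      (fun S hS => (hB S hS).1) hB2 hdg)
    refine Finset.sum_le_sum fun S _ => ?_
    rw [ex_sum]
    refine Finset.sum_le_sum fun S' _ => ?_
    refine le_trans ?_ (hFB (I × J) q (S ∪ S'))
    rw [← OR_pr (fun η : Fin q → I × J => S ⊆ val Z η ∧ S' ⊆ val Z η)]
    refine pr_mono ?_
    rintro η ⟨hS, hS'⟩ e he
    have hv : e ∈ val Z η := by
      rcases Finset.mem_union.mp he with h | h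
      · exact hS h
      · exact hS' h
    obtain ⟨k, hk, _⟩ := (Finset.mem_filter.mp hv).2
    exact ⟨k, hk⟩

end Pool.Agent.Work.MP_f7ef37_lc.WR
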