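import Pool.Agent.Work.MP_f7ef37_lc.WR.Stmts
import Pool.Agent.Work.MP_f7ef37_lc.OP.Basic

/-!
# Item RB of the block [f7ef37 WR]: basic facts on `rho`
-/

set_option autoImplicit false

open Classical

namespace Pool.Agent.Work.MP_f7ef37_lc.WR

open Pool.Agent.Work.MP_f7ef37_lc.OP

private theorem RB_mem_rho {I J : Type} [Fintype I] [Fintype J] {R q : ℕ}
    {ω : Fin R → Fin q → I × J} {e : I × J} (h : e ∈ rho ω) :
    ∃ (r : Fin R) (k : Fin q), ω r k = e ∧ (∀ v ∈ used ω r.val, ¬ Inc v e) ∧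
      ∀ l, l ≠ k → ¬ Adj e (ω r l) := by
  unfold rho at h
  rw [Finset.mem_filter] at h
  obtain ⟨r, hr⟩ := h.2
  unfold val at hr
  rw [Finset.mem_filter] at hr
  obtain ⟨k, hk⟩ := hr.2
  exact ⟨r, k, hk⟩

private theorem RB_lt {I J : Type} [Fintype I] [Fintype J] {R q : ℕ}
    {ω : Fin R → Fin q → I × J} {e f : I × J} {r r' : Fin R} {k : Fin q} (hk : ω r k = e)
    (hf : ∀ v ∈ used ω r'.val, ¬ Inc v f) (hrr : r < r') : ¬ Adj e f := by
  intro hA
  obtain ⟨v, hv1, hv2⟩ := (adj_iff e f).1 hA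
  refine hf v ⟨r, hrr, k, ?_⟩ hv2
  rw [hk]
  exact hv1

/-- [RB] Basic facts on `rho`. -/
theorem prRB : StRB := by
  intro I J _ _ R q g ω γ
  refine ⟨?_, ?_, ?_⟩
  · intro e he f hf hA
    obtain ⟨r, k, hk, hU, hl⟩ := RB_mem_rho he
    obtain ⟨r', k', hk', hU', hl'⟩ := RB_mem_rho hf
    rcases lt_trichotomy r r' with h | h | h
    · exact absurd hA (RB_lt hk hU' h)
    · subst h
      by_cases hkk : k' = k
      · rw [← hk, ← hk', hkk]
      · exact absurd (hk' ▸ hA) (hl k' hkk)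
    · exact absurd (adj_symm hA) (RB_lt hk' hU h)
  · intro e he
    obtain ⟨r, k, hk, _, _⟩ := RB_mem_rho he
    unfold xi
    rw [Finset.mem_filter]
    exact ⟨Finset.mem_univ _, Or.inl ⟨r, k, hk⟩⟩
  · have hsub : rho ω ⊆ Finset.univ.image (fun p : Fin R × Fin q => ω p.1 p.2) := by
      intro e he
      obtain ⟨r, k, hk, _, _⟩ := RB_mem_rho he
      rw [Finset.mem_image]
      exact ⟨(r, k), Finset.mem_univ _, hk⟩
    refine (Finset.card_le_card hsub).trans (Finset.card_image_le.trans ?_)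
    rw [Finset.card_univ, Fintype.card_prod, Fintype.card_fin, Fintype.card_fin]

end Pool.Agent.Work.MP_f7ef37_lc.WR
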