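import Pool.Agent.Work.MP_f7ef37_lc.WR.Stmts

/-!
# [f7ef37 WR RI] Rounds
-/

set_option autoImplicit false

open Classical

namespace Pool.Agent.Work.MP_f7ef37_lc.WR

open Pool.Agent.Work.MP_f7ef37_lc.OP

/-- Exchange of the coordinate `r` with an independent value. -/
private def RI_equiv {X : Type} {R : ℕ} (r : Fin R) :
    ((Fin R → X) × X) ≃ ((Fin R → X) × X) :=
  Function.Involutive.toPerm (fun p : (Fin R → X) × X => (Function.update p.1 r p.2, p.1 r)) (by
    intro p
    simp)

private theorem RI_ex {X : Type} [Fintype X] [Nonempty X] {R : ℕ} (r : Fin R)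
    (f : (Fin R → X) → ℝ) :
    ex (fun ω : Fin R → X => ex (fun x : X => f (Function.update ω r x))) = ex f := by
  have h1 : ex (fun p : (Fin R → X) × X => f (Function.update p.1 r p.2)) =
      ex (fun p : (Fin R → X) × X => f p.1) :=
    ex_equiv (RI_equiv r) (fun p : (Fin R → X) × X => f p.1)
  rw [ex_prod, ex_prod] at h1
  rw [h1]
  congr 1
  funext ω
  exact ex_const (Ω := X) (f ω)

private theorem RI_dep {X : Type} {R : ℕ} (bad : Fin R → (Fin R → X) → Prop)
    (h : ∀ (r : Fin R) (ω ω' : Fin R → X), (∀ k, k ≤ r → ω k = ω' k) → bad r ω → bad r ω')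
    (r : Fin R) (ω : Fin R → X) (x : X)
    (hb : ∀ k : Fin R, k.val < r.val → bad k (Function.update ω r x)) :
    ∀ k : Fin R, k.val < r.val → bad k ω := by
  intro k hk
  refine h k _ _ (fun l hl => ?_) (hb k hk)
  rw [Function.update_of_ne]
  intro e
  rw [e] at hl
  exact absurd (Fin.le_def.1 hl) (not_le.2 hk)

private theorem RI_step {X : Type} [Fintype X] [Nonempty X] {R : ℕ} (r : Fin R)
    (P A B : (Fin R → X) → Prop) (h : ∀ ω x, P (Function.update ω r x) →
      A ω ∧ B (Function.update ω r x))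
    (hB : ∀ ω, pr (fun x : X => B (Function.update ω r x)) ≤ 1 / 2) :
    pr P ≤ 1 / 2 * pr A := by
  unfold pr
  rw [← RI_ex r, ← ex_mul_left]
  refine ex_mono (fun ω => ?_)
  by_cases hA : A ω
  · rw [if_pos hA, mul_one]
    refine le_trans (ex_mono (fun x => ?_)) (hB ω)
    by_cases hP : P (Function.update ω r x)
    · rw [if_pos hP, if_pos (h ω x hP).2]
    · rw [if_neg hP]
      split_ifs <;> norm_num
  · rw [if_neg hA, mul_zero]
    refine le_trans (ex_mono (g := fun _ => (0 : ℝ)) (fun x => ?_))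
      (le_of_eq (ex_const (Ω := X) 0))
    rw [if_neg]
    intro hP
    exact hA (h ω x hP).1

theorem prRI : StRI := by
  intro X _ _ R bad hdep hbad
  have key : ∀ j : ℕ, j ≤ R →
      pr (fun ω : Fin R → X => ∀ r : Fin R, r.val < j → bad r ω) ≤ (1 / 2) ^ j := by
    intro j
    induction j with
    | zero =>
      intro _
      rw [pow_zero]
      exact pr_le_one _
    | succ j ih =>
      intro hj
      have ih' := ih (by omega)
      obtain ⟨r, hr⟩ : ∃ r : Fin R, r.val = j := ⟨⟨j, by omega⟩, rfl⟩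
      have h1 := RI_step r (fun ω : Fin R → X => ∀ k : Fin R, k.val < j + 1 → bad k ω)
        (fun ω : Fin R → X => ∀ k : Fin R, k.val < j → bad k ω) (bad r)
        (fun ω x hP => ⟨fun k hk => RI_dep bad hdep r ω x (fun l hl => hP l (by omega)) k
          (by omega), hP r (by omega)⟩) (hbad r)
      refine h1.trans ?_
      rw [pow_succ, mul_comm]
      exact mul_le_mul_of_nonneg_right ih' (by norm_num)
  refine le_trans (pr_mono ?_) (key R le_rfl)
  intro ω h r _
  exact h r

end Pool.Agent.Work.MP_f7ef37_lc.WR
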