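import Pool.Agent.Work.MP_f7ef37_lc.WR.Stmts

/-!
Item SC of the block [f7ef37 WR].
-/

set_option autoImplicit false

open Classical

namespace Pool.Agent.Work.MP_f7ef37_lc.WR

open Pool.Agent.Work.MP_f7ef37_lc.OP

namespace NSC

theorem df1 (q b c : ℕ) (hc : c ≤ b) :
    q.descFactorial (2 * b - c) ≤ q.descFactorial b * q ^ (b - c) := by
  have h1 : b ≤ 2 * b - c := by omega
  have h2 := Nat.descFactorial_mul_descFactorial (n := q) h1
  have h3 : 2 * b - c - b = b - c := by omega
  rw [h3] at h2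
  rw [← h2, mul_comm]
  apply Nat.mul_le_mul_left
  calc (q - b).descFactorial (b - c) ≤ (q - b) ^ (b - c) := Nat.descFactorial_le_pow _ _
    _ ≤ q ^ (b - c) := Nat.pow_le_pow_left (Nat.sub_le _ _) _

theorem df0 (q b : ℕ) : q.descFactorial (2 * b) ≤ q.descFactorial b * q.descFactorial b := by
  have h1 : b ≤ 2 * b := by omega
  have h2 := Nat.descFactorial_mul_descFactorial (n := q) h1
  have h3 : 2 * b - b = b := by omega
  rw [h3] at h2
  rw [← h2, mul_comm]
  apply Nat.mul_le_mul_left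
  exact Nat.descFactorial_le _ (Nat.sub_le _ _)

theorem df2 (q b : ℕ) (h : 2 * b ≤ q) : q ^ b ≤ 2 ^ b * q.descFactorial b := by
  calc q ^ b ≤ (2 * (q + 1 - b)) ^ b := Nat.pow_le_pow_left (by omega) _
    _ = 2 ^ b * (q + 1 - b) ^ b := mul_pow _ _ _
    _ ≤ 2 ^ b * q.descFactorial b := Nat.mul_le_mul_left _ (Nat.pow_sub_le_descFactorial _ _)

/-- `(1 + x)^b - 1 ≤ 2 b x` for `b x ≤ 1/2`. -/
theorem bern (x : ℝ) (b : ℕ) (hx : 0 ≤ x) (hbx : b * x ≤ 1 / 2) :
    (1 + x) ^ b - 1 ≤ 2 * (b * x) := by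
  have h1 : (1 + x) ^ b ≤ Real.exp (b * x) := by
    have h2 : 1 + x ≤ Real.exp x := by
      have := Real.add_one_le_exp x
      linarith
    calc (1 + x) ^ b ≤ Real.exp x ^ b := pow_le_pow_left₀ (by linarith) h2 _
      _ = Real.exp (b * x) := by rw [← Real.exp_nat_mul]
  have h3 : Real.exp (b * x) ≤ 1 + 2 * (b * x) := by
    have hy : 0 ≤ (b : ℝ) * x := by positivity
    have h4 : 1 - (b : ℝ) * x ≤ Real.exp (-(b * x)) := by
      have := Real.add_one_le_exp (-((b : ℝ) * x))
      linarith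
    have h5 : Real.exp (b * x) * Real.exp (-(b * x)) = 1 := by
      rw [← Real.exp_add]
      simp
    have h6 : Real.exp (b * x) * (1 - b * x) ≤ 1 :=
      (mul_le_mul_of_nonneg_left h4 (Real.exp_pos _).le).trans h5.le
    have h7 : (1 : ℝ) ≤ (1 + 2 * (b * x)) * (1 - b * x) := by nlinarith
    have h8 : Real.exp (b * x) * (1 - b * x) ≤ (1 + 2 * (b * x)) * (1 - b * x) := h6.trans h7
    exact le_of_mul_le_mul_right h8 (by linarith)
  linarith

end NSC

theorem prSC : StSC := by
  intro I J _ _ q t b Lam lam B hJ hIJ hb hbt hq hLam hlam hx hB hB1 hB2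
  obtain ⟨N, hN⟩ : ∃ N : ℝ, N = (Fintype.card (I × J) : ℝ) := ⟨_, rfl⟩
  obtain ⟨a, ha⟩ : ∃ a : ℝ, a = (q.descFactorial b : ℝ) / N ^ b := ⟨_, rfl⟩
  rw [← hN, ← ha]
  have hn1 : (1 : ℝ) ≤ Fintype.card J := by exact_mod_cast hJ
  have hm1 : (1 : ℝ) ≤ Fintype.card I := by exact_mod_cast (hJ.trans hIJ)
  have hNmn : N = (Fintype.card I : ℝ) * Fintype.card J := by
    rw [hN, Fintype.card_prod]
    push_cast
    ring
  have hN0 : 0 < N := by
    rw [hNmn]
    positivity
  have hq0 : (0 : ℝ) < q := by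
    have : 0 < q := by omega
    exact_mod_cast this
  have hlam0 : 0 < lam := by
    rw [hlam]
    positivity
  have ha0 : 0 ≤ a := by
    rw [ha]
    positivity
  have hr0 : 0 ≤ N / q := by positivity
  have hbq : 2 * b ≤ q := by omega
  -- the terms
  have key : ∀ S ∈ B, ∀ S' ∈ B, (q.descFactorial (S ∪ S').card : ℝ) / N ^ (S ∪ S').card ≤
      a ^ 2 + a ^ 2 * 2 ^ b * ∑ C ∈ S.powerset.erase ∅,
        if C ⊆ S' then (N / q) ^ C.card else 0 := by
    intro S hS S' hS'
    have hsum0 : 0 ≤ ∑ C ∈ S.powerset.erase ∅, if C ⊆ S' then (N / q) ^ C.card else 0 :=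
      Finset.sum_nonneg (fun C _ => by split_ifs <;> positivity)
    have hcard := Finset.card_union_add_card_inter S S'
    rw [hB S hS, hB S' hS'] at hcard
    have hcb : (S ∩ S').card ≤ b := by
      rw [← hB S hS]
      exact Finset.card_le_card Finset.inter_subset_left
    rcases Nat.eq_zero_or_pos (S ∩ S').card with h0 | h0
    · have h1 : (S ∪ S').card = 2 * b := by omega
      rw [h1]
      have h2 : (q.descFactorial (2 * b) : ℝ) ≤ (q.descFactorial b : ℝ) * q.descFactorial b := by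
        exact_mod_cast NSC.df0 q b
      have h3 : (q.descFactorial (2 * b) : ℝ) / N ^ (2 * b) ≤ a ^ 2 := by
        have e1 : a ^ 2 = ((q.descFactorial b : ℝ) * q.descFactorial b) / N ^ (2 * b) := by
          rw [ha, div_pow, ← pow_mul, mul_comm b 2, sq]
        rw [e1]
        exact div_le_div_of_nonneg_right h2 (by positivity)
      have h4 : 0 ≤ a ^ 2 * 2 ^ b * ∑ C ∈ S.powerset.erase ∅,
        if C ⊆ S' then (N / q) ^ C.card else 0 := mul_nonneg (by positivity) hsum0
      linarith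
    · have h1 : (S ∪ S').card = 2 * b - (S ∩ S').card := by omega
      rw [h1]
      obtain ⟨c, hc⟩ : ∃ c, c = (S ∩ S').card := ⟨_, rfl⟩
      rw [← hc] at hcb h0 ⊢
      have h2 : (q.descFactorial (2 * b - c) : ℝ) ≤ (q.descFactorial b : ℝ) * (q : ℝ) ^ (b - c) := by
        exact_mod_cast NSC.df1 q b c hcb
      have h3 : (q : ℝ) ^ b ≤ 2 ^ b * q.descFactorial b := by
        exact_mod_cast NSC.df2 q b hbq
      have h4 : (q.descFactorial (2 * b - c) : ℝ) / N ^ (2 * b - c) ≤
          a ^ 2 * 2 ^ b * (N / q) ^ c := by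
        have e1 : (q.descFactorial (2 * b - c) : ℝ) / N ^ (2 * b - c) ≤
            (q.descFactorial b : ℝ) * (q : ℝ) ^ (b - c) / N ^ (2 * b - c) :=
          div_le_div_of_nonneg_right h2 (by positivity)
        have e2 : N ^ (2 * b) = N ^ (2 * b - c) * N ^ c := by
          rw [← pow_add]
          congr 1
          omega
        have e3 : (q : ℝ) ^ b = (q : ℝ) ^ (b - c) * (q : ℝ) ^ c := by
          rw [← pow_add]
          congr 1
          omega
        have e4 : (q.descFactorial b : ℝ) * (q : ℝ) ^ (b - c) / N ^ (2 * b - c) =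
            (q.descFactorial b : ℝ) * (q : ℝ) ^ b / N ^ (2 * b) * (N / q) ^ c := by
          rw [e2, e3, div_pow]
          field_simp
        have e5 : (q.descFactorial b : ℝ) * (q : ℝ) ^ b / N ^ (2 * b) ≤ a ^ 2 * 2 ^ b := by
          have e6 : a ^ 2 * 2 ^ b = (q.descFactorial b : ℝ) * (2 ^ b * q.descFactorial b) /
              N ^ (2 * b) := by
            rw [ha, div_pow, ← pow_mul, mul_comm b 2]
            ring
          rw [e6]
          apply div_le_div_of_nonneg_right _ (by positivity)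
          exact mul_le_mul_of_nonneg_left h3 (Nat.cast_nonneg _)
        calc (q.descFactorial (2 * b - c) : ℝ) / N ^ (2 * b - c)
            ≤ (q.descFactorial b : ℝ) * (q : ℝ) ^ (b - c) / N ^ (2 * b - c) := e1
          _ = (q.descFactorial b : ℝ) * (q : ℝ) ^ b / N ^ (2 * b) * (N / q) ^ c := e4
          _ ≤ a ^ 2 * 2 ^ b * (N / q) ^ c := mul_le_mul_of_nonneg_right e5 (by positivity)
      have h5 : (N / q) ^ c ≤ ∑ C ∈ S.powerset.erase ∅,
          if C ⊆ S' then (N / q) ^ C.card else 0 := by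
        have hmem : S ∩ S' ∈ S.powerset.erase ∅ := by
          rw [Finset.mem_erase, Finset.mem_powerset]
          refine ⟨?_, Finset.inter_subset_left⟩
          intro hE
          rw [hE, Finset.card_empty] at hc
          omega
        have h6 := Finset.single_le_sum (s := S.powerset.erase ∅)
          (f := fun C => if C ⊆ S' then (N / q) ^ C.card else 0)
          (fun C _ => by split_ifs <;> positivity) hmem
        have h7 : (if S ∩ S' ⊆ S' then (N / q) ^ (S ∩ S').card else 0) = (N / q) ^ c := by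
          rw [if_pos Finset.inter_subset_right, hc]
        rw [← h7]
        exact h6
      have h8 : a ^ 2 * 2 ^ b * (N / q) ^ c ≤ a ^ 2 * 2 ^ b * ∑ C ∈ S.powerset.erase ∅,
          if C ⊆ S' then (N / q) ^ C.card else 0 := mul_le_mul_of_nonneg_left h5 (by positivity)
      have h9 : 0 ≤ a ^ 2 := by positivity
      linarith
  -- the inner sum
  obtain ⟨x, hxd⟩ : ∃ x : ℝ, x = N / (q * lam) := ⟨_, rfl⟩
  have hx0 : 0 ≤ x := by
    rw [hxd]
    positivity
  have ht0 : (0 : ℝ) < t := by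
    have : 0 < t := by omega
    exact_mod_cast this
  have hx1 : x * (32 * t * 2 ^ t) ≤ 1 := by
    have e1 : x = (Fintype.card J : ℝ) / (q * Lam) := by
      rw [hxd, hNmn, hlam]
      field_simp
    rw [e1, div_mul_eq_mul_div, div_le_one (by positivity)]
    linarith
  have inner : ∀ S ∈ B, ∑ S' ∈ B, (q.descFactorial (S ∪ S').card : ℝ) / N ^ (S ∪ S').card ≤
      9 / 8 * (a ^ 2 * B.card) := by
    intro S hS
    have h1 : ∑ S' ∈ B, (q.descFactorial (S ∪ S').card : ℝ) / N ^ (S ∪ S').card ≤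
        ∑ S' ∈ B, (a ^ 2 + a ^ 2 * 2 ^ b * ∑ C ∈ S.powerset.erase ∅,
          if C ⊆ S' then (N / q) ^ C.card else 0) := Finset.sum_le_sum (fun S' hS' => key S hS S' hS')
    have h2 : ∑ S' ∈ B, (a ^ 2 + a ^ 2 * 2 ^ b * ∑ C ∈ S.powerset.erase ∅,
          if C ⊆ S' then (N / q) ^ C.card else 0) =
        B.card * a ^ 2 + a ^ 2 * 2 ^ b * ∑ C ∈ S.powerset.erase ∅,
          (dg B C : ℝ) * (N / q) ^ C.card := by
      rw [Finset.sum_add_distrib, Finset.sum_const, nsmul_eq_mul, ← Finset.mul_sum,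
        Finset.sum_comm]
      congr 2
      refine Finset.sum_congr rfl (fun C _ => ?_)
      rw [← Finset.sum_filter, Finset.sum_const, nsmul_eq_mul]
      rfl
    have h3 : ∑ C ∈ S.powerset.erase ∅, (dg B C : ℝ) * (N / q) ^ C.card ≤
        ∑ C ∈ S.powerset.erase ∅, 2 * (B.card : ℝ) * x ^ C.card := by
      refine Finset.sum_le_sum (fun C hC => ?_)
      rw [Finset.mem_erase, Finset.mem_powerset] at hC
      have hCn : C.Nonempty := Finset.nonempty_iff_ne_empty.2 hC.1
      have hCb : C.card ≤ b := by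
        rw [← hB S hS]
        exact Finset.card_le_card hC.2
      have e1 := hB2 C hCn hCb
      have e2 : lam ^ (b - C.card) ≤ 2 * (B.card : ℝ) / lam ^ C.card := by
        rw [le_div_iff₀ (by positivity), ← pow_add]
        have : b - C.card + C.card = b := by omega
        rw [this]
        exact hB1
      have e3 : (dg B C : ℝ) ≤ 2 * (B.card : ℝ) / lam ^ C.card := e1.trans e2
      calc (dg B C : ℝ) * (N / q) ^ C.card ≤ 2 * (B.card : ℝ) / lam ^ C.card * (N / q) ^ C.card :=
            mul_le_mul_of_nonneg_right e3 (by positivity)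
        _ = 2 * (B.card : ℝ) * x ^ C.card := by
            rw [hxd, div_pow, div_pow, mul_pow]
            field_simp
    have h4 : ∑ C ∈ S.powerset.erase ∅, 2 * (B.card : ℝ) * x ^ C.card =
        2 * (B.card : ℝ) * ((1 + x) ^ b - 1) := by
      rw [← Finset.mul_sum]
      congr 1
      have e1 := Finset.sum_pow_mul_eq_add_pow x 1 S
      simp only [one_pow, mul_one] at e1
      have e2 := Finset.add_sum_erase S.powerset (fun C => x ^ C.card)
        (Finset.empty_mem_powerset S)
      simp only [Finset.card_empty, pow_zero] at e2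
      rw [hB S hS] at e1
      rw [add_comm 1 x]
      linarith
    have hbR : (b : ℝ) ≤ t := by exact_mod_cast hbt
    have hb1 : (1 : ℝ) ≤ b := by exact_mod_cast hb
    have h2t : (1 : ℝ) ≤ 2 ^ t := one_le_pow₀ (by norm_num)
    have hbx : (b : ℝ) * x * (32 * 2 ^ t) ≤ 1 := by
      have e1 : (b : ℝ) * x * (32 * 2 ^ t) ≤ t * x * (32 * 2 ^ t) := by
        apply mul_le_mul_of_nonneg_right _ (by positivity)
        exact mul_le_mul_of_nonneg_right hbR hx0
      have e2 : (t : ℝ) * x * (32 * 2 ^ t) = x * (32 * t * 2 ^ t) := by ring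
      linarith
    have hbx0 : 0 ≤ (b : ℝ) * x := by positivity
    have h5 : (1 + x) ^ b - 1 ≤ 2 * (b * x) := by
      apply NSC.bern x b hx0
      have e1 : (b : ℝ) * x * (32 * 1) ≤ b * x * (32 * 2 ^ t) :=
        mul_le_mul_of_nonneg_left (by linarith) hbx0
      linarith
    have h6 : (2 : ℝ) ^ b * (2 * ((1 + x) ^ b - 1)) ≤ 1 / 8 := by
      have e0 : (2 : ℝ) ^ b ≤ 2 ^ t := pow_le_pow_right₀ (by norm_num) hbt
      calc (2 : ℝ) ^ b * (2 * ((1 + x) ^ b - 1)) ≤ 2 ^ b * (2 * (2 * (b * x))) :=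
            mul_le_mul_of_nonneg_left (by linarith) (by positivity)
        _ ≤ 2 ^ t * (2 * (2 * (b * x))) := mul_le_mul_of_nonneg_right e0 (by positivity)
        _ = (b : ℝ) * x * (32 * 2 ^ t) / 8 := by ring
        _ ≤ 1 / 8 := by linarith
    have h7 : a ^ 2 * 2 ^ b * (2 * (B.card : ℝ) * ((1 + x) ^ b - 1)) ≤
        a ^ 2 * B.card * (1 / 8) := by
      have e1 : a ^ 2 * 2 ^ b * (2 * (B.card : ℝ) * ((1 + x) ^ b - 1)) =
          a ^ 2 * B.card * (2 ^ b * (2 * ((1 + x) ^ b - 1))) := by ring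
      rw [e1]
      exact mul_le_mul_of_nonneg_left h6 (by positivity)
    have h8 : a ^ 2 * 2 ^ b * ∑ C ∈ S.powerset.erase ∅, (dg B C : ℝ) * (N / q) ^ C.card ≤
        a ^ 2 * 2 ^ b * (2 * (B.card : ℝ) * ((1 + x) ^ b - 1)) := by
      rw [← h4]
      exact mul_le_mul_of_nonneg_left h3 (by positivity)
    rw [h2] at h1
    have h9 : (B.card : ℝ) * a ^ 2 = a ^ 2 * B.card := by ring
    linarith
  calc ∑ S ∈ B, ∑ S' ∈ B, (q.descFactorial (S ∪ S').card : ℝ) / N ^ (S ∪ S').card
      ≤ ∑ S ∈ B, 9 / 8 * (a ^ 2 * B.card) := Finset.sum_le_sum inner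
    _ = 9 / 8 * ((B.card : ℝ) * a) ^ 2 := by
        rw [Finset.sum_const, nsmul_eq_mul]
        ring

end Pool.Agent.Work.MP_f7ef37_lc.WR
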