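import Pool.Agent.Work.MP_f7ef37_lc.WR.Stmts
import Pool.Agent.Work.MP_f7ef37_lc.OP.Basic

/-!
# Block [f7ef37 WR], item SD: vertex degrees of a spread family
-/

set_option autoImplicit false

open Classical

namespace Pool.Agent.Work.MP_f7ef37_lc.WR

open Pool.Agent.Work.MP_f7ef37_lc.OP

theorem SD_star {I J : Type} [Fintype I] [Fintype J] (h : Fintype.card J ≤ Fintype.card I)
    (v : I ⊕ J) : (star v).card ≤ Fintype.card I := by
  cases v with
  | inl i =>
    refine le_trans ?_ h
    have h1 : star (Sum.inl i : I ⊕ J) ⊆ Finset.univ.image (fun j : J => (i, j)) := by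
      intro e he
      rw [mem_star] at he
      have he' : e.1 = i := he
      rw [Finset.mem_image]
      exact ⟨e.2, Finset.mem_univ _, by rw [← he']⟩
    refine (Finset.card_le_card h1).trans (Finset.card_image_le.trans ?_)
    rw [Finset.card_univ]
  | inr j =>
    have h1 : star (Sum.inr j : I ⊕ J) ⊆ Finset.univ.image (fun i : I => (i, j)) := by
      intro e he
      rw [mem_star] at he
      have he' : e.2 = j := he
      rw [Finset.mem_image]
      exact ⟨e.1, Finset.mem_univ _, by rw [← he']⟩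
    refine (Finset.card_le_card h1).trans (Finset.card_image_le.trans ?_)
    rw [Finset.card_univ]

theorem SD_vd {I J : Type} [Fintype I] [Fintype J] (B : Fm I J) (v : I ⊕ J) :
    vd B v ≤ ∑ e ∈ star v, dg B {e} := by
  have h1 : B.filter (fun S => Cov S v) ⊆
      (star v).biUnion (fun e => B.filter (fun S => ({e} : Finset (I × J)) ⊆ S)) := by
    intro S hS
    rw [Finset.mem_filter] at hS
    obtain ⟨hSB, e, he, hv⟩ := hS
    rw [Finset.mem_biUnion]
    exact ⟨e, mem_star.2 hv, Finset.mem_filter.2 ⟨hSB, Finset.singleton_subset_iff.2 he⟩⟩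
  have h2 := Finset.card_le_card h1
  have h3 := Finset.card_biUnion_le (s := star v)
    (t := fun e => B.filter (fun S => ({e} : Finset (I × J)) ⊆ S))
  have h4 : ∀ e : I × J, (B.filter (fun S => ({e} : Finset (I × J)) ⊆ S)).card = dg B {e} := by
    intro e
    unfold dg
    rfl
  have h5 : ∑ e ∈ star v, (B.filter (fun S => ({e} : Finset (I × J)) ⊆ S)).card =
      ∑ e ∈ star v, dg B {e} := Finset.sum_congr rfl fun e _ => h4 e
  rw [← h5]
  exact h2.trans h3

/-- double counting of the covered vertices of one side -/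
theorem SD_side {I J K : Type} [Fintype I] [Fintype J] [Fintype K] (B : Fm I J) (b : ℕ)
    (hB : ∀ S ∈ B, S.card = b) (u : K → I ⊕ J) (π : I × J → K)
    (hπ : ∀ k e, Inc (u k) e → π e = k) :
    ∑ k : K, (vd B (u k) : ℝ) ≤ b * (B.card : ℝ) := by
  have h1 : ∑ k : K, vd B (u k) = ∑ S ∈ B, (Finset.univ.filter (fun k => Cov S (u k))).card := by
    unfold vd
    simp only [Finset.card_filter]
    exact Finset.sum_comm
  have h2 : ∑ k : K, vd B (u k) ≤ b * B.card := by
    rw [h1, mul_comm, ← smul_eq_mul, ← Finset.sum_const]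
    refine Finset.sum_le_sum fun S hS => ?_
    rw [← hB S hS]
    have h3 : Finset.univ.filter (fun k => Cov S (u k)) ⊆ S.image π := by
      intro k hk
      obtain ⟨-, e, he, hv⟩ := Finset.mem_filter.1 hk
      exact Finset.mem_image.2 ⟨e, he, hπ k e hv⟩
    exact (Finset.card_le_card h3).trans Finset.card_image_le
  exact_mod_cast h2

theorem prSD : StSD := by
  intro I J _ _ b Lam lam B hJ hJI hb hLam hlam hS
  obtain ⟨hB, hcard, hdeg⟩ := hS
  have hI : 1 ≤ Fintype.card I := hJ.trans hJI
  have hI' : (0 : ℝ) < Fintype.card I := by exact_mod_cast hI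
  have hlam0 : 0 < lam := by
    rw [hlam]
    exact mul_pos hLam hI'
  refine ⟨fun v => ?_, ?_, ?_⟩
  · have h1 : (vd B v : ℝ) ≤ ∑ e ∈ star v, (dg B {e} : ℝ) := by
      exact_mod_cast SD_vd B v
    have h2 : ∑ e ∈ star v, (dg B {e} : ℝ) ≤ ∑ _e ∈ star v, lam ^ (b - 1) := by
      refine Finset.sum_le_sum fun e _ => ?_
      have h3 := hdeg {e} (Finset.singleton_nonempty e) (by rw [Finset.card_singleton]; exact hb)
      rwa [Finset.card_singleton] at h3
    rw [Finset.sum_const, nsmul_eq_mul] at h2
    have h4 : ((star v).card : ℝ) * lam ^ (b - 1) ≤ Fintype.card I * lam ^ (b - 1) := by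
      refine mul_le_mul_of_nonneg_right ?_ (pow_nonneg hlam0.le _)
      exact_mod_cast SD_star hJI v
    have h5 : (Fintype.card I : ℝ) * lam ^ (b - 1) = lam ^ b / Lam := by
      rw [eq_div_iff hLam.ne']
      have h6 : lam ^ b = lam ^ (b - 1) * lam := by
        rw [← pow_succ]
        congr 1
        omega
      have h7 : (Fintype.card I : ℝ) * lam ^ (b - 1) * Lam =
          lam ^ (b - 1) * (Lam * Fintype.card I) := by ring
      rw [h6, h7, ← hlam]
    calc (vd B v : ℝ) ≤ _ := h1
      _ ≤ _ := h2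
      _ ≤ _ := h4
      _ = lam ^ b / Lam := h5
      _ ≤ (B.card : ℝ) / Lam := div_le_div_of_nonneg_right hcard hLam.le
  · exact SD_side B b (fun S hS => (hB S hS).1) (fun i : I => Sum.inl i) Prod.fst
      (fun k e h => h)
  · exact SD_side B b (fun S hS => (hB S hS).1) (fun j : J => Sum.inr j) Prod.snd
      (fun k e h => h)

end Pool.Agent.Work.MP_f7ef37_lc.WR
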