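import Pool.Agent.Work.MP_f7ef37_lc.WR.Stmts

/-!
# Block [f7ef37 WR], item SP: the slots spend at most half of a spread family
-/

set_option autoImplicit false

open Classical

namespace Pool.Agent.Work.MP_f7ef37_lc.WR

open Pool.Agent.Work.MP_f7ef37_lc.OP

private theorem SP_ex_fst {I J : Type} [Fintype I] [Fintype J] [Nonempty J] (g : I → ℝ) :
    ex (fun e : I × J => g e.1) = (∑ i, g i) / (Fintype.card I : ℝ) := by
  rw [ex_prod]
  have h : (fun a : I => ex (fun _ : J => g a)) = g := by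
    funext a
    exact ex_const (Ω := J) (g a)
  show ex (fun a : I => ex (fun _ : J => g a)) = _
  rw [h]
  rfl

private theorem SP_ex_snd {I J : Type} [Fintype I] [Fintype J] [Nonempty I] (g : J → ℝ) :
    ex (fun e : I × J => g e.2) = (∑ j, g j) / (Fintype.card J : ℝ) := by
  rw [ex_prod]
  show ex (fun _ : I => ex (fun b : J => g b)) = _
  rw [ex_const]
  rfl

private theorem SP_count {I J : Type} [Fintype I] [Fintype J] {R q : ℕ} (B : Fm I J)
    (ω : Fin R → Fin q → I × J) :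
    (B.filter (fun S => ∃ v ∈ used ω R, Cov S v)).card ≤
      ∑ r : Fin R, ∑ l : Fin q, (vd B (Sum.inl (ω r l).1) + vd B (Sum.inr (ω r l).2)) := by
  have hsub : B.filter (fun S => ∃ v ∈ used ω R, Cov S v) ⊆
      Finset.univ.biUnion (fun r : Fin R => Finset.univ.biUnion (fun l : Fin q =>
        B.filter (fun S => Cov S (Sum.inl (ω r l).1)) ∪
          B.filter (fun S => Cov S (Sum.inr (ω r l).2)))) := by
    intro S hS
    rw [Finset.mem_filter] at hS
    obtain ⟨hSB, v, ⟨k, _, l, hl⟩, hc⟩ := hS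
    rw [Finset.mem_biUnion]
    refine ⟨k, Finset.mem_univ _, ?_⟩
    rw [Finset.mem_biUnion]
    refine ⟨l, Finset.mem_univ _, ?_⟩
    rw [Finset.mem_union, Finset.mem_filter, Finset.mem_filter]
    rcases v with i | j
    · left
      have hi : (ω k l).1 = i := hl
      rw [hi]
      exact ⟨hSB, hc⟩
    · right
      have hj : (ω k l).2 = j := hl
      rw [hj]
      exact ⟨hSB, hc⟩
  refine (Finset.card_le_card hsub).trans (Finset.card_biUnion_le.trans ?_)
  refine Finset.sum_le_sum fun r _ => Finset.card_biUnion_le.trans ?_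
  exact Finset.sum_le_sum fun l _ => Finset.card_union_le _ _

theorem prSP : StSP := by
  intro hSD hEM I J _ _ R q t b Lam lam B hJ hJI hb hbt hsl hLam hlam hS
  obtain ⟨h1, h2, h3⟩ := hSD I J b Lam lam B hJ hJI hb hLam hlam hS
  have hJ0 : 0 < Fintype.card J := hJ
  have hI0 : 0 < Fintype.card I := lt_of_lt_of_le hJ0 hJI
  have hneJ : Nonempty J := Fintype.card_pos_iff.1 hJ0
  have hneI : Nonempty I := Fintype.card_pos_iff.1 hI0
  have hJr : (0 : ℝ) < (Fintype.card J : ℝ) := by exact_mod_cast hJ0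
  have hIr : (0 : ℝ) < (Fintype.card I : ℝ) := by exact_mod_cast hI0
  have hJIr : (Fintype.card J : ℝ) ≤ (Fintype.card I : ℝ) := by exact_mod_cast hJI
  have hbtr : (b : ℝ) ≤ t := by exact_mod_cast hbt
  have hlam0 : 0 < lam := by rw [hlam]; positivity
  have hB0 : (0 : ℝ) < (B.card : ℝ) := lt_of_lt_of_le (pow_pos hlam0 b) hS.2.1
  set w : I × J → ℝ := fun e =>
    ((vd B (Sum.inl e.1) : ℝ) + (vd B (Sum.inr e.2) : ℝ)) / (B.card : ℝ) with hw
  have hwb : ∀ e, 0 ≤ w e ∧ w e ≤ 2 / Lam := by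
    intro e
    refine ⟨by positivity, ?_⟩
    have e1 := h1 (Sum.inl e.1)
    have e2 := h1 (Sum.inr e.2)
    rw [hw]
    simp only
    rw [div_le_iff₀ hB0]
    have e3 : 2 / Lam * (B.card : ℝ) = (B.card : ℝ) / Lam + (B.card : ℝ) / Lam := by ring
    rw [e3]
    linarith
  have hex : ex w ≤ 2 * t / (Fintype.card J : ℝ) := by
    have e1 : w = fun e : I × J => (1 / (B.card : ℝ)) * ((vd B (Sum.inl e.1) : ℝ) +
        (vd B (Sum.inr e.2) : ℝ)) := by
      funext e
      rw [hw]
      ring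
    rw [e1, ex_mul_left, ex_add, SP_ex_fst (fun i => (vd B (Sum.inl i) : ℝ)),
      SP_ex_snd (fun j => (vd B (Sum.inr j) : ℝ))]
    have e2 : (∑ i : I, (vd B (Sum.inl i) : ℝ)) / (Fintype.card I : ℝ) ≤
        t * (B.card : ℝ) / (Fintype.card J : ℝ) := by
      have e4 : (b : ℝ) * (B.card : ℝ) ≤ t * (B.card : ℝ) :=
        mul_le_mul_of_nonneg_right hbtr hB0.le
      calc (∑ i : I, (vd B (Sum.inl i) : ℝ)) / (Fintype.card I : ℝ)
          ≤ (t * (B.card : ℝ)) / (Fintype.card I : ℝ) :=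
            div_le_div_of_nonneg_right (h2.trans e4) hIr.le
        _ ≤ t * (B.card : ℝ) / (Fintype.card J : ℝ) :=
            div_le_div_of_nonneg_left (by positivity) hJr hJIr
    have e3 : (∑ j : J, (vd B (Sum.inr j) : ℝ)) / (Fintype.card J : ℝ) ≤
        t * (B.card : ℝ) / (Fintype.card J : ℝ) := by
      have e4 : (b : ℝ) * (B.card : ℝ) ≤ t * (B.card : ℝ) :=
        mul_le_mul_of_nonneg_right hbtr hB0.le
      exact div_le_div_of_nonneg_right (h3.trans e4) hJr.le
    have e5 : 2 * (t : ℝ) / (Fintype.card J : ℝ) = 1 / (B.card : ℝ) *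
        (t * (B.card : ℝ) / (Fintype.card J : ℝ) + t * (B.card : ℝ) / (Fintype.card J : ℝ)) := by
      field_simp
      ring
    rw [e5]
    exact mul_le_mul_of_nonneg_left (add_le_add e2 e3) (by positivity)
  have hmain := hEM (I × J) R q w (2 / Lam) (2 * t / (Fintype.card J : ℝ)) (by positivity) hwb hex
  refine (pr_mono ?_).trans (hmain.trans ?_)
  · intro ω hω
    have hc := SP_count B ω
    have e1 : B.card < 2 * ∑ r : Fin R, ∑ l : Fin q,
        (vd B (Sum.inl (ω r l).1) + vd B (Sum.inr (ω r l).2)) :=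
      lt_of_lt_of_le hω (Nat.mul_le_mul_left 2 hc)
    have e2 : (B.card : ℝ) < 2 * ∑ r : Fin R, ∑ l : Fin q,
        ((vd B (Sum.inl (ω r l).1) : ℝ) + (vd B (Sum.inr (ω r l).2) : ℝ)) := by
      exact_mod_cast e1
    have e3 : ∑ r : Fin R, ∑ l : Fin q, w (ω r l) = (∑ r : Fin R, ∑ l : Fin q,
        ((vd B (Sum.inl (ω r l).1) : ℝ) + (vd B (Sum.inr (ω r l).2) : ℝ))) / (B.card : ℝ) := by
      rw [Finset.sum_div]
      refine Finset.sum_congr rfl fun r _ => ?_
      rw [Finset.sum_div]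
    rw [e3, lt_div_iff₀ hB0]
    linarith
  · apply Real.exp_le_exp.2
    have hslr : 64 * (t : ℝ) * ((R : ℝ) * q) ≤ (Fintype.card J : ℝ) := by exact_mod_cast hsl
    have e1 : 2 * ((R : ℝ) * q) * (2 * t / (Fintype.card J : ℝ)) / (2 / Lam) =
        (2 * (t : ℝ) * ((R : ℝ) * q) / (Fintype.card J : ℝ)) * Lam := by
      field_simp
    have e2 : 1 / (2 * (2 / Lam)) = Lam / 4 := by
      field_simp
      norm_num
    rw [e1, e2]
    have e3 : 2 * (t : ℝ) * ((R : ℝ) * q) / (Fintype.card J : ℝ) ≤ 1 / 32 := by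
      rw [div_le_iff₀ hJr]
      linarith
    have e4 := mul_le_mul_of_nonneg_right e3 hLam.le
    linarith

end Pool.Agent.Work.MP_f7ef37_lc.WR
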