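import Pool.Agent.Work.MP_f7ef37_lc.WR.Stmts2

/-!
# Item [ST] of the block [f7ef37 WR]: only the edges meeting `Av M X` matter
-/

set_option autoImplicit false

open Classical

namespace Pool.Agent.Work.MP_f7ef37_lc.WR

open Pool.Agent.Work.MP_f7ef37_lc.OP

theorem prST : StST := by
  intro I J _ _ t D M ρ X b hT hM1 hM2 hmat hX hsat
  obtain ⟨T, hTD, h1, h2⟩ := hsat
  have hw : ∀ e ∈ T.2, ∃ f ∈ ρ ∪ b, Adj f e := by
    intro e he
    by_contra hcon
    push Not at hcon
    exact (h2 e he).2 hcon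
  choose! w hw1 hw2 using hw
  set S : Finset (I × J) := T.1 ∪ T.2.image w with hS
  have hSc : S ⊆ ρ ∪ b := by
    intro f hf
    rcases Finset.mem_union.1 hf with hf | hf
    · exact h1 hf
    · obtain ⟨e, he, rfl⟩ := Finset.mem_image.1 hf
      exact hw1 e he
  have hcard : S.card ≤ t :=
    ((Finset.card_union_le _ _).trans
      (Nat.add_le_add_left Finset.card_image_le _)).trans (hT T hTD)
  have hSsat : Sat D S := by
    refine ⟨T, hTD, Finset.subset_union_left, fun e he => ⟨fun hes => (h2 e he).1 (hSc hes), ?_⟩⟩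
    intro hna
    exact hna (w e) (Finset.mem_union_right _ (Finset.mem_image_of_mem w he)) (hw2 e he)
  have hSfam : S ∈ Fam t D :=
    Finset.mem_filter.2 ⟨Finset.mem_univ _, hcard, hmat.mono hSc, hSsat⟩
  obtain ⟨S', hS'M, hS'S⟩ := hM1 S hSfam
  obtain ⟨T', hT'fam, hT'⟩ := hM2 S' hS'M
  have hsub : T' ⊆ ρ ∪ meet (Av M X) b := by
    intro e he
    by_cases hρ : e ∈ ρ
    · exact Finset.mem_union_left _ hρ
    · have heS : e ∈ S' := (hT' e he).resolve_right hρ
      have heb : e ∈ b := (Finset.mem_union.1 (hSc (hS'S heS))).resolve_left hρ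
      refine Finset.mem_union_right _ (Finset.mem_filter.2 ⟨heb, Sum.inl e.1, ?_, rfl⟩)
      exact Finset.mem_filter.2 ⟨Finset.mem_univ _, S', hS'M,
        (hS'S.trans hSc).trans hX, e, heS, rfl⟩
  have hmat' : Mat (ρ ∪ meet (Av M X) b) :=
    hmat.mono (Finset.union_subset_union_right (Finset.filter_subset _ _))
  exact sat_mono (Finset.mem_filter.1 hT'fam).2.2.2 hsub hmat'

end Pool.Agent.Work.MP_f7ef37_lc.WR
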