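import Pool.Agent.Work.MP_f7ef37_lc.WR.Stmts

/-!
# Block [f7ef37 WR], item UA: the sets contained in the slots and the edges of colour `0`
-/

set_option autoImplicit false

open Classical

namespace Pool.Agent.Work.MP_f7ef37_lc.WR

open Pool.Agent.Work.MP_f7ef37_lc.OP

/-- Forget the rounds. -/
private noncomputable def UA_eq (E : Type) (R q : ℕ) :
    (Fin R → Fin q → E) ≃ (Fin (R * q) → E) :=
  (Equiv.curry (Fin R) (Fin q) E).symm.trans (Equiv.arrowCongr finProdFinEquiv (Equiv.refl E))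

private theorem UA_slots (hFB : StFB) {E : Type} [Fintype E] [Nonempty E] (R q : ℕ)
    (V : Finset E) :
    pr (fun ω : Fin R → Fin q → E => ∀ e ∈ V, ∃ r l, ω r l = e) ≤
      ((R : ℝ) * q / (Fintype.card E : ℝ)) ^ V.card := by
  have h1 : pr (fun ω : Fin R → Fin q → E => ∀ e ∈ V, ∃ r l, ω r l = e) ≤
      pr (fun ω : Fin R → Fin q → E => ∀ e ∈ V, ∃ k, (UA_eq E R q ω) k = e) := by
    refine pr_mono fun ω h e he => ?_
    obtain ⟨r, l, hrl⟩ := h e he
    refine ⟨finProdFinEquiv (r, l), ?_⟩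
    rw [← hrl]
    unfold UA_eq
    simp [Equiv.arrowCongr]
  have h2 := pr_equiv (UA_eq E R q) (fun η : Fin (R * q) → E => ∀ e ∈ V, ∃ k, η k = e)
  have h3 := hFB E (R * q) V
  rw [h2] at h1
  refine h1.trans (h3.trans ?_)
  rw [div_pow]
  have hN : (0 : ℝ) < (Fintype.card E : ℝ) := by exact_mod_cast Fintype.card_pos
  refine div_le_div_of_nonneg_right ?_ (pow_nonneg hN.le _)
  have h4 : (R * q).descFactorial V.card ≤ (R * q) ^ V.card := Nat.descFactorial_le_pow _ _
  exact_mod_cast h4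

private theorem UA_inst {Ω : Type} (i1 i2 : Fintype Ω) (P : Ω → Prop) :
    @pr Ω i1 P = @pr Ω i2 P := by
  rw [Subsingleton.elim i1 i2]

private theorem UA_zero (g : ℕ) (hg : 1 ≤ g) :
    pr (fun c : Fin g => c.val = 0) = 1 / (g : ℝ) := by
  rw [pr_eq_card, Fintype.card_fin]
  have h1 : ∀ d : DecidablePred fun c : Fin g => c.val = 0,
      (@Finset.filter (Fin g) (fun c => c.val = 0) d Finset.univ).card = 1 := by
    intro d
    refine Finset.card_eq_one.2 ⟨⟨0, hg⟩, ?_⟩
    ext c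
    simp [Fin.ext_iff]
  rw [h1]
  norm_num

private theorem UA_col {I J : Type} [Fintype I] [Fintype J] (g : ℕ) (hg : 1 ≤ g)
    (W : Finset (I × J)) :
    pr (fun γ : I × J → Fin g => ∀ e ∈ W, (γ e).val = 0) = (1 / (g : ℝ)) ^ W.card := by
  have hne : Nonempty (Fin g) := ⟨⟨0, hg⟩⟩
  have h1 := pr_pi (Ω := Fin g) (fun (e : I × J) (c : Fin g) => e ∈ W → c.val = 0)
  refine (UA_inst _ _ _).trans (h1.trans ?_)
  have h2 : ∀ e : I × J, pr (fun c : Fin g => e ∈ W → c.val = 0) =
      if e ∈ W then 1 / (g : ℝ) else 1 := by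
    intro e
    by_cases he : e ∈ W
    · rw [if_pos he, ← UA_zero g hg]
      congr 1
      funext c
      simp [he]
    · rw [if_neg he]
      exact (congrArg ex (funext fun c => if_pos (fun h => absurd h he))).trans (ex_const 1)
  rw [Finset.prod_congr rfl fun e _ => h2 e, Finset.prod_ite_mem, Finset.univ_inter,
    Finset.prod_const]

theorem prUA : StUA := by
  intro hFB I J _ _ _ R q g U hg
  have hcov : ∀ p : (Fin R → Fin q → I × J) × (I × J → Fin g), U ⊆ xi p.1 p.2 →
      ∃ V ∈ U.powerset, (∀ e ∈ V, ∃ r l, p.1 r l = e) ∧ ∀ e ∈ U \ V, (p.2 e).val = 0 := by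
    intro p hp
    refine ⟨U.filter fun e => ∃ r l, p.1 r l = e, Finset.mem_powerset.2 (Finset.filter_subset _ _),
      fun e he => (Finset.mem_filter.1 he).2, fun e he => ?_⟩
    obtain ⟨h1, h2⟩ := Finset.mem_sdiff.1 he
    have h3 := hp h1
    unfold xi at h3
    rcases (Finset.mem_filter.1 h3).2 with h4 | h4
    · exact absurd (Finset.mem_filter.2 ⟨h1, h4⟩) h2
    · exact h4
  refine (pr_mono hcov).trans ((pr_exists_le _ _).trans ?_)
  rw [← Finset.sum_pow_mul_eq_add_pow]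
  refine Finset.sum_le_sum fun V hV => ?_
  rw [Finset.mem_powerset] at hV
  rw [pr_and_prod (fun ω : Fin R → Fin q → I × J => ∀ e ∈ V, ∃ r l, ω r l = e)
    (fun γ : I × J → Fin g => ∀ e ∈ U \ V, (γ e).val = 0), UA_col g hg,
    Finset.card_sdiff_of_subset hV]
  exact mul_le_mul_of_nonneg_right (UA_slots hFB R q V) (by positivity)

end Pool.Agent.Work.MP_f7ef37_lc.WR
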