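import Pool.Agent.Work.MP_f7ef37_lc.WR.Stmts

/-!
# Item UM: moments of the number of members contained in a random set
-/

set_option autoImplicit false

open Classical

namespace Pool.Agent.Work.MP_f7ef37_lc.WR

open Pool.Agent.Work.MP_f7ef37_lc.OP

/-- The moment bound, by induction on `k`. -/
theorem UM_moment (hUN : StUN) (I J : Type) [Fintype I] [Fintype J] (Ω : Type) [Fintype Ω]
    (X : Ω → Finset (I × J)) (M : Fm I J) (s : ℕ) (lam θ : ℝ) (hlam : 0 ≤ lam) (hθ : 0 ≤ θ)
    (hX : ∀ U : Finset (I × J), pr (fun ω => U ⊆ X ω) ≤ θ ^ U.card) (hM : ∀ S ∈ M, S.card = s)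
    (hd : ∀ C : Finset (I × J), C.card ≤ s → (dg M C : ℝ) ≤ lam ^ (s - C.card)) :
    ∀ (k : ℕ) (U : Finset (I × J)),
      ex (fun ω => ((M.filter (fun S => S ⊆ X ω)).card : ℝ) ^ k *
        (if U ⊆ X ω then (1 : ℝ) else 0)) ≤
      θ ^ U.card * ((U.card : ℝ) + (s : ℝ) * k + θ * lam) ^ (s * k) := by
  intro k
  induction k with
  | zero =>
    intro U
    have h1 : (fun ω => ((M.filter (fun S => S ⊆ X ω)).card : ℝ) ^ 0 *
        (if U ⊆ X ω then (1 : ℝ) else 0)) = fun ω => if U ⊆ X ω then (1 : ℝ) else 0 := by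
      funext ω
      rw [pow_zero, one_mul]
    rw [h1, Nat.mul_zero, pow_zero, mul_one]
    refine le_trans (le_of_eq ?_) (hX U)
    unfold pr
    congr 1
    funext ω
    by_cases h : U ⊆ X ω
    · rw [if_pos h, if_pos h]
    · rw [if_neg h, if_neg h]
  | succ k ih =>
    intro U
    have hy : 0 ≤ (U.card : ℝ) + (s : ℝ) * ((k + 1 : ℕ) : ℝ) + θ * lam := by positivity
    have h1 : (fun ω => ((M.filter (fun S => S ⊆ X ω)).card : ℝ) ^ (k + 1) *
        (if U ⊆ X ω then (1 : ℝ) else 0)) =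
        fun ω => ∑ S ∈ M, ((M.filter (fun S => S ⊆ X ω)).card : ℝ) ^ k *
          (if U ∪ S ⊆ X ω then (1 : ℝ) else 0) := by
      funext ω
      rw [← Finset.mul_sum, pow_succ, mul_assoc]
      congr 1
      rw [Finset.card_filter]
      push_cast
      rw [Finset.sum_mul]
      refine Finset.sum_congr rfl (fun S _ => ?_)
      by_cases hS : S ⊆ X ω <;> by_cases hU : U ⊆ X ω
      · rw [if_pos hS, if_pos hU, if_pos (Finset.union_subset hU hS), mul_one]
      · rw [if_neg hU, if_neg (fun h => hU (Finset.subset_union_left.trans h)), mul_zero]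
      · rw [if_neg hS, if_neg (fun h => hS (Finset.subset_union_right.trans h)), zero_mul]
      · rw [if_neg hU, if_neg (fun h => hU (Finset.subset_union_left.trans h)), mul_zero]
    rw [h1, ex_sum]
    have h2 : ∀ S ∈ M, ex (fun ω => ((M.filter (fun S => S ⊆ X ω)).card : ℝ) ^ k *
          (if U ∪ S ⊆ X ω then (1 : ℝ) else 0)) ≤
        θ ^ U.card * ((U.card : ℝ) + (s : ℝ) * ((k + 1 : ℕ) : ℝ) + θ * lam) ^ (s * k) *
          θ ^ (S \ U).card := by
      intro S hS
      refine (ih (U ∪ S)).trans ?_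
      have hc : (U ∪ S).card = U.card + (S \ U).card := by
        rw [← Finset.union_sdiff_self_eq_union, Finset.card_union_of_disjoint
          Finset.disjoint_sdiff]
      have hc2 : (S \ U).card ≤ s := (Finset.card_le_card Finset.sdiff_subset).trans (hM S hS).le
      rw [hc, pow_add]
      have h3 : ((U.card + (S \ U).card : ℕ) : ℝ) + (s : ℝ) * k + θ * lam ≤
          (U.card : ℝ) + (s : ℝ) * ((k + 1 : ℕ) : ℝ) + θ * lam := by
        have : ((S \ U).card : ℝ) ≤ s := by exact_mod_cast hc2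
        push_cast
        linarith
      have h4 : 0 ≤ ((U.card + (S \ U).card : ℕ) : ℝ) + (s : ℝ) * k + θ * lam := by positivity
      calc θ ^ U.card * θ ^ (S \ U).card *
            (((U.card + (S \ U).card : ℕ) : ℝ) + (s : ℝ) * k + θ * lam) ^ (s * k)
          ≤ θ ^ U.card * θ ^ (S \ U).card *
            ((U.card : ℝ) + (s : ℝ) * ((k + 1 : ℕ) : ℝ) + θ * lam) ^ (s * k) := by
            refine mul_le_mul_of_nonneg_left (pow_le_pow_left₀ h4 h3 _) ?_
            positivity
        _ = _ := by ring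
    refine (Finset.sum_le_sum h2).trans ?_
    rw [← Finset.mul_sum]
    have h5 := hUN I J M s lam θ U hlam hθ hM hd
    have h6 : ((U.card : ℝ) + θ * lam) ^ s ≤
        ((U.card : ℝ) + (s : ℝ) * ((k + 1 : ℕ) : ℝ) + θ * lam) ^ s := by
      refine pow_le_pow_left₀ (by positivity) ?_ _
      have : 0 ≤ (s : ℝ) * ((k + 1 : ℕ) : ℝ) := by positivity
      linarith
    calc θ ^ U.card * ((U.card : ℝ) + (s : ℝ) * ((k + 1 : ℕ) : ℝ) + θ * lam) ^ (s * k) *
          ∑ S ∈ M, θ ^ (S \ U).card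
        ≤ θ ^ U.card * ((U.card : ℝ) + (s : ℝ) * ((k + 1 : ℕ) : ℝ) + θ * lam) ^ (s * k) *
          ((U.card : ℝ) + (s : ℝ) * ((k + 1 : ℕ) : ℝ) + θ * lam) ^ s :=
          mul_le_mul_of_nonneg_left (h5.trans h6) (by positivity)
      _ = θ ^ U.card *
          ((U.card : ℝ) + (s : ℝ) * ((k + 1 : ℕ) : ℝ) + θ * lam) ^ (s * (k + 1)) := by
          rw [mul_assoc, ← pow_add, Nat.mul_succ]

theorem prUM : StUM := by
  intro hUN I J _ _ Ω _ X M s k lam θ hlam hθ hX hM hd
  have hmom := UM_moment hUN I J Ω X M s lam θ hlam hθ hX hM hd k ∅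
  have h0 : (fun ω => ((M.filter (fun S => S ⊆ X ω)).card : ℝ) ^ k *
        (if (∅ : Finset (I × J)) ⊆ X ω then (1 : ℝ) else 0)) =
      fun ω => ((M.filter (fun S => S ⊆ X ω)).card : ℝ) ^ k := by
    funext ω
    rw [if_pos (Finset.empty_subset _), mul_one]
  rw [h0, Finset.card_empty, pow_zero, one_mul, Nat.cast_zero, zero_add] at hmom
  have hy : 0 ≤ (s : ℝ) * k + θ * lam := by positivity
  rcases Nat.eq_zero_or_pos k with hk | hk
  · subst hk
    rw [pow_zero]
    exact pr_le_one _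
  · rcases (pow_nonneg hy s).eq_or_lt with ha | ha
    · have hs : s ≠ 0 := by
        intro hs
        rw [hs, pow_zero] at ha
        exact one_ne_zero ha.symm
      have hy0 : (s : ℝ) * k + θ * lam = 0 := by
        by_contra hne
        exact (pow_ne_zero s hne) ha.symm
      have hz : ex (fun ω => ((M.filter (fun S => S ⊆ X ω)).card : ℝ) ^ k) ≤ 0 := by
        refine hmom.trans ?_
        rw [hy0, zero_pow (Nat.mul_ne_zero hs (Nat.pos_iff_ne_zero.1 hk))]
      have h1 : pr (fun ω => 2 * ((s : ℝ) * k + θ * lam) ^ s <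
          ((M.filter (fun S => S ⊆ X ω)).card : ℝ)) ≤
          pr (fun ω => (1 : ℝ) ≤ ((M.filter (fun S => S ⊆ X ω)).card : ℝ) ^ k) := by
        refine pr_mono (fun ω hω => ?_)
        rw [← ha, mul_zero] at hω
        have : 1 ≤ (M.filter (fun S => S ⊆ X ω)).card := by exact_mod_cast hω
        exact one_le_pow₀ (by exact_mod_cast this)
      have h2 := markov (fun ω => ((M.filter (fun S => S ⊆ X ω)).card : ℝ) ^ k) 1 one_pos
        (fun ω => pow_nonneg (Nat.cast_nonneg _) _)
      rw [div_one] at h2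
      exact h1.trans (h2.trans (hz.trans (by positivity)))
    · have ha2 : 0 < (2 * ((s : ℝ) * k + θ * lam) ^ s) ^ k := by positivity
      have h1 : pr (fun ω => 2 * ((s : ℝ) * k + θ * lam) ^ s <
          ((M.filter (fun S => S ⊆ X ω)).card : ℝ)) ≤
          pr (fun ω => (2 * ((s : ℝ) * k + θ * lam) ^ s) ^ k ≤
            ((M.filter (fun S => S ⊆ X ω)).card : ℝ) ^ k) := by
        refine pr_mono (fun ω hω => ?_)
        exact pow_le_pow_left₀ (by positivity) hω.le k
      have h2 := markov (fun ω => ((M.filter (fun S => S ⊆ X ω)).card : ℝ) ^ k)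
        ((2 * ((s : ℝ) * k + θ * lam) ^ s) ^ k) ha2 (fun ω => pow_nonneg (Nat.cast_nonneg _) _)
      refine h1.trans (h2.trans ?_)
      rw [div_le_iff₀ ha2]
      refine hmom.trans (le_of_eq ?_)
      rw [← mul_pow, pow_mul]
      congr 1
      ring

end Pool.Agent.Work.MP_f7ef37_lc.WR
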