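import Pool.Agent.Work.MP_f7ef37_lc.WR.Stmts

/-!
# Block [f7ef37 WR], item UN
-/

set_option autoImplicit false

open Classical

namespace Pool.Agent.Work.MP_f7ef37_lc.WR

open Pool.Agent.Work.MP_f7ef37_lc.OP

private theorem UN_term {E : Type} [DecidableEq E] (U : Finset E) (s : ℕ) (θ : ℝ) (hθ : 0 ≤ θ) (S : Finset E)
    (hS : S.card = s) :
    θ ^ (S \ U).card ≤ ∑ C ∈ U.powerset.filter (fun C => C.card ≤ s),
      if C ⊆ S then θ ^ (s - C.card) else 0 := by
  have h1 : S ∩ U ∈ U.powerset.filter (fun C => C.card ≤ s) := by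
    rw [Finset.mem_filter, Finset.mem_powerset]
    exact ⟨Finset.inter_subset_right, hS ▸ Finset.card_le_card Finset.inter_subset_left⟩
  have h2 : (S \ U).card = s - (S ∩ U).card := by
    have := Finset.card_sdiff_add_card_inter S U
    omega
  have h3 := Finset.single_le_sum
    (f := fun C : Finset E => if C ⊆ S then θ ^ (s - C.card) else 0)
    (fun C _ => by
      show 0 ≤ if C ⊆ S then θ ^ (s - C.card) else 0
      split_ifs
      · positivity
      · exact le_rfl) h1
  refine le_trans (le_of_eq ?_) h3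
  show θ ^ (S \ U).card = if S ∩ U ⊆ S then θ ^ (s - (S ∩ U).card) else 0
  rw [if_pos Finset.inter_subset_left, h2]

private theorem UN_group {E : Type} (U : Finset E) (s : ℕ) (y : ℝ) (hy : 0 ≤ y) :
    ∑ C ∈ U.powerset.filter (fun C => C.card ≤ s), y ^ (s - C.card) ≤ ((U.card : ℝ) + y) ^ s := by
  have h1 : ∑ C ∈ U.powerset.filter (fun C => C.card ≤ s), y ^ (s - C.card) =
      ∑ c ∈ Finset.range (s + 1), ((U.card.choose c : ℕ) : ℝ) * y ^ (s - c) := by
    rw [← Finset.sum_fiberwise_of_maps_to (s := U.powerset.filter (fun C => C.card ≤ s))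
      (t := Finset.range (s + 1)) (g := Finset.card)]
    · refine Finset.sum_congr rfl fun c hc => ?_
      have hc' : c ≤ s := Nat.lt_succ_iff.1 (Finset.mem_range.1 hc)
      have h2 : (U.powerset.filter (fun C => C.card ≤ s)).filter (fun C => C.card = c) =
          U.powersetCard c := by
        ext C
        rw [Finset.mem_filter, Finset.mem_filter, Finset.mem_powerset, Finset.mem_powersetCard]
        constructor
        · rintro ⟨⟨h, _⟩, h'⟩
          exact ⟨h, h'⟩
        · rintro ⟨h, h'⟩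
          exact ⟨⟨h, h' ▸ hc'⟩, h'⟩
      rw [h2, ← Finset.card_powersetCard, ← nsmul_eq_mul, ← Finset.sum_const]
      refine Finset.sum_congr rfl fun C hC => ?_
      rw [(Finset.mem_powersetCard.1 hC).2]
    · intro C hC
      exact Finset.mem_range.2 (Nat.lt_succ_of_le (Finset.mem_filter.1 hC).2)
  rw [h1, add_pow]
  refine Finset.sum_le_sum fun c hc => ?_
  have hc' : c ≤ s := Nat.lt_succ_iff.1 (Finset.mem_range.1 hc)
  have h3 : ((U.card.choose c : ℕ) : ℝ) ≤ (U.card : ℝ) ^ c := by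
    exact_mod_cast Nat.choose_le_pow U.card c
  have h4 : (1 : ℝ) ≤ ((s.choose c : ℕ) : ℝ) := by
    exact_mod_cast Nat.choose_pos hc'
  have h5 : 0 ≤ y ^ (s - c) := by positivity
  have h6 : (0 : ℝ) ≤ (U.card : ℝ) ^ c * y ^ (s - c) := by positivity
  calc ((U.card.choose c : ℕ) : ℝ) * y ^ (s - c) ≤ (U.card : ℝ) ^ c * y ^ (s - c) :=
        mul_le_mul_of_nonneg_right h3 h5
    _ ≤ (U.card : ℝ) ^ c * y ^ (s - c) * ((s.choose c : ℕ) : ℝ) := le_mul_of_one_le_right h6 h4

/-- Item UN. -/
theorem prUN : StUN := by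
  intro I J _ _ M s lam θ U hlam hθ hM hdg
  calc ∑ S ∈ M, θ ^ (S \ U).card
      ≤ ∑ S ∈ M, ∑ C ∈ U.powerset.filter (fun C => C.card ≤ s),
          (if C ⊆ S then θ ^ (s - C.card) else 0) :=
        Finset.sum_le_sum fun S hS => UN_term U s θ hθ S (hM S hS)
    _ = ∑ C ∈ U.powerset.filter (fun C => C.card ≤ s), ∑ S ∈ M,
          (if C ⊆ S then θ ^ (s - C.card) else 0) := Finset.sum_comm
    _ ≤ ∑ C ∈ U.powerset.filter (fun C => C.card ≤ s), (θ * lam) ^ (s - C.card) := by
        refine Finset.sum_le_sum fun C hC => ?_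
        have h1 : ∑ S ∈ M, (if C ⊆ S then θ ^ (s - C.card) else 0) =
            (dg M C : ℝ) * θ ^ (s - C.card) := by
          rw [← Finset.sum_filter, Finset.sum_const, nsmul_eq_mul]
          rfl
        rw [h1, mul_pow, mul_comm (θ ^ (s - C.card))]
        exact mul_le_mul_of_nonneg_right (hdg C (Finset.mem_filter.1 hC).2) (by positivity)
    _ ≤ ((U.card : ℝ) + θ * lam) ^ s := UN_group U s (θ * lam) (mul_nonneg hθ hlam)

end Pool.Agent.Work.MP_f7ef37_lc.WR
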