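import Pool.Agent.Work.MP_f7ef37_lc.WR.Stmts

/-!
# Block WR, item VA: the number of covered vertices
-/

set_option autoImplicit false

open Classical

namespace Pool.Agent.Work.MP_f7ef37_lc.WR

open Pool.Agent.Work.MP_f7ef37_lc.OP

/-- A set of edges covers at most twice as many vertices. -/
private theorem VA_cv {I J : Type} [Fintype I] [Fintype J] (S : Finset (I × J)) :
    (cv S).card ≤ 2 * S.card := by
  have h : cv S ⊆ S.image (fun e => (Sum.inl e.1 : I ⊕ J)) ∪
      S.image (fun e => (Sum.inr e.2 : I ⊕ J)) := by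
    intro v hv
    unfold cv at hv
    obtain ⟨e, he, hi⟩ := (Finset.mem_filter.1 hv).2
    rw [Finset.mem_union]
    cases v with
    | inl i => exact Or.inl (Finset.mem_image.2 ⟨e, he, congrArg Sum.inl hi⟩)
    | inr j => exact Or.inr (Finset.mem_image.2 ⟨e, he, congrArg Sum.inr hi⟩)
  calc (cv S).card ≤ _ := Finset.card_le_card h
    _ ≤ _ := Finset.card_union_le _ _
    _ ≤ S.card + S.card := add_le_add Finset.card_image_le Finset.card_image_le
    _ = 2 * S.card := (two_mul _).symm

/-- The covered vertices, by layers. -/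
private theorem VA_sub {I J : Type} [Fintype I] [Fintype J] (t : ℕ) (M : Fm I J)
    (X : Finset (I × J)) (hM : ∀ S ∈ M, S.card ≤ t) :
    Av M X ⊆ (Finset.range t).biUnion (fun s =>
      ((lay M (s + 1)).filter (fun S => S ⊆ X)).biUnion (fun S => cv S)) := by
  intro v hv
  unfold Av at hv
  obtain ⟨S, hS, hX, hc⟩ := (Finset.mem_filter.1 hv).2
  have hpos : 0 < S.card := by
    obtain ⟨e, he, -⟩ := hc
    exact Finset.card_pos.2 ⟨e, he⟩
  have hle := hM S hS
  rw [Finset.mem_biUnion]
  refine ⟨S.card - 1, Finset.mem_range.2 (by omega), ?_⟩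
  rw [Finset.mem_biUnion]
  refine ⟨S, ?_, ?_⟩
  · rw [Finset.mem_filter]
    refine ⟨?_, hX⟩
    unfold lay
    rw [Finset.mem_filter]
    exact ⟨hS, by omega⟩
  · unfold cv
    rw [Finset.mem_filter]
    exact ⟨Finset.mem_univ _, hc⟩

theorem prVA : StVA := by
  intro I J _ _ t k y M X ht hk hy hM hl
  have hk1 : (1 : ℝ) ≤ k := by exact_mod_cast hk
  have ht1 : (1 : ℝ) ≤ t := by exact_mod_cast ht
  have hb1 : (1 : ℝ) ≤ (t : ℝ) * k + y := by nlinarith
  have h1 : ((Av M X).card : ℝ) ≤ ∑ s ∈ Finset.range t,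
      (((lay M (s + 1)).filter (fun S => S ⊆ X)).card : ℝ) * (2 * t) := by
    have h2 : (Av M X).card ≤ ∑ s ∈ Finset.range t,
        ((lay M (s + 1)).filter (fun S => S ⊆ X)).card * (2 * t) := by
      refine (Finset.card_le_card (VA_sub t M X hM)).trans (Finset.card_biUnion_le.trans ?_)
      refine Finset.sum_le_sum fun s _ => ?_
      refine Finset.card_biUnion_le_card_mul _ _ _ fun S hS => ?_
      have hS' : S ∈ M := by
        have h3 := (Finset.mem_filter.1 hS).1
        unfold lay at h3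
        exact (Finset.mem_filter.1 h3).1
      exact (VA_cv S).trans (Nat.mul_le_mul_left 2 (hM S hS'))
    exact_mod_cast h2
  refine h1.trans ?_
  have h4 : ∀ s ∈ Finset.range t,
      (((lay M (s + 1)).filter (fun S => S ⊆ X)).card : ℝ) * (2 * t) ≤
        2 * ((t : ℝ) * k + y) ^ t * (2 * t) := by
    intro s hs
    have hst : s + 1 ≤ t := by
      have := Finset.mem_range.1 hs
      omega
    have hst' : ((s + 1 : ℕ) : ℝ) ≤ t := by exact_mod_cast hst
    have hs0 : (0 : ℝ) ≤ ((s + 1 : ℕ) : ℝ) * k + y := by positivity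
    have h5 : (((s + 1 : ℕ) : ℝ) * k + y) ^ (s + 1) ≤ ((t : ℝ) * k + y) ^ t :=
      (pow_le_pow_left₀ hs0 (by nlinarith) _).trans (pow_le_pow_right₀ hb1 hst)
    have h6 := hl (s + 1) hst
    have h7 : (((lay M (s + 1)).filter (fun S => S ⊆ X)).card : ℝ) ≤
        2 * ((t : ℝ) * k + y) ^ t := h6.trans (by linarith)
    exact mul_le_mul_of_nonneg_right h7 (by positivity)
  refine (Finset.sum_le_sum h4).trans (le_of_eq ?_)
  rw [Finset.sum_const, Finset.card_range, nsmul_eq_mul]
  ring

end Pool.Agent.Work.MP_f7ef37_lc.WR
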