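import Pool.Agent.Work.MP_f7ef37_lc.WR.Stmts2

/-!
# Item XB of the block [f7ef37 WR]: expansion of the random graph on the board
-/

set_option autoImplicit false

open Classical

namespace Pool.Agent.Work.MP_f7ef37_lc.WR

open Pool.Agent.Work.MP_f7ef37_lc.OP

private theorem XB_sum (x : ℝ) (hx0 : 0 ≤ x) (hx : x ≤ 1 / 16) (r : ℕ) :
    ∑ a ∈ Finset.Icc 1 r, x ^ a ≤ 1 / 8 * (1 - (1 / 2) ^ r) := by
  induction r with
  | zero => simp
  | succ r ih =>
    rw [Finset.sum_Icc_succ_top (by omega)]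
    have h1 : x ^ (r + 1) ≤ (1 / 2) ^ r * (1 / 16) := by
      rw [pow_succ]
      exact mul_le_mul (pow_le_pow_left₀ hx0 (by linarith) r) hx hx0 (by positivity)
    rw [pow_succ (1 / 2 : ℝ) r]
    linarith

private theorem XB_sum' (x : ℝ) (hx0 : 0 ≤ x) (hx : x ≤ 1 / 16) (r : ℕ) :
    ∑ a ∈ Finset.Icc 1 r, x ^ a ≤ 1 / 8 := by
  have h := XB_sum x hx0 hx r
  have h2 : (0 : ℝ) ≤ (1 / 2) ^ r := by positivity
  linarith

private theorem XB_base {m n p : ℝ} (hm : 1 ≤ m) (hn : 1 ≤ n)
    (hp : p ≤ 1 / (16 * m ^ 2 * n ^ 2)) : m * n ^ 2 * p ≤ 1 / 16 := by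
  have hm0 : 0 < m := by linarith
  have hn0 : 0 < n := by linarith
  calc m * n ^ 2 * p ≤ m * n ^ 2 * (1 / (16 * m ^ 2 * n ^ 2)) :=
        mul_le_mul_of_nonneg_left hp (by positivity)
    _ = 1 / (16 * m) := by field_simp
    _ ≤ 1 / 16 := by
        apply one_div_le_one_div_of_le (by norm_num)
        linarith

theorem prXB : StXB := by
  intro hXP I J _ _ g ρ hg hJ hIJ hρ hc hp
  obtain ⟨hX1, hX2⟩ := hXP I J g (Fintype.card J / 8) hg
  have hg' : (0 : ℝ) ≤ 1 - 1 / (g : ℝ) := by
    have h1 : (1 : ℝ) ≤ g := by exact_mod_cast hg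
    rw [sub_nonneg, div_le_one (by linarith)]
    exact h1
  -- the number of uncovered holes and pigeons
  have hB : Fintype.card J ≤
      (Finset.univ.filter (fun j : J => ¬ Cov ρ (Sum.inr j : I ⊕ J))).card + ρ.card := by
    have h1 : (Finset.univ : Finset J) ⊆
        Finset.univ.filter (fun j : J => ¬ Cov ρ (Sum.inr j : I ⊕ J)) ∪ ρ.image Prod.snd := by
      intro j _
      by_cases h : Cov ρ (Sum.inr j : I ⊕ J)
      · obtain ⟨e, he, hv⟩ := h
        exact Finset.mem_union_right _ (Finset.mem_image.2 ⟨e, he, hv⟩)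
      · exact Finset.mem_union_left _ (Finset.mem_filter.2 ⟨Finset.mem_univ _, h⟩)
    have h2 := Finset.card_le_card h1
    have h3 := Finset.card_union_le
      (Finset.univ.filter (fun j : J => ¬ Cov ρ (Sum.inr j : I ⊕ J))) (ρ.image Prod.snd)
    have h4 : (ρ.image Prod.snd).card ≤ ρ.card := Finset.card_image_le
    rw [Finset.card_univ] at h2
    omega
  have hA : Fintype.card I ≤
      (Finset.univ.filter (fun i : I => ¬ Cov ρ (Sum.inl i : I ⊕ J))).card + ρ.card := by
    have h1 : (Finset.univ : Finset I) ⊆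
        Finset.univ.filter (fun i : I => ¬ Cov ρ (Sum.inl i : I ⊕ J)) ∪ ρ.image Prod.fst := by
      intro j _
      by_cases h : Cov ρ (Sum.inl j : I ⊕ J)
      · obtain ⟨e, he, hv⟩ := h
        exact Finset.mem_union_right _ (Finset.mem_image.2 ⟨e, he, hv⟩)
      · exact Finset.mem_union_left _ (Finset.mem_filter.2 ⟨Finset.mem_univ _, h⟩)
    have h2 := Finset.card_le_card h1
    have h3 := Finset.card_union_le
      (Finset.univ.filter (fun i : I => ¬ Cov ρ (Sum.inl i : I ⊕ J))) (ρ.image Prod.fst)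
    have h4 : (ρ.image Prod.fst).card ≤ ρ.card := Finset.card_image_le
    rw [Finset.card_univ] at h2
    omega
  have h1n : (1 : ℝ) ≤ (Fintype.card J : ℝ) := by
    have : 1 ≤ Fintype.card J := by omega
    exact_mod_cast this
  have h1m : (1 : ℝ) ≤ (Fintype.card I : ℝ) := by
    have : 1 ≤ Fintype.card I := by omega
    exact_mod_cast this
  have hP1 := hX1 (Finset.univ.filter (fun j : J => ¬ Cov ρ (Sum.inr j : I ⊕ J))) (by omega)
  have hP2 := hX2 (Finset.univ.filter (fun i : I => ¬ Cov ρ (Sum.inl i : I ⊕ J))) (by omega)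
  have hS1 := hP1.trans (XB_sum' _ (by positivity)
    (XB_base h1m h1n (hp _ (by omega))) _)
  have hS2 := hP2.trans (XB_sum' _ (by positivity)
    (XB_base h1n h1m (by
      have h := hp ((Finset.univ.filter (fun i : I => ¬ Cov ρ (Sum.inl i : I ⊕ J))).card -
        2 * (Fintype.card J / 8)) (by omega)
      rwa [show (16 * (Fintype.card J : ℝ) ^ 2 * (Fintype.card I : ℝ) ^ 2) =
        16 * (Fintype.card I : ℝ) ^ 2 * (Fintype.card J : ℝ) ^ 2 by ring])) _)
  refine le_trans ((pr_mono ?_).trans (pr_or_le _ _)) (le_trans (add_le_add hS1 hS2) (by norm_num))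
  -- the event
  intro γ hγ
  unfold Exp2 at hγ
  push Not at hγ
  obtain ⟨A, hA1, ⟨c, hc1⟩, hA2, hA3⟩ := hγ
  have hAne : A.Nonempty := by
    rw [Finset.nonempty_iff_ne_empty]
    rintro rfl
    simp at hA3
  have hgr : ∀ (i : I) (j : J), ¬ Cov ρ (Sum.inl i : I ⊕ J) → ¬ Cov ρ (Sum.inr j : I ⊕ J) →
      (γ (i, j)).val = 0 → (i, j) ∈ gr ρ γ := by
    intro i j hi hj h0
    unfold gr
    rw [Finset.mem_filter]
    refine ⟨Finset.mem_univ _, h0, fun e he hadj => ?_⟩
    rcases hadj with h | h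
    · exact hi ⟨e, he, h⟩
    · exact hj ⟨e, he, h⟩
  have hnot : ∀ x ∈ A, ¬ Cov ρ x := fun x hx => (Finset.mem_filter.1 (hA1 x hx)).2
  cases c with
  | true =>
    left
    have hcard : A.card = (Finset.univ.filter (fun i : I => Sum.inl i ∈ A)).card := by
      rw [← Finset.card_image_of_injective
        (Finset.univ.filter (fun i : I => (Sum.inl i : I ⊕ J) ∈ A)) Sum.inl_injective (β := I ⊕ J)]
      congr 1
      ext x
      rw [Finset.mem_image]
      constructor
      · intro hx
        have h := hc1 x hx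
        cases x with
        | inl i => exact ⟨i, Finset.mem_filter.2 ⟨Finset.mem_univ _, hx⟩, rfl⟩
        | inr j => simp at h
      · rintro ⟨i, hi, rfl⟩
        exact (Finset.mem_filter.1 hi).2
    refine ⟨Finset.univ.filter (fun i : I => Sum.inl i ∈ A), ?_, by omega, ?_⟩
    · rw [← Finset.card_pos, ← hcard]
      exact hAne.card_pos
    · rw [← hcard]
      refine lt_of_le_of_lt ?_ hA3
      rw [← Finset.card_image_of_injective _ (Sum.inr_injective (α := I) (β := J))]
      apply Finset.card_le_card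
      intro y hy
      rw [Finset.mem_image] at hy
      obtain ⟨j, hj, rfl⟩ := hy
      rw [Finset.mem_filter, Finset.mem_filter] at hj
      obtain ⟨⟨-, hj1⟩, i, hi, h0⟩ := hj
      have hi' := (Finset.mem_filter.1 hi).2
      unfold nb
      rw [Finset.mem_filter]
      exact ⟨Finset.mem_univ _, Sum.inl i, hi', hgr i j (hnot _ hi') hj1 h0⟩
  | false =>
    right
    have hcard : A.card = (Finset.univ.filter (fun j : J => Sum.inr j ∈ A)).card := by
      rw [← Finset.card_image_of_injective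
        (Finset.univ.filter (fun j : J => (Sum.inr j : I ⊕ J) ∈ A)) Sum.inr_injective (β := I ⊕ J)]
      congr 1
      ext x
      rw [Finset.mem_image]
      constructor
      · intro hx
        have h := hc1 x hx
        cases x with
        | inr i => exact ⟨i, Finset.mem_filter.2 ⟨Finset.mem_univ _, hx⟩, rfl⟩
        | inl j => simp at h
      · rintro ⟨i, hi, rfl⟩
        exact (Finset.mem_filter.1 hi).2
    refine ⟨Finset.univ.filter (fun j : J => Sum.inr j ∈ A), ?_, by omega, ?_⟩
    · rw [← Finset.card_pos, ← hcard]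
      exact hAne.card_pos
    · rw [← hcard]
      refine lt_of_le_of_lt ?_ hA3
      rw [← Finset.card_image_of_injective _ (Sum.inl_injective (α := I) (β := J))]
      apply Finset.card_le_card
      intro y hy
      rw [Finset.mem_image] at hy
      obtain ⟨i, hi, rfl⟩ := hy
      rw [Finset.mem_filter, Finset.mem_filter] at hi
      obtain ⟨⟨-, hi1⟩, j, hj, h0⟩ := hi
      have hj' := (Finset.mem_filter.1 hj).2
      unfold nb
      rw [Finset.mem_filter]
      exact ⟨Finset.mem_univ _, Sum.inr j, hj', hgr i j hi1 (hnot _ hj') h0⟩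

end Pool.Agent.Work.MP_f7ef37_lc.WR
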