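import Pool.Agent.Work.MP_f7ef37_lc.WR.Stmts2

/-!
# Item [f7ef37 WR XP]: expansion of a random bipartite graph
-/

set_option autoImplicit false

open Classical

namespace Pool.Agent.Work.MP_f7ef37_lc.WR

/-- The probability that a colour is not `0`. -/
private theorem XP_col (g : ℕ) (hg : 1 ≤ g) :
    pr (fun c : Fin g => c.val ≠ 0) = 1 - 1 / (g : ℝ) := by
  have hg0 : (g : ℝ) ≠ 0 := by
    have : (0 : ℝ) < g := by exact_mod_cast hg
    exact this.ne'
  rw [pr_eq_card, Fintype.card_fin]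
  have h1 : ∀ hd : DecidablePred (fun c : Fin g => c.val ≠ 0),
      (@Finset.filter (Fin g) (fun c => c.val ≠ 0) hd Finset.univ) =
      Finset.univ.erase (⟨0, hg⟩ : Fin g) := by
    intro hd
    ext c
    simp only [Finset.mem_filter, Finset.mem_univ, true_and, Finset.mem_erase, ne_eq, and_true]
    constructor
    · intro h h'
      exact h (by rw [h'])
    · intro h h'
      exact h (Fin.ext h')
  rw [h1, Finset.card_erase_of_mem (Finset.mem_univ _), Finset.card_univ, Fintype.card_fin,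
    Nat.cast_sub hg, Nat.cast_one, sub_div, div_self hg0]

private theorem XP_pr {Ω : Type} (h1 h2 : Fintype Ω) (P : Ω → Prop) :
    @pr Ω h1 P = @pr Ω h2 P := by
  rw [Subsingleton.elim h1 h2]

/-- The probability that no pair of `U` has colour `0`. -/
private theorem XP_set0 {κ : Type} [Fintype κ] (g : ℕ) (hg : 1 ≤ g) (U : Finset κ) :
    pr (fun γ : κ → Fin g => ∀ k, k ∈ U → (γ k).val ≠ 0) =
      (1 - 1 / (g : ℝ)) ^ U.card := by
  have : Nonempty (Fin g) := ⟨⟨0, hg⟩⟩
  have h := pr_pi (κ := κ) (Ω := Fin g) (fun k c => k ∈ U → c.val ≠ 0)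
  rw [h]
  have h1 : ∀ k : κ, pr (fun c : Fin g => k ∈ U → c.val ≠ 0) =
      if k ∈ U then (1 - 1 / (g : ℝ)) else 1 := by
    intro k
    by_cases hk : k ∈ U
    · rw [if_pos hk, ← XP_col g hg]
      congr 1
      funext c
      simp [hk]
    · rw [if_neg hk]
      have : (fun c : Fin g => k ∈ U → c.val ≠ 0) = fun _ => True := by
        funext c
        simp [hk]
      rw [this]
      unfold pr
      simp only [if_true]
      exact ex_const 1
  rw [Finset.prod_congr rfl (fun k _ => h1 k), Finset.prod_ite, Finset.prod_const,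
    Finset.prod_const_one, mul_one]
  congr 2
  ext k
  simp

private theorem XP_set {κ : Type} [Fintype κ] (g : ℕ) (hg : 1 ≤ g) (U : Finset κ)
    (hF : Fintype (κ → Fin g)) :
    @pr (κ → Fin g) hF (fun γ => ∀ k, k ∈ U → (γ k).val ≠ 0) =
      (1 - 1 / (g : ℝ)) ^ U.card :=
  (XP_pr _ _ _).trans (XP_set0 g hg U)

private theorem XP_one (A B : Type) [Fintype A] [Fintype B] (g r : ℕ) (hg : 1 ≤ g)
    (B' : Finset B) (hB : 2 * r ≤ B'.card) :
    pr (fun γ : A × B → Fin g => ∃ S : Finset A, S.Nonempty ∧ S.card ≤ r ∧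
      (B'.filter (fun b => ∃ a ∈ S, (γ (a, b)).val = 0)).card < 2 * S.card) ≤
    ∑ a ∈ Finset.Icc 1 r, ((Fintype.card A : ℝ) * (Fintype.card B : ℝ) ^ 2 *
      (1 - 1 / (g : ℝ)) ^ (B'.card - 2 * r)) ^ a := by
  have hθ0 : (0 : ℝ) ≤ 1 - 1 / (g : ℝ) := by
    have : (1 : ℝ) ≤ g := by exact_mod_cast hg
    rw [sub_nonneg, div_le_one (by linarith)]
    exact this
  have hθ1 : 1 - 1 / (g : ℝ) ≤ 1 := by
    have : (0 : ℝ) ≤ 1 / (g : ℝ) := by positivity
    linarith
  -- the union bound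
  have h1 : pr (fun γ : A × B → Fin g => ∃ S : Finset A, S.Nonempty ∧ S.card ≤ r ∧
      (B'.filter (fun b => ∃ a ∈ S, (γ (a, b)).val = 0)).card < 2 * S.card) ≤
      pr (fun γ : A × B → Fin g => ∃ a ∈ Finset.Icc 1 r,
        ∃ p ∈ (Finset.powersetCard a (Finset.univ : Finset A)) ×ˢ
          (Finset.powersetCard (2 * a) B'),
        ∀ k, k ∈ p.1 ×ˢ (B' \ p.2) → (γ k).val ≠ 0) := by
    refine pr_mono (fun γ h => ?_)
    obtain ⟨S, hS0, hSr, hS⟩ := h
    obtain ⟨T, hT1, hT2, hT3⟩ := Finset.exists_subsuperset_card_eq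
      (s := B'.filter (fun b => ∃ a ∈ S, (γ (a, b)).val = 0)) (t := B') (n := 2 * S.card)
      (Finset.filter_subset _ _) hS.le (by omega)
    refine ⟨S.card, Finset.mem_Icc.2 ⟨hS0.card_pos, hSr⟩, (S, T), ?_, ?_⟩
    · rw [Finset.mem_product, Finset.mem_powersetCard, Finset.mem_powersetCard]
      exact ⟨⟨Finset.subset_univ _, rfl⟩, hT2, hT3⟩
    · intro k hk
      rw [Finset.mem_product, Finset.mem_sdiff] at hk
      intro h0
      apply hk.2.2
      apply hT1
      rw [Finset.mem_filter]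
      exact ⟨hk.2.1, k.1, hk.1, h0⟩
  refine h1.trans ((pr_exists_le _ _).trans (Finset.sum_le_sum (fun a ha => ?_)))
  rw [Finset.mem_Icc] at ha
  refine (pr_exists_le _ _).trans ?_
  have h2 : ∀ p ∈ (Finset.powersetCard a (Finset.univ : Finset A)) ×ˢ
      (Finset.powersetCard (2 * a) B'),
      pr (fun γ : A × B → Fin g => ∀ k, k ∈ p.1 ×ˢ (B' \ p.2) → (γ k).val ≠ 0) ≤
        ((1 - 1 / (g : ℝ)) ^ (B'.card - 2 * r)) ^ a := by
    intro p hp
    rw [Finset.mem_product, Finset.mem_powersetCard, Finset.mem_powersetCard] at hp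
    rw [XP_set g hg, Finset.card_product, Finset.card_sdiff_of_subset hp.2.1, hp.1.2, hp.2.2,
      ← pow_mul]
    refine pow_le_pow_of_le_one hθ0 hθ1 ?_
    rw [mul_comm]
    refine Nat.mul_le_mul_left a ?_
    omega
  refine (Finset.sum_le_sum h2).trans ?_
  rw [Finset.sum_const, nsmul_eq_mul, Finset.card_product, Finset.card_powersetCard,
    Finset.card_powersetCard, mul_pow]
  refine mul_le_mul_of_nonneg_right ?_ (by positivity)
  rw [Nat.cast_mul, mul_pow]
  refine mul_le_mul ?_ ?_ (Nat.cast_nonneg _) (by positivity)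
  · have := Nat.choose_le_pow (Fintype.card A) a
    rw [Finset.card_univ]
    exact_mod_cast this
  · have h3 : (B'.card).choose (2 * a) ≤ B'.card ^ (2 * a) := Nat.choose_le_pow _ _
    have h4 : B'.card ^ (2 * a) ≤ (Fintype.card B) ^ (2 * a) :=
      Nat.pow_le_pow_left (Finset.card_le_univ _) _
    rw [← pow_mul]
    exact_mod_cast h3.trans h4

theorem prXP : StXP := by
  intro A B _ _ g r hg
  refine ⟨fun B' hB => XP_one A B g r hg B' hB, fun A' hA => ?_⟩
  have h := XP_one B A g r hg A' hA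
  rw [← pr_equiv (Equiv.arrowCongr (Equiv.prodComm A B) (Equiv.refl (Fin g)))] at h
  exact h

end Pool.Agent.Work.MP_f7ef37_lc.WR
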