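import Pool.Agent.Work.MP_f7ef37_lc.WR.Asm4
import Pool.Agent.Work.MP_f7ef37_lc.WR.I_CN
import Pool.Agent.Work.MP_f7ef37_lc.WR.I_CL
import Pool.Agent.Work.MP_f7ef37_lc.WR.I_FA
import Pool.Agent.Work.MP_f7ef37_lc.WR.I_FB
import Pool.Agent.Work.MP_f7ef37_lc.WR.I_SD
import Pool.Agent.Work.MP_f7ef37_lc.WR.I_SD2
import Pool.Agent.Work.MP_f7ef37_lc.WR.I_OR2
import Pool.Agent.Work.MP_f7ef37_lc.WR.I_EM
import Pool.Agent.Work.MP_f7ef37_lc.WR.I_SP
import Pool.Agent.Work.MP_f7ef37_lc.WR.I_RI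
import Pool.Agent.Work.MP_f7ef37_lc.WR.I_HI2
import Pool.Agent.Work.MP_f7ef37_lc.WR.I_RB
import Pool.Agent.Work.MP_f7ef37_lc.WR.I_UA
import Pool.Agent.Work.MP_f7ef37_lc.WR.I_UN
import Pool.Agent.Work.MP_f7ef37_lc.WR.I_UM
import Pool.Agent.Work.MP_f7ef37_lc.WR.I_VA
import Pool.Agent.Work.MP_f7ef37_lc.WR.I_XP
import Pool.Agent.Work.MP_f7ef37_lc.WR.I_XB
import Pool.Agent.Work.MP_f7ef37_lc.WR.I_GL
import Pool.Agent.Work.MP_f7ef37_lc.WR.I_GX
import Pool.Agent.Work.MP_f7ef37_lc.WR.I_GH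
import Pool.Agent.Work.MP_f7ef37_lc.WR.I_HX
import Pool.Agent.Work.MP_f7ef37_lc.WR.I_ST
import Pool.Agent.Work.MP_f7ef37_lc.WR.I_GA
import Pool.Agent.Work.MP_f7ef37_lc.WR.I_BD
import Pool.Agent.Work.MP_f7ef37_lc.WR.I_NA2
import Pool.Agent.Work.MP_f7ef37_lc.WR.I_NB2

/-!
# The theorem of the block [f7ef37 WR]
-/

set_option autoImplicit false

namespace Pool.Agent.Work.MP_f7ef37_lc.WR

theorem prHI2 : StHI2 := HI2_of (OR2_of prFA prFB prSD2) prSD prEM prSP prRI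

theorem items : Items where
  cn := prCN
  cl := prCL
  fb := prFB
  hi := prHI2
  rb := prRB
  ua := prUA
  un := prUN
  um := prUM
  va := prVA
  xp := prXP
  xb := prXB
  gl := prGL
  gx := prGX
  gh := prGH
  hx := prHX
  st := prST
  ga := prGA
  bd := prBD
  na := prNA2
  nb := prNB2

theorem form1 : StForm1 := form1_of (core_of items)

theorem form2 : StForm2 := form2_of form1

end Pool.Agent.Work.MP_f7ef37_lc.WR
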