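import Pool.Agent.Work.MP_f7ef37_lc.WR.Basic

/-!
# Statements of the block [f7ef37 WR], part 1

Every item: `theorem prX : StX` in the file `WR/I_X.lean`. The docstring of `StX` is its complete
proof. `WR/Basic.lean` has the lemmas on `ex` and `pr` (linearity, union bound, Markov, product
rules `ex_pi_prod`, `pr_pi`, `pr_and_prod`, invariance under an equivalence, `pr_eq_card`).
-/

set_option autoImplicit false

open Classical

namespace Pool.Agent.Work.MP_f7ef37_lc.WR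

open Pool.Agent.Work.MP_f7ef37_lc.OP

/-! ## Closure -/

/-- [CN] EASY. The number of subsets with at most `t` elements is at most `(N + 1) ^ t`. Induction
on `t`: a set with at most `t + 1` elements is empty or `insert e S` with `S.card ≤ t`; so the
number is at most `1 + N * (N + 1) ^ t ≤ (N + 1) ^ (t + 1)` (or: `S ∪ option`-images). -/
def StCN : Prop := ∀ (E : Type) [Fintype E] (t : ℕ),
  (Finset.univ.filter (fun S : Finset E => S.card ≤ t)).card ≤ (Fintype.card E + 1) ^ t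

/-- [CL] MEDIUM. Closure of a family under spread sets. State: a family `G ⊇ F` and a finite set
`K` of families with: every member of `G` has at most `t` elements and is contained in a member of
`F`; `K.card ≤ (G \ F).card`, so `K.card ≤ (N + 1) ^ t` by CN; every `B ∈ K` is `Spread` with some
`1 ≤ b ≤ t`; (d') if `ρ` contains a member of every `B ∈ K` then for all `S ∈ G` there is `T ∈ F`
with `T ⊆ S ∪ ρ`. Let `M` be the set of the minimal members of `G` (for inclusion); every member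
of `G` contains a member of `M`. Take a state with `G.card` maximal (it is bounded); claim: `M` is
`Small`. Otherwise there are `s ≤ t` and `C`, `C.card ≤ s`, with `dg (lay M s) C > lam ^ (s -
C.card)`; choose for this `s` a set `A` with this property of maximal cardinality. `A.card < s`
because for `A.card = s` at most one member of `lay M s` contains `A`, and `lam ^ 0 = 1`. Let
`b = s - A.card` and `B = {S \ A | S ∈ lay M s, A ⊆ S}` (the map is injective there, so
`B.card = dg (lay M s) A > lam ^ b`). For `C` nonempty, `C.card ≤ b`: if `C` meets `A` then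
`dg B C = 0`; otherwise `dg B C = dg (lay M s) (A ∪ C)`, which is at most `lam ^ (s - A.card -
C.card)` by maximality of `A` (`lam > 0` for the zero case). Members of `B` are subsets of members
of `F`, so they are matchings. `A` is a proper subset of some minimal member of `G`
(`dg > 0` since `lam ^ b > 0`), hence `A ∉ G`. The state `(insert A G, insert B K)` is larger:
(d') for `A`: some `S \ A ∈ B` is contained in `ρ`, and `T ⊆ S ∪ ρ ⊆ A ∪ ρ` by (d') for `S ∈ G`.
Start: `G = F`, `K = ∅`. -/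
def StCL : Prop := StCN → ∀ (I J : Type) [Fintype I] [Fintype J] (lam : ℝ) (t : ℕ) (F : Fm I J),
  0 < lam → (∀ S ∈ F, S.card ≤ t ∧ Mat S) →
  ∃ (M : Fm I J) (K : Finset (Fm I J)), (∀ S ∈ M, S.card ≤ t) ∧ Small lam t M ∧
    (K.card : ℝ) ≤ ((Fintype.card (I × J) : ℝ) + 1) ^ t ∧
    (∀ B ∈ K, ∃ b, 1 ≤ b ∧ b ≤ t ∧ Spread lam b B) ∧
    (∀ S ∈ F, ∃ S' ∈ M, S' ⊆ S) ∧
    ∀ ρ : Finset (I × J), (∀ B ∈ K, ∃ S ∈ B, S ⊆ ρ) →
      ∀ S ∈ M, ∃ T ∈ F, ∀ e ∈ T, e ∈ S ∨ e ∈ ρ

/-! ## One round -/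

/-- [FA] MEDIUM. A matching `B` with `b` edges avoiding `Z` is contained in the set of the valid
edges of a random round with probability at least `(3/4) (q)_b / N ^ b`, `N = |I × J|`. The events
`A_f`, `f : B ↪ Fin q` (there are `(q)_b` embeddings, `Fintype.card_embedding_eq`), `A_f` = (
`η (f e) = e` for `e ∈ B`, and for all `l` not in the range of `f` the edge `η l` has no end
covered by `B`), are disjoint (the slot of `e` is unique, because a second slot with the edge `e`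
would be one of the `f e'`, `e' ≠ e`, `η (f e') = e'`, or meets `B`) and imply `B ⊆ val Z η` (`B` is
a matching). `pr A_f = (1 / N) ^ b * p0 ^ (q - b)` by `pr_pi`, where `p0` is the probability that
an edge has no end covered by `B`; at most `b |J| + b |I| ≤ 2 b |I|` edges have such an end, so
`1 - p0 ≤ 2 b / |J|`. Bernoulli: `p0 ^ (q - b) ≥ 1 - q * 2 b / |J| ≥ 3 / 4`. -/
def StFA : Prop := ∀ (I J : Type) [Fintype I] [Fintype J] (q b : ℕ) (Z : Set (I ⊕ J))
  (B : Finset (I × J)), Mat B → B.card = b → (∀ e ∈ B, ∀ v ∈ Z, ¬ Inc v e) →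
  1 ≤ Fintype.card J → Fintype.card J ≤ Fintype.card I → 8 * b * q ≤ Fintype.card J → b ≤ q →
  3 / 4 * ((q.descFactorial b : ℝ) / (Fintype.card (I × J) : ℝ) ^ b) ≤
    pr (fun η : Fin q → I × J => B ⊆ val Z η)

/-- [FB] EASY-MEDIUM. The probability that all elements of `U` are among `q` random elements of
`E` is at most `(q)_u / N ^ u`: union bound over the embeddings `f : U ↪ Fin q` (their number is
`(q)_u`) of the events `∀ e ∈ U, η (f e) = e`, each of probability `1 / N ^ u` (`pr_pi`). -/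
def StFB : Prop := ∀ (E : Type) [Fintype E] [Nonempty E] (q : ℕ) (U : Finset E),
  pr (fun η : Fin q → E => ∀ e ∈ U, ∃ k, η k = e) ≤
    (q.descFactorial U.card : ℝ) / (Fintype.card E : ℝ) ^ U.card

/-- [SC] MEDIUM. Write `N = |I × J|`, `a = (q)_b / N ^ b`, `n = |J|`, `N = |I| * n`. For
`S, S' ∈ B` with intersection `C`, `c = C.card`: `(S ∪ S').card = 2 b - c`. For `c = 0`:
`(q)_{2b} / N ^ (2b) ≤ a ^ 2`. For `c ≥ 1`: `(q)_{2b-c} ≤ (q)_b * q ^ (b - c)` and
`q ^ b ≤ 2 ^ b * (q)_b` (as `q ≥ 2 b`, every factor of `(q)_b` is at least `q / 2`), so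
`(q)_{2b-c} / N ^ (2b-c) ≤ a ^ 2 * 2 ^ b * (N / q) ^ c`. The pairs with `c ≥ 1` contribute at most
`a ^ 2 * 2 ^ b * ∑_{S ∈ B} ∑_{∅ ≠ C ⊆ S} dg B C * (N / q) ^ |C|
≤ a ^ 2 * 2 ^ b * |B| * ∑_{c ≥ 1} binom(b, c) * lam ^ (b - c) * (N / q) ^ c
≤ a ^ 2 * 2 ^ (b + 1) * |B| ^ 2 * ((1 + x) ^ b - 1)`, `x = N / (q lam) = n / (q Lam)`, because
`lam ^ (b - c) = lam ^ b / lam ^ c ≤ 2 |B| / lam ^ c`. By hypothesis `x ≤ 1 / (32 t 2 ^ t)`, so
`(1 + x) ^ b - 1 ≤ exp (b x) - 1 ≤ 2 b x ≤ 1 / (16 * 2 ^ t)` and the factor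
`2 ^ (b + 1) * (...) ≤ 1 / 8`. Total `≤ (9 / 8) a ^ 2 |B| ^ 2`. -/
def StSC : Prop := ∀ (I J : Type) [Fintype I] [Fintype J] (q t b : ℕ) (Lam lam : ℝ)
  (B : Fm I J), 1 ≤ Fintype.card J → Fintype.card J ≤ Fintype.card I → 1 ≤ b → b ≤ t →
  2 * t ≤ q → 0 < Lam → lam = Lam * Fintype.card I →
  32 * t * 2 ^ t * (Fintype.card J : ℝ) ≤ q * Lam →
  (∀ S ∈ B, S.card = b) → lam ^ b ≤ 2 * (B.card : ℝ) →
  (∀ C : Finset (I × J), C.Nonempty → C.card ≤ b → (dg B C : ℝ) ≤ lam ^ (b - C.card)) →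
  ∑ S ∈ B, ∑ S' ∈ B, (q.descFactorial (S ∪ S').card : ℝ) /
      (Fintype.card (I × J) : ℝ) ^ (S ∪ S').card ≤
    9 / 8 * ((B.card : ℝ) * ((q.descFactorial b : ℝ) / (Fintype.card (I × J) : ℝ) ^ b)) ^ 2

/-- [OR] EASY-MEDIUM. One round: with probability at least `1 / 2` a member of `B` is contained in
the set of the valid edges. `X` = number of `S ∈ B` with `S ⊆ val Z η`. `ex X ≥ (3/4) |B| a` by
FA, `ex (X ^ 2) = ∑ ∑ pr (S ⊆ val ∧ S' ⊆ val) ≤ ∑ ∑ pr (all edges of S ∪ S' are slots) ≤ (9/8)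
(|B| a) ^ 2` by FB and SC. Cauchy-Schwarz: `(ex X) ^ 2 ≤ ex (X ^ 2) * pr (X ≠ 0)`; so
`pr (X ≠ 0) ≥ (9/16) / (9/8) = 1/2` (`|B| a > 0`: `|B| > 0` because `lam > 0`). -/
def StOR : Prop := StFA → StFB → StSC → ∀ (I J : Type) [Fintype I] [Fintype J] (q t b : ℕ)
  (Lam lam : ℝ) (B : Fm I J) (Z : Set (I ⊕ J)), 1 ≤ Fintype.card J →
  Fintype.card J ≤ Fintype.card I → 1 ≤ b → b ≤ t → 2 * t ≤ q → 8 * t * q ≤ Fintype.card J →
  0 < Lam → lam = Lam * Fintype.card I → 32 * t * 2 ^ t * (Fintype.card J : ℝ) ≤ q * Lam →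
  (∀ S ∈ B, S.card = b ∧ Mat S) → (∀ S ∈ B, ∀ v ∈ Z, ¬ Cov S v) →
  lam ^ b ≤ 2 * (B.card : ℝ) →
  (∀ C : Finset (I × J), C.Nonempty → C.card ≤ b → (dg B C : ℝ) ≤ lam ^ (b - C.card)) →
  pr (fun η : Fin q → I × J => ∀ S ∈ B, ¬ S ⊆ val Z η) ≤ 1 / 2

/-! ## Spent vertices and the rounds -/

/-- [SD] EASY-MEDIUM. Vertex degrees of a spread family, `lam = Lam * |I|`. `vd B v` is at most
the sum of `dg B {e}` over the at most `|I|` edges `e` at `v` (there are `|J|` or `|I|` of them),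
so at most `|I| * lam ^ (b - 1) = lam ^ b / Lam ≤ |B| / Lam`. Double counting: `∑_i vd B (inl i) =
∑_{S ∈ B} (number of pigeons covered by S) ≤ b |B|`, the same for holes. -/
def StSD : Prop := ∀ (I J : Type) [Fintype I] [Fintype J] (b : ℕ) (Lam lam : ℝ) (B : Fm I J),
  1 ≤ Fintype.card J → Fintype.card J ≤ Fintype.card I → 1 ≤ b → 0 < Lam →
  lam = Lam * Fintype.card I → Spread lam b B →
  (∀ v : I ⊕ J, (vd B v : ℝ) ≤ (B.card : ℝ) / Lam) ∧
  ∑ i : I, (vd B (Sum.inl i) : ℝ) ≤ b * (B.card : ℝ) ∧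
  ∑ j : J, (vd B (Sum.inr j) : ℝ) ≤ b * (B.card : ℝ)

/-- [EM] EASY-MEDIUM. Exponential moment. With `s = 1 / a`: `exp (s w) ≤ 1 + 2 s w` for
`0 ≤ s w ≤ 1`, so `ex (exp (s w)) ≤ 1 + 2 μ / a ≤ exp (2 μ / a)`; by `ex_pi_prod` (twice) the mean
of `exp (s * ∑ w)` is at most `exp (2 R q μ / a)`, and Markov: the sum is more than `1 / 2` with
probability at most `exp (2 R q μ / a - 1 / (2 a))`. -/
def StEM : Prop := ∀ (E : Type) [Fintype E] [Nonempty E] (R q : ℕ) (w : E → ℝ) (a μ : ℝ),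
  0 < a → (∀ e, 0 ≤ w e ∧ w e ≤ a) → ex w ≤ μ →
  pr (fun ω : Fin R → Fin q → E => 1 / 2 < ∑ r, ∑ l, w (ω r l)) ≤
    Real.exp (2 * ((R : ℝ) * q) * μ / a - 1 / (2 * a))

/-- [SP] EASY-MEDIUM. The slots spend more than half of `B` with probability at most
`exp (-7 Lam / 32)`: the number of `S ∈ B` covering a used vertex is at most the sum over all
slots of `vd B (inl (ω r l).1) + vd B (inr (ω r l).2)`. Apply EM with `w e =
(vd B (inl e.1) + vd B (inr e.2)) / |B|`, `a = 2 / Lam`, `μ = 2 t / |J|` (SD; the mean over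
`I × J` of `vd B (inl e.1)` is the mean over `I`, at most `b |B| / |I| ≤ t |B| / |J|`):
`2 R q μ / a - 1 / (2 a) = 2 R q t Lam / |J| - Lam / 4 ≤ Lam / 32 - Lam / 4`. If `B.card = 0`
nothing is to be proved (`lam ^ b > 0`, so this does not happen). -/
def StSP : Prop := StSD → StEM → ∀ (I J : Type) [Fintype I] [Fintype J] (R q t b : ℕ)
  (Lam lam : ℝ) (B : Fm I J), 1 ≤ Fintype.card J → Fintype.card J ≤ Fintype.card I → 1 ≤ b →
  b ≤ t → 64 * t * (R * q) ≤ Fintype.card J → 0 < Lam → lam = Lam * Fintype.card I →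
  Spread lam b B →
  pr (fun ω : Fin R → Fin q → I × J =>
    B.card < 2 * (B.filter (fun S => ∃ v ∈ used ω R, Cov S v)).card) ≤
    Real.exp (-(7 * Lam / 32))

/-- [RI] MEDIUM. Rounds. `bad r ω` depends only on `ω k`, `k ≤ r`, and for every `ω` the
probability over a new value of coordinate `r` is at most `1 / 2`. Show by induction on `j ≤ R`:
`pr (∀ r, r.val < j → bad r ω) ≤ (1/2) ^ j`. Step: let `r` be the coordinate `j`, `A` the event
for `j`; it does not depend on coordinate `r`. The mean over `ω` of `f ω` is the mean over `ω` of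
the mean over `x` of `f (update ω r x)` (for every finite product: `∑_ω ∑_x f (update ω r x) =
|X| * ∑_ω f ω`, as every `ω'` is `update ω r x` for exactly `|X|` pairs). For `ω ∉ A` the inner
probability is `0`, for `ω ∈ A` it is at most `1/2`. -/
def StRI : Prop := ∀ (X : Type) [Fintype X] [Nonempty X] (R : ℕ)
  (bad : Fin R → (Fin R → X) → Prop),
  (∀ (r : Fin R) (ω ω' : Fin R → X), (∀ k, k ≤ r → ω k = ω' k) → bad r ω → bad r ω') →
  (∀ (r : Fin R) (ω : Fin R → X), pr (fun x => bad r (Function.update ω r x)) ≤ 1 / 2) →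
  pr (fun ω => ∀ r, bad r ω) ≤ (1 / 2) ^ R

/-- [HI] EASY-MEDIUM. Hitting. If no `S ∈ B` is contained in `rho ω` then either more than half of
`B` is spent (SP), or for all rounds `r` the event `bad r ω`: at least half of the members of `B`
avoid `used ω r` and no member of `B` (avoiding `used ω r`) is contained in
`val (used ω r) (ω r)`. `bad r` depends only on `ω k`, `k ≤ r`, `used (update ω r x) r =
used ω r`, and OR (for the subfamily of the members avoiding `used ω r`, its degrees are at most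
those of `B`, its cardinality at least `|B| / 2`) gives the hypothesis of RI with
`X = Fin q → I × J`. For `R = 0` the bound is trivial. `8 t q ≤ |J|` follows from
`64 t R q ≤ |J|` and `R ≥ 1`. -/
def StHI : Prop := StFA → StFB → StSC → StOR → StSD → StEM → StSP → StRI →
  ∀ (I J : Type) [Fintype I] [Fintype J] (R q t b : ℕ) (Lam lam : ℝ) (B : Fm I J),
  1 ≤ R → 1 ≤ Fintype.card J → Fintype.card J ≤ Fintype.card I → 1 ≤ b → b ≤ t → 2 * t ≤ q →
  64 * t * (R * q) ≤ Fintype.card J → 0 < Lam → lam = Lam * Fintype.card I →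
  32 * t * 2 ^ t * (Fintype.card J : ℝ) ≤ q * Lam → Spread lam b B →
  pr (fun ω : Fin R → Fin q → I × J => ∀ S ∈ B, ¬ S ⊆ rho ω) ≤
    (1 / 2) ^ R + Real.exp (-(7 * Lam / 32))

/-- [RB] EASY. Basic facts on `rho`: it is a matching (two valid edges of one round: the slots are
different and do not meet; of different rounds: the later one avoids the used vertices); it is
contained in `xi`; it has at most `R * q` edges (every valid edge is the edge of a slot). -/
def StRB : Prop := ∀ (I J : Type) [Fintype I] [Fintype J] (R q g : ℕ)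
  (ω : Fin R → Fin q → I × J) (γ : I × J → Fin g),
  Mat (rho ω) ∧ rho ω ⊆ xi ω γ ∧ (rho ω).card ≤ R * q

/-! ## Upper tail -/

/-- [UA] MEDIUM. `U ⊆ xi ω γ`: for some `V ⊆ U` all edges of `V` are slots and all edges of
`U \ V` have colour `0`. Union bound over `V`: the probability that all edges of `V` are slots is
at most `(R q / N) ^ |V|` (union bound over the maps `V → Fin R × Fin q`, which may be assumed
injective; or FB after identifying `Fin R → Fin q → E` with `Fin (R * q) → E`,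
`descFactorial ≤ pow`), and `(1 / g) ^ |U \ V|` for the colours; the sum is
`(R q / N + 1 / g) ^ |U|` (`Finset.sum_pow_mul_eq_add_pow` or `Finset.prod_add`). -/
def StUA : Prop := StFB → ∀ (I J : Type) [Fintype I] [Fintype J] [Nonempty (I × J)]
  (R q g : ℕ) (U : Finset (I × J)), 1 ≤ g →
  pr (fun p : (Fin R → Fin q → I × J) × (I × J → Fin g) => U ⊆ xi p.1 p.2) ≤
    ((R : ℝ) * q / (Fintype.card (I × J) : ℝ) + 1 / (g : ℝ)) ^ U.card

/-- [UN] EASY-MEDIUM. `∑_{S ∈ M} θ ^ |S \ U| ≤ (|U| + θ lam) ^ s`: group by `C = S ∩ U`, which is a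
subset of `U` with `c ≤ s` elements: at most `∑_{C ⊆ U, |C| ≤ s} dg M C * θ ^ (s - |C|) ≤
∑_{c ≤ s} binom(|U|, c) (θ lam) ^ (s - c)`, and `binom(|U|, c) ≤ |U| ^ c ≤ binom(s, c) |U| ^ c`. -/
def StUN : Prop := ∀ (I J : Type) [Fintype I] [Fintype J] (M : Fm I J) (s : ℕ) (lam θ : ℝ)
  (U : Finset (I × J)), 0 ≤ lam → 0 ≤ θ → (∀ S ∈ M, S.card = s) →
  (∀ C : Finset (I × J), C.card ≤ s → (dg M C : ℝ) ≤ lam ^ (s - C.card)) →
  ∑ S ∈ M, θ ^ (S \ U).card ≤ ((U.card : ℝ) + θ * lam) ^ s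

/-- [UM] EASY-MEDIUM. Moments of `X` = number of `S ∈ M` with `S ⊆ Ξ ω`. Induction on `k`, for all
`U`: the mean of `X ^ k` times the indicator of `U ⊆ Ξ` is at most
`θ ^ |U| * (|U| + s k + θ lam) ^ (s k)`. Step: the mean for `k + 1` is the sum over `S ∈ M` of the
mean of `X ^ k` times the indicator of `U ∪ S ⊆ Ξ`, at most `∑_S θ ^ |U ∪ S| *
(|U ∪ S| + s k + θ lam) ^ (s k)`, `|U ∪ S| = |U| + |S \ U| ≤ |U| + s`, and UN. Then `U = ∅` and
Markov for `X ^ k` (for `0 < y ^ s`, `y = s k + θ lam`; if `y ^ s = 0` then `s ≥ 1`, `y = 0`, the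
mean of `X ^ k` is `0` for `k ≥ 1`, so `X = 0` everywhere; for `k = 0` the bound is trivial). -/
def StUM : Prop := StUN → ∀ (I J : Type) [Fintype I] [Fintype J] (Ω : Type) [Fintype Ω]
  (X : Ω → Finset (I × J)) (M : Fm I J) (s k : ℕ) (lam θ : ℝ), 0 ≤ lam → 0 ≤ θ →
  (∀ U : Finset (I × J), pr (fun ω => U ⊆ X ω) ≤ θ ^ U.card) → (∀ S ∈ M, S.card = s) →
  (∀ C : Finset (I × J), C.card ≤ s → (dg M C : ℝ) ≤ lam ^ (s - C.card)) →
  pr (fun ω => 2 * ((s : ℝ) * k + θ * lam) ^ s < ((M.filter (fun S => S ⊆ X ω)).card : ℝ)) ≤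
    (1 / 2) ^ k

/-- [VA] EASY. The number of vertices covered by the members of `M` contained in `X`: `Av M X` is
the union over `s ≤ t` and `S ∈ lay M s` with `S ⊆ X` of the at most `2 s` vertices covered by `S`
(for `s = 0` none). With at most `2 (s k + θl) ^ s ≤ 2 (t k + θl) ^ t` sets for every `s` (as
`t k + θl ≥ 1`), the total is at most `t * (2 t * 2 (t k + θl) ^ t)`. -/
def StVA : Prop := ∀ (I J : Type) [Fintype I] [Fintype J] (t k : ℕ) (y : ℝ) (M : Fm I J)
  (X : Finset (I × J)), 1 ≤ t → 1 ≤ k → 0 ≤ y → (∀ S ∈ M, S.card ≤ t) →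
  (∀ s ≤ t, (((lay M s).filter (fun S => S ⊆ X)).card : ℝ) ≤ 2 * ((s : ℝ) * k + y) ^ s) →
  ((Av M X).card : ℝ) ≤ 4 * (t : ℝ) ^ 2 * ((t : ℝ) * k + y) ^ t

end Pool.Agent.Work.MP_f7ef37_lc.WR
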