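import Pool.Agent.Work.MP_f7ef37_lc.WR.Basic

/-!
# Statements of the block [f7ef37 WR], part 2

Every item: `theorem prX : StX` in the file `WR/I_X.lean`. The docstring of `StX` is its complete
proof.
-/

set_option autoImplicit false

open Classical

namespace Pool.Agent.Work.MP_f7ef37_lc.WR

open Pool.Agent.Work.MP_f7ef37_lc.OP

/-! ## Expansion of a random graph -/

/-- [XP] MEDIUM. Random bipartite graph: `γ : A × B → Fin g` uniform, edges of colour `0`. For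
`S ⊆ A` with `a` elements, `1 ≤ a ≤ r`, if fewer than `2 a` elements of `B'` have a neighbour in
`S`, then there is `T ⊆ B'` with `T.card = 2 a` (as `2 r ≤ |B'|`) containing them, so no edge
between `S` and `B' \ T` has colour `0`: probability `(1 - 1/g) ^ (a (|B'| - 2 a)) ≤
((1 - 1/g) ^ (|B'| - 2 r)) ^ a`. The number of pairs is at most `|A| ^ a * |B| ^ (2 a)`
(`Nat.choose_le_pow`). Sum over `a`. The second statement is the first one for `B × A` and the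
function `γ ∘ Prod.swap` (`pr_equiv`). -/
def StXP : Prop := ∀ (A B : Type) [Fintype A] [Fintype B] (g r : ℕ), 1 ≤ g →
  (∀ B' : Finset B, 2 * r ≤ B'.card →
    pr (fun γ : A × B → Fin g => ∃ S : Finset A, S.Nonempty ∧ S.card ≤ r ∧
      (B'.filter (fun b => ∃ a ∈ S, (γ (a, b)).val = 0)).card < 2 * S.card) ≤
    ∑ a ∈ Finset.Icc 1 r, ((Fintype.card A : ℝ) * (Fintype.card B : ℝ) ^ 2 *
      (1 - 1 / (g : ℝ)) ^ (B'.card - 2 * r)) ^ a) ∧
  (∀ A' : Finset A, 2 * r ≤ A'.card →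
    pr (fun γ : A × B → Fin g => ∃ S : Finset B, S.Nonempty ∧ S.card ≤ r ∧
      (A'.filter (fun a => ∃ b ∈ S, (γ (a, b)).val = 0)).card < 2 * S.card) ≤
    ∑ a ∈ Finset.Icc 1 r, ((Fintype.card B : ℝ) * (Fintype.card A : ℝ) ^ 2 *
      (1 - 1 / (g : ℝ)) ^ (A'.card - 2 * r)) ^ a)

/-- [XB] EASY-MEDIUM. Expansion of `gr ρ γ` on the board, `r = n / 8`, `n = |J|`, `m = |I|`.
A one-sided set `S` of vertices outside `ρ` is a set of pigeons or a set of holes; its neighbours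
in `gr ρ γ` are the holes (pigeons) `y` outside `ρ` joined to `S` by an edge of colour `0` (an
edge meets no edge of the matching `ρ` iff both ends are not covered). Apply XP with
`B'` = holes outside `ρ` (at least `n - n / 64`, so `B'.card - 2 r ≥ n / 2`), resp. `A'` =
pigeons outside `ρ`. By `hp` the two sums are at most `∑ (1 / (16 m)) ^ a` and
`∑ (1 / (16 n)) ^ a`, each at most `1 / 8`. (The empty set is trivial; `2 r ≤ B'.card` since
`n / 4 ≤ n - n / 64`.) -/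
def StXB : Prop := StXP → ∀ (I J : Type) [Fintype I] [Fintype J] (g : ℕ) (ρ : Finset (I × J)),
  1 ≤ g → 2 ≤ Fintype.card J → Fintype.card J ≤ Fintype.card I → Mat ρ →
  64 * ρ.card ≤ Fintype.card J →
  (∀ k : ℕ, Fintype.card J ≤ 2 * k → (1 - 1 / (g : ℝ)) ^ k ≤
    1 / (16 * (Fintype.card I : ℝ) ^ 2 * (Fintype.card J : ℝ) ^ 2)) →
  pr (fun γ : I × J → Fin g => ¬ Exp2 (Lk (gr ρ γ)) Sum.isLeft
    (Finset.univ.filter (fun v => ¬ Cov ρ v)) (Fintype.card J / 8)) ≤ 1 / 4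

/-! ## Hall's condition -/

/-- [GL] EASY-MEDIUM. Tight sets. Write `N' A = (nb adj A).filter (· ∉ W)`. `A`, `A'` tight on the
same side `c` (subsets of the board outside `W`, `|N' A| = |A|`), with `|A| + |A'| ≤ r`. Then the
union and the intersection are tight and `N' (A ∩ A') = N' A ∩ N' A'`: `N' (A ∪ A') = N' A ∪ N' A'`
and `N' (A ∩ A') ⊆ N' A ∩ N' A'`, so `|N' (A ∪ A')| + |N' (A ∩ A')| ≤ |A| + |A'| = |A ∪ A'| +
|A ∩ A'|`, and `Hal` gives the reverse inequality for each of the two terms. -/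
def StGL : Prop := ∀ (V : Type) [Fintype V] (adj : V → V → Prop) (side : V → Bool)
  (Bd : Finset V) (r : ℕ) (W : Finset V) (c : Bool) (A A' : Finset V),
  Hal adj side Bd r W → (∀ x ∈ A, x ∈ Bd ∧ x ∉ W ∧ side x = c) →
  (∀ x ∈ A', x ∈ Bd ∧ x ∉ W ∧ side x = c) → A.card + A'.card ≤ r →
  ((nb adj A).filter (fun y => y ∉ W)).card = A.card →
  ((nb adj A').filter (fun y => y ∉ W)).card = A'.card →
  ((nb adj (A ∪ A')).filter (fun y => y ∉ W)).card = (A ∪ A').card ∧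
  ((nb adj (A ∩ A')).filter (fun y => y ∉ W)).card = (A ∩ A').card ∧
  (nb adj (A ∩ A')).filter (fun y => y ∉ W) =
    ((nb adj A).filter (fun y => y ∉ W)) ∩ ((nb adj A').filter (fun y => y ∉ W))

/-- [GX] MEDIUM. Extension. `adj` is symmetric, joins different sides, both ends on the board.
`W` has at most `β` elements on each side, `2 β + 1 ≤ r`. Then for `v` on the board outside `W`
there is a neighbour `u` outside `W` with `Hal` for `W ∪ {v, u}`. Proof. `N' A = N(A) \ W`. A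
one-sided `A` (board, outside `W`, `|A| ≤ r`) is tight if `|N' A| = |A|`; then `2 |A| ≤ |N(A)| ≤
|N' A| + β` (all neighbours are on the other side), so `|A| ≤ β`. `Hal` for `W ∪ {v, u}` can fail
only for a tight `A`: (i) `A` on the side of `v`, `v ∉ A`, `u ∈ N' A`; or (ii) `A` on the other
side, `u ∉ A`, `v ∈ N' A`. By GL the tight sets of a side are closed under unions and
intersections (`|A| + |A'| ≤ 2 β ≤ r`) and `N' (A ∩ A') = N' A ∩ N' A'`. Let `Q` be the largest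
tight set on the side of `v` not containing `v` (the empty set is tight), and `X` the smallest
tight set on the other side with `v ∈ N' X`, if there is one. (i) cannot happen if `u ∉ N' Q`,
(ii) cannot happen if there is no `X`, or if `u ∈ X`. Case 1, no `X`: if all neighbours of `v`
outside `W` are in `N' Q` then `N' (Q ∪ {v}) = N' Q`, so `|Q| + 1 ≤ |Q|` by `Hal`
(`|Q| + 1 ≤ β + 1 ≤ r`). Case 2: suppose that all neighbours of `v` in `X` are in `N' Q`. The set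
`X \ N' Q` has `N' (X \ N' Q) ⊆ N' X \ (Q ∪ {v})`, so by `Hal`: `|X| - |X ∩ N' Q| ≤ |X| - 1 -
|N' X ∩ Q|`. The set `Q \ N' X` has `N' (Q \ N' X) ⊆ N' Q \ X`, so `|Q| - |Q ∩ N' X| ≤ |Q| -
|N' Q ∩ X|`. Contradiction. (`X` and `Q` are disjoint from `W`.) -/
def StGX : Prop := StGL → ∀ (V : Type) [Fintype V] (adj : V → V → Prop) (side : V → Bool)
  (Bd : Finset V) (r β : ℕ) (W : Finset V) (v : V),
  (∀ x y, adj x y → adj y x ∧ side x ≠ side y ∧ x ∈ Bd) → Exp2 adj side Bd r →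
  Hal adj side Bd r W → (∀ c, (W.filter (fun x => side x = c)).card ≤ β) → 2 * β + 1 ≤ r →
  v ∈ Bd → v ∉ W → ∃ u, adj v u ∧ u ∉ W ∧ Hal adj side Bd r (insert v (insert u W))

/-- [GH] EASY-MEDIUM. Positions are hereditary. Let `b' ⊆ b`, `A` one-sided on the board outside
`cv b'`, `|A| ≤ r`. Split `A` into `A0 = A \ cv b` and `A1 = A ∩ cv b`; every `x ∈ A1` is an end
of a unique edge of `b \ b'`, its other end `x'` is a neighbour of `x` in `G`, in `cv b` and not in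
`cv b'` (`b` is a matching); different `x` (same side) have different `x'`. So
`|N A \ cv b'| ≥ |N A0 \ cv b| + |A1| ≥ |A0| + |A1|`. -/
def StGH : Prop := ∀ (I J : Type) [Fintype I] [Fintype J] (G ρ : Finset (I × J)) (r : ℕ)
  (b b' : Finset (I × J)), Hm G ρ r b → b' ⊆ b → Hm G ρ r b'

/-- [HX] EASY-MEDIUM. Extension of positions, from GX with `V = I ⊕ J`, `adj = Lk G`,
`side = Sum.isLeft`, `Bd` = vertices not covered by `ρ`, `W = cv b`, `β = b.card`. The neighbour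
`u` of `v` gives the edge `f` with the ends `v`, `u`; `cv (insert f b) = insert v (insert u
(cv b))`. Also the empty matching is a position by `Exp2`. -/
def StHX : Prop := StGL → StGX → ∀ (I J : Type) [Fintype I] [Fintype J]
  (G ρ : Finset (I × J)) (r : ℕ), (∀ e ∈ G, NA ρ e) →
  Exp2 (Lk G) Sum.isLeft (Finset.univ.filter (fun v => ¬ Cov ρ v)) r →
  Hm G ρ r ∅ ∧ ∀ (b : Finset (I × J)) (v : I ⊕ J), Hm G ρ r b → 2 * b.card + 1 ≤ r →
    ¬ Cov ρ v → ¬ Cov b v → ∃ f ∈ G, Inc v f ∧ NA b f ∧ Hm G ρ r (insert f b)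

/-! ## The game -/

/-- [ST] EASY-MEDIUM. Only the edges of `b` meeting `Av M X` matter. `c = ρ ∪ b` is a matching.
`Sat D c` by the term `T`: choose `S ⊆ c`: the edges of `T.1` and for every `e ∈ T.2` an edge of
`c` meeting `e`; `S.card ≤ T.1.card + T.2.card ≤ t`, and `Sat D S`, so `S ∈ Fam t D`. There is
`S' ∈ M` with `S' ⊆ S ⊆ c ⊆ X`, so the ends of the edges of `S'` are in `Av M X`. There is
`T' ∈ Fam t D` with `T' ⊆ S' ∪ ρ`, so `T' ⊆ ρ ∪ meet (Av M X) b`. `Sat D T'` and monotonicity for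
matchings (`e ∈ T.2` meets `f ∈ T'`; if `e` were in the larger matching then `e = f ∈ T'`). -/
def StST : Prop := ∀ (I J : Type) [Fintype I] [Fintype J] (t : ℕ) (D : Ln I J) (M : Fm I J)
  (ρ X b : Finset (I × J)), (∀ T ∈ D, T.1.card + T.2.card ≤ t) →
  (∀ S ∈ Fam t D, ∃ S' ∈ M, S' ⊆ S) → (∀ S ∈ M, ∃ T ∈ Fam t D, ∀ e ∈ T, e ∈ S ∨ e ∈ ρ) →
  Mat (ρ ∪ b) → ρ ∪ b ⊆ X → Sat D (ρ ∪ b) → Sat D (ρ ∪ meet (Av M X) b)

/-- [GA] MEDIUM. The game. `Pos` = positions. Invariant `Q s b`: `Pos b`, `b.card ≤ w`, `b` covers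
every vertex of `A s` not covered by `ρ`, and `¬ Sat (Ds s) (ρ ∪ b)`. Claim: by strong induction on
`s` there is no `b` with `Q s b`. Let `Q s b`. Call `b' ⊇ b` good if `Pos b'` and no edge of
`b' \ b` meets `A s`. For good `b'`: `¬ Sat (Ds s) (ρ ∪ b')`, since `hst` gives `Sat (Ds s) (ρ ∪
meet (A s) b')`, `meet (A s) b' ⊆ b` and `Sat` is monotone for matchings. A good `b'` with
`b'.card ≤ 3 w + 3` and a vertex `v` covered neither by `ρ` nor by `b'`: `hext` gives `f` at `v`;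
`insert f b'` is good, because the ends of `f` are covered neither by `b` nor by `ρ` (`hmat`), so
they are not in `A s`. Hence all vertices of a given set `Y` can be covered (by `ρ ∪ b'`) with at
most `Y.card` new edges, as long as `b.card + Y.card ≤ 3 w + 4`. Rule: cover `A r ∪ A r'`; the
matching `ρ ∪ b'` does not satisfy `Ds s`, so it does not satisfy one of the premises, say `Ds r`;
`b'' = meet (A r) b'` has at most `|A r| ≤ w` edges (a matching), `Pos b''` by `hher`, covers what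
`b'` covers of `A r`, and `¬ Sat (Ds r) (ρ ∪ b'')`: `Q r b''`. Axiom: cover the vertex `v`, resp.
the ends of `e` and `f` (at most `3` vertices as they are adjacent; or `4`, `w + 4 ≤ 3 w + 4`),
resp. one end of `e`; then the axiom is satisfied by `ρ ∪ b'`, contradiction. Finally if
`Ds s = ∅` start with `∅` and cover `A s`: the result satisfies `Q s`. -/
def StGA : Prop := ∀ (I J : Type) [Fintype I] [Fintype J] (K w : ℕ) (Ds : Fin K → Ln I J)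
  (A : Fin K → Finset (I ⊕ J)) (ρ : Finset (I × J)) (Pos : Finset (I × J) → Prop),
  1 ≤ w → (∀ s, OkLine Ds s) → (∀ s, (A s).card ≤ w) → Pos ∅ →
  (∀ b b', Pos b → b' ⊆ b → Pos b') → (∀ b, Pos b → Mat (ρ ∪ b)) →
  (∀ b v, Pos b → b.card ≤ 3 * w + 3 → ¬ Cov ρ v → ¬ Cov b v →
    ∃ f, Inc v f ∧ NA (ρ ∪ b) f ∧ Pos (insert f b)) →
  (∀ s b, Pos b → Sat (Ds s) (ρ ∪ b) → Sat (Ds s) (ρ ∪ meet (A s) b)) →
  ∀ s, Ds s ≠ ∅

/-- [BD] EASY-MEDIUM. The board: as `OP.S_BOARD` (file `OP/I_BOARD.lean`, namespace `OP.NBOARD`;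
import it and copy its proof), with two more conclusions (`Fintype.card I ≤ m`, and both parts of
the terms are bounded) and without the tame condition. The number of pigeons: `M'` is a subset of
`Fin m`. The terms: `(pos M T).card + (neg M T).card ≤ T.card ≤ t`, the two images in `T` are
disjoint (third component `true`, `false`). -/
def StBD : Prop := ∀ (t m n k : ℕ) (P : Fin (k + 1) → Finset (Finset (Fin m × Fin n × Bool))),
  1 ≤ n → n < m → IsRef t m n k P →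
  ∃ (I : Type) (_ : Fintype I) (K : ℕ) (Ds : Fin K → Ln I (Fin n)),
    n ≤ Fintype.card I ∧ Fintype.card I ≤ m ∧ (K : ℝ) ≤ size P + 1 ∧
    (∀ s, ∀ T ∈ Ds s, T.1.card + T.2.card ≤ t) ∧ (∀ s, OkLine Ds s) ∧ (∃ s, Ds s = ∅)

/-! ## Numbers -/

/-- The parameters. `n` holes, `m` pigeons, `R` rounds with `q` slots, colours `Fin g`, the
constant `Lam`, the bound `w` for the number of vertices of a line, `K` lines. -/
structure Par (t n m K R q g w : ℕ) (Lam : ℝ) : Prop where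
  R1 : 1 ≤ R
  q1 : 2 * t ≤ q
  q2 : 64 * t * (R * q) ≤ n
  Lam1 : 0 < Lam
  Lam2 : 32 * t * 2 ^ t * (n : ℝ) ≤ q * Lam
  g1 : 2 ≤ g
  g2 : g ≤ n
  ex1 : ∀ k : ℕ, n ≤ 2 * k → (1 - 1 / (g : ℝ)) ^ k ≤ 1 / (16 * (m : ℝ) ^ 2 * (n : ℝ) ^ 2)
  un1 : (K : ℝ) * ((m * n : ℝ) + 1) ^ t * ((1 / 2) ^ R + Real.exp (-(7 * Lam / 32))) ≤ 1 / 4
  un2 : (K : ℝ) * ((t : ℝ) + 1) * (1 / 2) ^ R ≤ 1 / 4
  w1 : 1 ≤ w
  w2 : 48 * w + 56 ≤ n
  w3 : 4 * (t : ℝ) ^ 2 * ((t : ℝ) * R + 2 / (g : ℝ) * (Lam * m)) ^ t ≤ w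

/-- [NA] MEDIUM. First half of the numbers. `R = ⌈(8 t + 10) L⌉₊`, `q = n / (64 t R)` (Nat
division), `Lam = 4096 t ^ 2 2 ^ t R`, `g = ⌊n / (20 log n)⌋₊`. From the hypothesis with
`C0` large (depending on `t`): `C0 L log n ≤ n`, `m ≤ n ^ 2` (as `C0 L log n ≥ 1` and
`C0 L log n (m / n) ≤ (…) ^ t ≤ n` since the base is at least `1`), `log 2 ≤ log n ≤ L`, `R ≤
(8 t + 12) L`, so `64 t R * 2 t ≤ n` and `2 t ≤ q`, `q ≥ n / (128 t R)` (as `⌊x⌋ ≥ x / 2` for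
`x ≥ 1`), so `q Lam ≥ 32 t 2 ^ t n`. `g ≥ 2` and `g ≤ n / (20 log n) ≤ n`; `(1 - 1/g) ^ k ≤
exp (-k / g) ≤ exp (-10 log n) ≤ 1 / (16 n ^ 6) ≤ 1 / (16 m ^ 2 n ^ 2)` (`n ^ 4 ≥ 16`). Union
bounds: `K ≤ exp (2 L)`, `m n + 1 ≤ n ^ 3 + 1 ≤ n ^ 4 ≤ exp (4 L)`, `7 Lam / 32 ≥ R log 2`, so the
left side of `un1` is at most `exp ((4 t + 2) L) * 2 * exp (- R log 2)` and
`R log 2 ≥ (8 t + 10) L * 0.69 ≥ (4 t + 5) L`, `exp (3 L) ≥ 8`. `un2`: `t + 1 ≤ 2 ^ t ≤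
exp (t L)`. -/
def StNA : Prop := ∀ t : ℕ, 1 ≤ t → ∃ C0 : ℝ, 0 < C0 ∧ ∀ (n m K : ℕ) (L C : ℝ), C0 ≤ C →
  2 ≤ n → n ≤ m → Real.log n ≤ L → (C * L * Real.log n * ((m : ℝ) / n)) ^ t ≤ n →
  (K : ℝ) ≤ Real.exp (2 * L) →
  ∃ R q g : ℕ, ∃ Lam : ℝ, 1 ≤ R ∧ (R : ℝ) ≤ (8 * t + 12) * L ∧ 2 * t ≤ q ∧
    64 * t * (R * q) ≤ n ∧ Lam = 4096 * (t : ℝ) ^ 2 * 2 ^ t * R ∧
    32 * t * 2 ^ t * (n : ℝ) ≤ q * Lam ∧ 2 ≤ g ∧ g ≤ n ∧
    (n : ℝ) ≤ 40 * Real.log n * g ∧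
    (∀ k : ℕ, n ≤ 2 * k → (1 - 1 / (g : ℝ)) ^ k ≤ 1 / (16 * (m : ℝ) ^ 2 * (n : ℝ) ^ 2)) ∧
    (K : ℝ) * ((m * n : ℝ) + 1) ^ t * ((1 / 2) ^ R + Real.exp (-(7 * Lam / 32))) ≤ 1 / 4 ∧
    (K : ℝ) * ((t : ℝ) + 1) * (1 / 2) ^ R ≤ 1 / 4

/-- [NB] EASY-MEDIUM. Second half: the bound `w`. With `R ≤ (8 t + 12) L`, `n ≤ 40 log n g`,
`Lam = 4096 t ^ 2 2 ^ t R`: `2 / g * (Lam m) ≤ 80 log n * Lam * (m / n)`, and
`t R ≤ t R (2 log n) (m / n)`, so `y = t R + 2 / g * (Lam m) ≤ C1 L log n (m / n)` with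
`C1 = (8 t + 12) (2 t + 80 * 4096 t ^ 2 2 ^ t)`. Let `C0 = 1000 t ^ 2 C1`. Then `4 t ^ 2 y ^ t ≤
4 t ^ 2 (C1 / C) ^ t n ≤ n / 250`. `w = ⌊n / 250⌋ + 1` or `w = ⌈4 t ^ 2 y ^ t⌉₊`: `48 w + 56 ≤
48 n / 250 + 104 ≤ n` because `n ≥ C L log n ≥ 1000 * 28 * …` is at least `200`
(`C1 ≥ 20 * 80 * 4096`, `L log n ≥ (log 2) ^ 2 ≥ 0.48`). -/
def StNB : Prop := ∀ t : ℕ, 1 ≤ t → ∃ C0 : ℝ, 0 < C0 ∧ ∀ (n m R g : ℕ) (L C Lam : ℝ), C0 ≤ C →
  2 ≤ n → n ≤ m → Real.log n ≤ L → (C * L * Real.log n * ((m : ℝ) / n)) ^ t ≤ n →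
  (R : ℝ) ≤ (8 * t + 12) * L → Lam = 4096 * (t : ℝ) ^ 2 * 2 ^ t * R →
  (n : ℝ) ≤ 40 * Real.log n * g → 1 ≤ g →
  ∃ w : ℕ, 1 ≤ w ∧ 48 * w + 56 ≤ n ∧
    4 * (t : ℝ) ^ 2 * ((t : ℝ) * R + 2 / (g : ℝ) * (Lam * m)) ^ t ≤ w

end Pool.Agent.Work.MP_f7ef37_lc.WR
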