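import Pool.Agent.Work.MP_f7ef37_lc.WR.Stmts
import Pool.Agent.Work.MP_f7ef37_lc.WR.Stmts2

/-!
# Statements of the block [f7ef37 WR], part 3: the versions which are uniform in `t`

Instead of `2 t ≤ q` and `32 t 2 ^ t n ≤ q Lam` the hypotheses are `2 t ^ 2 ≤ q` and
`64 t n ≤ q Lam`. The constant of the theorem does not depend on `t`.
-/

set_option autoImplicit false

open Classical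

namespace Pool.Agent.Work.MP_f7ef37_lc.WR

open Pool.Agent.Work.MP_f7ef37_lc.OP

/-- As `StSC`, with `q ^ b ≤ 2 * (q)_b` (as `2 b ^ 2 ≤ q`) instead of `q ^ b ≤ 2 ^ b * (q)_b`. -/
def StSD2 : Prop := ∀ (I J : Type) [Fintype I] [Fintype J] (q t b : ℕ) (Lam lam : ℝ)
  (B : Fm I J), 1 ≤ Fintype.card J → Fintype.card J ≤ Fintype.card I → 1 ≤ b → b ≤ t →
  2 * t ^ 2 ≤ q → 0 < Lam → lam = Lam * Fintype.card I →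
  64 * t * (Fintype.card J : ℝ) ≤ q * Lam →
  (∀ S ∈ B, S.card = b) → lam ^ b ≤ 2 * (B.card : ℝ) →
  (∀ C : Finset (I × J), C.Nonempty → C.card ≤ b → (dg B C : ℝ) ≤ lam ^ (b - C.card)) →
  ∑ S ∈ B, ∑ S' ∈ B, (q.descFactorial (S ∪ S').card : ℝ) /
      (Fintype.card (I × J) : ℝ) ^ (S ∪ S').card ≤
    9 / 8 * ((B.card : ℝ) * ((q.descFactorial b : ℝ) / (Fintype.card (I × J) : ℝ) ^ b)) ^ 2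

/-- As `StOR`. -/
def StOR2 : Prop := ∀ (I J : Type) [Fintype I] [Fintype J] (q t b : ℕ)
  (Lam lam : ℝ) (B : Fm I J) (Z : Set (I ⊕ J)), 1 ≤ Fintype.card J →
  Fintype.card J ≤ Fintype.card I → 1 ≤ b → b ≤ t → 2 * t ^ 2 ≤ q →
  8 * t * q ≤ Fintype.card J →
  0 < Lam → lam = Lam * Fintype.card I → 64 * t * (Fintype.card J : ℝ) ≤ q * Lam →
  (∀ S ∈ B, S.card = b ∧ Mat S) → (∀ S ∈ B, ∀ v ∈ Z, ¬ Cov S v) →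
  lam ^ b ≤ 2 * (B.card : ℝ) →
  (∀ C : Finset (I × J), C.Nonempty → C.card ≤ b → (dg B C : ℝ) ≤ lam ^ (b - C.card)) →
  pr (fun η : Fin q → I × J => ∀ S ∈ B, ¬ S ⊆ val Z η) ≤ 1 / 2

/-- As `StHI`. -/
def StHI2 : Prop :=
  ∀ (I J : Type) [Fintype I] [Fintype J] (R q t b : ℕ) (Lam lam : ℝ) (B : Fm I J),
  1 ≤ R → 1 ≤ Fintype.card J → Fintype.card J ≤ Fintype.card I → 1 ≤ b → b ≤ t →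
  2 * t ^ 2 ≤ q → 64 * t * (R * q) ≤ Fintype.card J → 0 < Lam →
  lam = Lam * Fintype.card I →
  64 * t * (Fintype.card J : ℝ) ≤ q * Lam → Spread lam b B →
  pr (fun ω : Fin R → Fin q → I × J => ∀ S ∈ B, ¬ S ⊆ rho ω) ≤
    (1 / 2) ^ R + Real.exp (-(7 * Lam / 32))

/-- The parameters, uniform version. -/
structure Par2 (t n m K R q g w : ℕ) (Lam : ℝ) : Prop where
  R1 : 1 ≤ R
  q1 : 2 * t ^ 2 ≤ q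
  q2 : 64 * t * (R * q) ≤ n
  Lam1 : 0 < Lam
  Lam2 : 64 * t * (n : ℝ) ≤ q * Lam
  g1 : 2 ≤ g
  g2 : g ≤ n
  ex1 : ∀ k : ℕ, n ≤ 2 * k → (1 - 1 / (g : ℝ)) ^ k ≤ 1 / (16 * (m : ℝ) ^ 2 * (n : ℝ) ^ 2)
  un1 : (K : ℝ) * ((m * n : ℝ) + 1) ^ t * ((1 / 2) ^ R + Real.exp (-(7 * Lam / 32))) ≤ 1 / 4
  un2 : (K : ℝ) * ((t : ℝ) + 1) * (1 / 2) ^ R ≤ 1 / 4
  w1 : 1 ≤ w
  w2 : 48 * w + 56 ≤ n
  w3 : 4 * (t : ℝ) ^ 2 * ((t : ℝ) * R + 2 / (g : ℝ) * (Lam * m)) ^ t ≤ w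

/-- As `StNA`, `Lam = 8192 t ^ 2 R`. -/
def StNA2 : Prop := ∃ C0 : ℝ, 0 < C0 ∧ ∀ t : ℕ, 1 ≤ t → ∀ (n m K : ℕ) (L C : ℝ), C0 ≤ C →
  2 ≤ n → n ≤ m → Real.log n ≤ L →
  (C * (t : ℝ) ^ 3 * L * Real.log n * ((m : ℝ) / n)) ^ t ≤ n →
  (K : ℝ) ≤ Real.exp (2 * L) →
  ∃ R q g : ℕ, ∃ Lam : ℝ, 1 ≤ R ∧ (R : ℝ) ≤ (8 * t + 12) * L ∧ 2 * t ^ 2 ≤ q ∧
    64 * t * (R * q) ≤ n ∧ Lam = 8192 * (t : ℝ) ^ 2 * R ∧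
    64 * t * (n : ℝ) ≤ q * Lam ∧ 2 ≤ g ∧ g ≤ n ∧
    (n : ℝ) ≤ 40 * Real.log n * g ∧
    (∀ k : ℕ, n ≤ 2 * k → (1 - 1 / (g : ℝ)) ^ k ≤ 1 / (16 * (m : ℝ) ^ 2 * (n : ℝ) ^ 2)) ∧
    (K : ℝ) * ((m * n : ℝ) + 1) ^ t * ((1 / 2) ^ R + Real.exp (-(7 * Lam / 32))) ≤ 1 / 4 ∧
    (K : ℝ) * ((t : ℝ) + 1) * (1 / 2) ^ R ≤ 1 / 4

/-- As `StNB`. -/
def StNB2 : Prop := ∃ C0 : ℝ, 0 < C0 ∧ ∀ t : ℕ, 1 ≤ t → ∀ (n m R g : ℕ) (L C Lam : ℝ),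
  C0 ≤ C → 2 ≤ n → n ≤ m → Real.log n ≤ L →
  (C * (t : ℝ) ^ 3 * L * Real.log n * ((m : ℝ) / n)) ^ t ≤ n →
  (R : ℝ) ≤ (8 * t + 12) * L → Lam = 8192 * (t : ℝ) ^ 2 * R →
  (n : ℝ) ≤ 40 * Real.log n * g → 1 ≤ g →
  ∃ w : ℕ, 1 ≤ w ∧ 48 * w + 56 ≤ n ∧
    4 * (t : ℝ) ^ 2 * ((t : ℝ) * R + 2 / (g : ℝ) * (Lam * m)) ^ t ≤ w

end Pool.Agent.Work.MP_f7ef37_lc.WR
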